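import Mathlib

/-! Module IND of the odd order theorem for simultaneous Sylow intersections (MP_e5a1a5_al). -/

set_option autoImplicit false

namespace Pool.Agent.H49.Syl

universe u

open scoped commutatorElement

/-- Lemma B (statement of helper77, with `V` in any universe) -/
def LBS : Prop := ∀ (F : Type) [Field F] [Finite F] (_ : Odd (Nat.card F))
  (V : Type u) [AddCommGroup V] [Module F V] [Finite V] [Nontrivial V] (ι : Type) [Finite ι]
  (p : ι → ℕ)
  (_ : ∀ i, (p i).Prime) (_ : ∀ i, p i ≠ 2) (_ : ∀ i, ¬ p i ∣ Nat.card F)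
  (_ : Function.Injective p) (P : ι → Subgroup (Module.End F V)ˣ)
  (_ : ∀ i, IsPGroup (p i) (P i))
  (_ : ∀ i j, i ≠ j → ∀ g ∈ P i, ∀ h ∈ P j, g * h = h * g)
  (s : ι → V) (i₀ : ι) (w : V),
  ∃ f : V, (∀ i, ∀ g ∈ P i, (g : Module.End F V) (f + s i) = f + s i → g = 1) ∧
    ∀ g ∈ P i₀, (g : Module.End F V) w ≠ f + s i₀

/-- a nontrivial normal elementary abelian subgroup -/
theorem exists_elem_abelian (G : Type u) [Group G] [Finite G] [Group.IsSolvable G] [Nontrivial G] :
    ∃ (r : ℕ) (N : Subgroup G), r.Prime ∧ r ∣ Nat.card G ∧ N.Normal ∧ N ≠ ⊥ ∧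
      (∀ a ∈ N, ∀ b ∈ N, a * b = b * a) ∧ ∀ a ∈ N, a ^ r = 1 := by
  classical
  have hs : ∃ n, derivedSeries G n = ⊥ := Group.IsSolvable.solvable
  obtain ⟨m, hm⟩ : ∃ m, Nat.find hs = m + 1 := by
    rcases Nat.eq_zero_or_eq_succ_pred (Nat.find hs) with h | h
    · exfalso
      have := Nat.find_spec hs
      rw [h, derivedSeries_zero] at this
      exact top_ne_bot this
    · exact ⟨_, h⟩
  set A := derivedSeries G m with hA
  have hA0 : A ≠ ⊥ := Nat.find_min hs (by omega)
  have hA1 : ⁅A, A⁆ = ⊥ := by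
    have := Nat.find_spec hs
    rw [hm, derivedSeries_succ] at this
    exact this
  have hAn : A.Normal := derivedSeries_normal G m
  have hcomm : ∀ a ∈ A, ∀ b ∈ A, a * b = b * a := by
    intro a ha b hb
    have h1 : ⁅a, b⁆ ∈ ⁅A, A⁆ := Subgroup.commutator_mem_commutator ha hb
    rw [hA1, Subgroup.mem_bot] at h1
    exact commutatorElement_eq_one_iff_mul_comm.mp h1
  have hcard : Nat.card A ≠ 1 := by
    intro h
    exact hA0 (Subgroup.card_eq_one.mp h)
  obtain ⟨r, hr, hrd⟩ := Nat.exists_prime_and_dvd hcard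
  have := Fact.mk hr
  obtain ⟨a, ha⟩ := exists_prime_orderOf_dvd_card' r hrd
  let N : Subgroup G :=
    { carrier := {a | a ∈ A ∧ a ^ r = 1}
      one_mem' := ⟨A.one_mem, one_pow r⟩
      mul_mem' := by
        rintro a b ⟨ha, ha'⟩ ⟨hb, hb'⟩
        refine ⟨A.mul_mem ha hb, ?_⟩
        have : Commute a b := hcomm a ha b hb
        rw [this.mul_pow, ha', hb', one_mul]
      inv_mem' := by
        rintro a ⟨ha, ha'⟩
        refine ⟨A.inv_mem ha, ?_⟩
        rw [inv_pow, ha', inv_one] }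
  refine ⟨r, N, hr, dvd_trans hrd (Subgroup.card_subgroup_dvd_card A), ?_, ?_, ?_, ?_⟩
  · constructor
    rintro n ⟨hn, hn'⟩ g
    refine ⟨hAn.conj_mem n hn g, ?_⟩
    rw [conj_pow, hn', mul_one, mul_inv_cancel]
  · intro h
    have h1 : (a : G) ∈ N := by
      refine ⟨a.2, ?_⟩
      have := pow_orderOf_eq_one a
      rw [ha] at this
      exact_mod_cast congrArg Subtype.val this
    rw [h, Subgroup.mem_bot] at h1
    have h2 : a = 1 := by exact_mod_cast h1
    rw [h2, orderOf_one] at ha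
    exact hr.one_lt.ne ha
  · intro a ha b hb
    exact hcomm a ha.1 b hb.1
  · intro a ha
    exact ha.2

section step

variable {G : Type u} [Group G] [Finite G]

theorem pow_card_one {p : ℕ} {S : Subgroup G} (hS : IsPGroup p S) {g : G} (hg : g ∈ S) :
    ∃ n, g ^ p ^ n = 1 := by
  obtain ⟨n, hn⟩ := hS ⟨g, hg⟩
  refine ⟨n, ?_⟩
  have := congrArg Subtype.val hn
  simpa using this

/-- an element whose order is both a power of `p` and divides `r` -/
theorem eq_one_of_coprime {p r : ℕ} (hp : p.Prime) (hr : r.Prime) (hpr : p ≠ r) {g : G} {n : ℕ}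
    (h1 : g ^ p ^ n = 1) (h2 : g ^ r = 1) : g = 1 := by
  have h3 : orderOf g ∣ p ^ n := orderOf_dvd_of_pow_eq_one h1
  have h4 : orderOf g ∣ r := orderOf_dvd_of_pow_eq_one h2
  have h5 : Nat.Coprime (p ^ n) r := Nat.Coprime.pow_left n ((Nat.coprime_primes hp hr).mpr hpr)
  have h6 : orderOf g = 1 := Nat.eq_one_of_dvd_coprimes h5 h3 h4
  exact orderOf_eq_one_iff.mp h6

/-- `S ⊓ L` is a complement of `N` in `L`, hence a Sylow subgroup of `L` -/
theorem compl_sylow {p r : ℕ} (hp : p.Prime) (hr : r.Prime) (hpr : p ≠ r) (N L S : Subgroup G)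
    [N.Normal] (hNL : N ≤ L) (hNr : ∀ a ∈ N, a ^ r = 1) (hS : IsPGroup p S)
    (hLS : ∀ l ∈ L, ∃ s ∈ S, s⁻¹ * l ∈ N) :
    ¬ p ∣ ((S ⊓ L).subgroupOf L).index := by
  have hcomp : Subgroup.IsComplement' (N.subgroupOf L) ((S ⊓ L).subgroupOf L) := by
    apply Subgroup.isComplement'_of_disjoint_and_mul_eq_univ
    · rw [Subgroup.disjoint_def]
      intro x hx hy
      rw [Subgroup.mem_subgroupOf] at hx hy
      obtain ⟨n, hn⟩ := pow_card_one hS hy.1
      have := eq_one_of_coprime hp hr hpr hn (hNr _ hx)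
      exact_mod_cast this
    · ext l
      simp only [Set.mem_univ, iff_true]
      obtain ⟨s, hs, hsl⟩ := hLS l.1 l.2
      have hsL : s ∈ L := by
        have h1 : s⁻¹ * (l : G) ∈ L := hNL hsl
        have h2 : s⁻¹ ∈ L := by
          have := L.mul_mem h1 (L.inv_mem l.2)
          simpa using this
        simpa using L.inv_mem h2
      have hnl : (l : G) * s⁻¹ ∈ N := by
        have := (inferInstance : N.Normal).conj_mem _ hsl s
        have e : s * (s⁻¹ * (l : G)) * s⁻¹ = (l : G) * s⁻¹ := by group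
        rw [e] at this
        exact this
      refine ⟨⟨(l : G) * s⁻¹, hNL hnl⟩, ?_, ⟨s, hsL⟩, ?_, ?_⟩
      · exact hnl
      · exact ⟨hs, hsL⟩
      · apply Subtype.ext
        simp
  have hidx := hcomp.index_eq_card
  rw [hidx]
  intro hd
  have := Fact.mk hp
  obtain ⟨a, ha⟩ := exists_prime_orderOf_dvd_card' p hd
  have h1 : (a : L) ^ r = 1 := by
    have h := hNr ((a : L) : G) a.2
    apply Subtype.ext
    exact_mod_cast h
  have h2 : a ^ r = 1 := by
    apply Subtype.ext
    exact_mod_cast h1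
  have h3 : orderOf a ∣ r := orderOf_dvd_of_pow_eq_one h2
  rw [ha] at h3
  exact hpr ((Nat.prime_dvd_prime_iff_eq hp hr).mp h3)

/-- two complements are conjugate under `N` -/
theorem exists_conj {p r : ℕ} (hp : p.Prime) (hr : r.Prime) (hpr : p ≠ r) (N L S T : Subgroup G)
    [N.Normal] (hNL : N ≤ L) (hNr : ∀ a ∈ N, a ^ r = 1) (hS : IsPGroup p S) (hT : IsPGroup p T)
    (hLS : ∀ l ∈ L, ∃ s ∈ S, s⁻¹ * l ∈ N) (hLT : ∀ l ∈ L, ∃ s ∈ T, s⁻¹ * l ∈ N) :
    ∃ y ∈ N, ∀ g, g ∈ T ⊓ L → y * g * y⁻¹ ∈ S ⊓ L := by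
  have := Fact.mk hp
  have i1 := compl_sylow hp hr hpr N L S hNL hNr hS hLS
  have i2 := compl_sylow hp hr hpr N L T hNL hNr hT hLT
  have q1 : IsPGroup p ((S ⊓ L).subgroupOf L) := by
    intro x
    obtain ⟨n, hn⟩ := pow_card_one hS (g := ((x : L) : G)) x.2.1
    refine ⟨n, ?_⟩
    apply Subtype.ext
    apply Subtype.ext
    exact_mod_cast hn
  have q2 : IsPGroup p ((T ⊓ L).subgroupOf L) := by
    intro x
    obtain ⟨n, hn⟩ := pow_card_one hT (g := ((x : L) : G)) x.2.1
    refine ⟨n, ?_⟩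
    apply Subtype.ext
    apply Subtype.ext
    exact_mod_cast hn
  obtain ⟨l, hl⟩ := MulAction.exists_smul_eq L (q2.toSylow i2) (q1.toSylow i1)
  have hl' : ∀ g, g ∈ T ⊓ L → (l : G) * g * (l : G)⁻¹ ∈ S ⊓ L := by
    intro g hg
    have h1 : (⟨g, hg.2⟩ : L) ∈ (q2.toSylow i2 : Subgroup L) := by
      rw [IsPGroup.toSylow_coe]
      exact hg
    have h2 : l * ⟨g, hg.2⟩ * l⁻¹ ∈ ((l • q2.toSylow i2 : Sylow p L) : Subgroup L) := by
      rw [Sylow.coe_subgroup_smul]
      rw [Subgroup.mem_pointwise_smul_iff_inv_smul_mem]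
      have : (MulAut.conj l)⁻¹ • (l * ⟨g, hg.2⟩ * l⁻¹) = (⟨g, hg.2⟩ : L) := by
        rw [← map_inv, MulAut.smul_def, MulAut.conj_apply]
        group
      rw [this]
      exact h1
    rw [hl, IsPGroup.toSylow_coe] at h2
    exact h2
  obtain ⟨s, hs, hsl⟩ := hLS (l : G) l.2
  -- l = s * n, n = s⁻¹ l ∈ N
  refine ⟨s⁻¹ * (l : G), hsl, ?_⟩
  intro g hg
  have h1 := hl' g hg
  have hsL : s ∈ L := by
    have h1 : s⁻¹ * (l : G) ∈ L := hNL hsl
    have h2 : s⁻¹ ∈ L := by
      have := L.mul_mem h1 (L.inv_mem l.2)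
      simpa using this
    simpa using L.inv_mem h2
  have hsS : s ∈ S ⊓ L := ⟨hs, hsL⟩
  have := (S ⊓ L).mul_mem ((S ⊓ L).mul_mem ((S ⊓ L).inv_mem hsS) h1) hsS
  have e : s⁻¹ * (l : G) * g * (s⁻¹ * (l : G))⁻¹ = s⁻¹ * ((l : G) * g * (l : G)⁻¹) * s := by group
  rw [e]
  exact this

/-- the linear representation attached to an action on an elementary abelian group -/
noncomputable def rho0 {G : Type u} [Group G] (A : Type u) [CommGroup A] (r : ℕ)
    [Module (ZMod r) (Additive A)] (φ : G →* MulAut A) : G →* Module.End (ZMod r) (Additive A) where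
  toFun := fun g => AddMonoidHom.toZModLinearMap r (MonoidHom.toAdditive (φ g).toMonoidHom)
  map_one' := by
    apply LinearMap.ext
    intro x
    rw [map_one]
    rfl
  map_mul' := by
    intro a b
    apply LinearMap.ext
    intro x
    rw [map_mul]
    rfl

theorem rho0_apply {G : Type u} [Group G] (A : Type u) [CommGroup A] (r : ℕ)
    [Module (ZMod r) (Additive A)] (φ : G →* MulAut A) (g : G) (a : A) :
    rho0 A r φ g (Additive.ofMul a) = Additive.ofMul (φ g a) := rfl

/-- the same with values in units -/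
noncomputable def rho1 {G : Type u} [Group G] (A : Type u) [CommGroup A] (r : ℕ)
    [Module (ZMod r) (Additive A)] (φ : G →* MulAut A) :
    G →* (Module.End (ZMod r) (Additive A))ˣ := MonoidHom.toHomUnits (rho0 A r φ)

theorem rho1_coe {G : Type u} [Group G] (A : Type u) [CommGroup A] (r : ℕ)
    [Module (ZMod r) (Additive A)] (φ : G →* MulAut A) (g : G) :
    ((rho1 A r φ g : (Module.End (ZMod r) (Additive A))ˣ) : Module.End (ZMod r) (Additive A)) =
      rho0 A r φ g := rfl

/-- Lemma B for an action on an elementary abelian group -/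
theorem exists_f_abs (hLB : LBS.{u}) {r : ℕ} (hr : r.Prime) (hr2 : Odd r)
    (A : Type u) [CommGroup A] [Finite A] [Nontrivial A] (hA : ∀ a : A, a ^ r = 1)
    (φ : G →* MulAut A)
    (ι : Type) [Finite ι] [Nonempty ι] (p : ι → ℕ) (hp : ∀ i, (p i).Prime) (hp2 : ∀ i, p i ≠ 2)
    (hpr : ∀ i, p i ≠ r) (hinj : Function.Injective p) (D : ι → Subgroup G)
    (hD : ∀ i, IsPGroup (p i) (D i))
    (hcomm : ∀ i j, i ≠ j → ∀ a ∈ D i, ∀ b ∈ D j, φ (a * b) = φ (b * a))
    (y : ι → A) :
    ∃ f : A, ∀ i, ∀ g ∈ D i, φ g (y i * f) = y i * f → φ g = 1 := by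
  classical
  have := Fact.mk hr
  letI : Module (ZMod r) (Additive A) := AddCommGroup.zmodModule (n := r) (by
    intro x
    exact hA (Additive.toMul x))
  haveI : Finite (Additive A) := inferInstanceAs (Finite A)
  haveI : Nontrivial (Additive A) := inferInstanceAs (Nontrivial A)
  obtain ⟨i₀⟩ := (inferInstance : Nonempty ι)
  obtain ⟨f, hf, -⟩ := hLB (ZMod r) (by
      rw [Nat.card_zmod]
      exact hr2) (Additive A) ι p hp hp2 (by
      intro i hd
      rw [Nat.card_zmod] at hd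
      exact hpr i ((Nat.prime_dvd_prime_iff_eq (hp i) hr).mp hd)) hinj
      (fun i => (D i).map (rho1 A r φ)) (fun i => (hD i).map (rho1 A r φ)) (by
      intro i j hij g hg h hh
      obtain ⟨a, ha, rfl⟩ := Subgroup.mem_map.mp hg
      obtain ⟨b, hb, rfl⟩ := Subgroup.mem_map.mp hh
      rw [← map_mul, ← map_mul]
      apply Units.ext
      rw [rho1_coe, rho1_coe]
      apply LinearMap.ext
      intro x
      change rho0 A r φ (a * b) (Additive.ofMul (Additive.toMul x)) =
        rho0 A r φ (b * a) (Additive.ofMul (Additive.toMul x))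
      rw [rho0_apply, rho0_apply, hcomm i j hij a ha b hb])
      (fun i => Additive.ofMul (y i)) i₀ 0
  refine ⟨Additive.toMul f, ?_⟩
  intro i g hg hc
  have h1 : (rho1 A r φ g) = 1 := by
    apply hf i (rho1 A r φ g) (Subgroup.mem_map_of_mem _ hg)
    rw [rho1_coe]
    have e : f + Additive.ofMul (y i) = Additive.ofMul (y i * Additive.toMul f) := by
      rw [add_comm]
      rfl
    rw [e, rho0_apply, hc]
  apply MulEquiv.ext
  intro a
  have h2 : rho0 A r φ g (Additive.ofMul a) = Additive.ofMul a := by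
    rw [← rho1_coe, h1]
    rfl
  rw [rho0_apply] at h2
  exact Additive.ofMul.injective h2

/-- The representation of `G` on an elementary abelian normal subgroup, used only through the
following consequence of Lemma B. -/
theorem exists_f (hLB : LBS.{u}) (hodd : Odd (Nat.card G)) {r : ℕ} (hr : r.Prime)
    (hrd : r ∣ Nat.card G) (N : Subgroup G) [hN : N.Normal] (hN0 : N ≠ ⊥)
    (hNc : ∀ a ∈ N, ∀ b ∈ N, a * b = b * a) (hNr : ∀ a ∈ N, a ^ r = 1)
    (ι : Type) [Finite ι] [Nonempty ι] (p : ι → ℕ) (hp : ∀ i, (p i).Prime) (hp2 : ∀ i, p i ≠ 2)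
    (hpr : ∀ i, p i ≠ r) (hinj : Function.Injective p) (D : ι → Subgroup G)
    (hD : ∀ i, IsPGroup (p i) (D i))
    (hcomm : ∀ i j, i ≠ j → ∀ a ∈ D i, ∀ b ∈ D j, (b * a)⁻¹ * (a * b) ∈ N)
    (y : ι → G) (hy : ∀ i, y i ∈ N) :
    ∃ f ∈ N, ∀ i, ∀ g ∈ D i, g * (y i * f) = (y i * f) * g → ∀ n ∈ N, g * n = n * g := by
  classical
  letI cg : CommGroup N := { (inferInstance : Group N) with
    mul_comm := fun a b => Subtype.ext (hNc a a.2 b b.2) }
  haveI : Nontrivial N := (Subgroup.nontrivial_iff_ne_bot N).mpr hN0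
  have hφN : ∀ n ∈ N, (MulAut.conjNormal n : MulAut N) = 1 := by
    intro n hn
    apply MulEquiv.ext
    intro x
    apply Subtype.ext
    rw [MulAut.conjNormal_apply, hNc n hn _ x.2]
    simp
  obtain ⟨f, hf⟩ := exists_f_abs hLB hr (Odd.of_dvd_nat hodd hrd) N (by
    intro a
    apply Subtype.ext
    exact hNr a a.2) (MulAut.conjNormal : G →* MulAut N) ι p hp hp2 hpr hinj D hD (by
    intro i j hij a ha b hb
    have h1 := hφN _ (hcomm i j hij a ha b hb)
    rw [map_mul, map_inv, inv_mul_eq_one] at h1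
    exact h1.symm) (fun i => ⟨y i, hy i⟩)
  refine ⟨(f : G), f.2, ?_⟩
  intro i g hg hc n hn
  have h1 := hf i g hg (by
    apply Subtype.ext
    rw [MulAut.conjNormal_apply]
    change g * (y i * (f : G)) * g⁻¹ = y i * (f : G)
    rw [hc]
    group)
  have h3 : (MulAut.conjNormal g : MulAut N) ⟨n, hn⟩ = (⟨n, hn⟩ : N) := by
    rw [h1]
    rfl
  have h4 : g * n * g⁻¹ = n := by
    have := congrArg Subtype.val h3
    rw [MulAut.conjNormal_apply] at this
    exact this
  calc g * n = g * n * g⁻¹ * g := by group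
    _ = n * g := by rw [h4]

end step

theorem mem_conj {G : Type u} [Group G] (K : Subgroup G) (x g : G) :
    g ∈ K.map (MulAut.conj x⁻¹).toMonoidHom ↔ x * g * x⁻¹ ∈ K := by
  constructor
  · rintro ⟨k, hk, rfl⟩
    have : x * ((MulAut.conj x⁻¹).toMonoidHom k) * x⁻¹ = k := by
      simp [mul_assoc]
    rw [this]
    exact hk
  · intro h
    refine ⟨_, h, ?_⟩
    simp [mul_assoc]

/-- MODULE IND -/
theorem main_aux (hLB : LBS.{u}) : ∀ (n : ℕ) (G : Type u) [Group G] [Finite G] [Group.IsSolvable G]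
    (_ : Odd (Nat.card G)) (_ : Nat.card G = n) (H : ∀ p : Nat.Primes, Sylow (p : ℕ) G),
    ∃ x : G, ∀ p : Nat.Primes,
      ((H p : Subgroup G) ⊓ (H p : Subgroup G).map (MulAut.conj x⁻¹).toMonoidHom).Normal := by
  intro n
  induction n using Nat.strong_induction_on with
  | _ n ih =>
  intro G _ _ _ hodd hn H
  classical
  rcases subsingleton_or_nontrivial G with hG | hG
  · refine ⟨1, fun p => ?_⟩
    constructor
    intro a ha g
    have : g * a * g⁻¹ = a := Subsingleton.elim _ _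
    rw [this]
    exact ha
  obtain ⟨r, N, hr, hrd, hNn, hN0, hNc, hNr⟩ := exists_elem_abelian G
  have := Fact.mk hr
  -- the quotient
  have hcard : Nat.card G = Nat.card (G ⧸ N) * Nat.card N := Subgroup.card_eq_card_quotient_mul_card_subgroup N
  have hNcard : 1 < Nat.card N := by
    have : Nontrivial N := (Subgroup.nontrivial_iff_ne_bot N).mpr hN0
    exact Finite.one_lt_card
  have hKlt : Nat.card (G ⧸ N) < n := by
    rw [← hn, hcard]
    have : 0 < Nat.card (G ⧸ N) := Nat.card_pos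
    nlinarith
  have hKodd : Odd (Nat.card (G ⧸ N)) := Odd.of_dvd_nat hodd ⟨_, hcard⟩
  have hsurj : Function.Surjective (QuotientGroup.mk' N) := QuotientGroup.mk'_surjective N
  let Hb : ∀ p : Nat.Primes, Sylow (p : ℕ) (G ⧸ N) := fun p =>
    have := Fact.mk p.2
    (H p).mapSurjective hsurj
  have hHb : ∀ p : Nat.Primes, (Hb p : Subgroup (G ⧸ N)) =
      (H p : Subgroup G).map (QuotientGroup.mk' N) := by
    intro p
    have := Fact.mk p.2
    exact Sylow.coe_mapSurjective hsurj (H p)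
  obtain ⟨k, hk⟩ := ih (Nat.card (G ⧸ N)) hKlt (G ⧸ N) hKodd rfl Hb
  obtain ⟨x0, hx0⟩ := hsurj k
  set π : G →* G ⧸ N := QuotientGroup.mk' N with hπ
  have hker : ∀ g : G, π g = 1 ↔ g ∈ N := by
    intro g
    rw [hπ, QuotientGroup.mk'_apply]
    exact QuotientGroup.eq_one_iff g
  let Db : ∀ p : Nat.Primes, Subgroup (G ⧸ N) := fun p =>
    (Hb p : Subgroup (G ⧸ N)) ⊓ (Hb p : Subgroup (G ⧸ N)).map (MulAut.conj k⁻¹).toMonoidHom
  let L : ∀ p : Nat.Primes, Subgroup G := fun p => (Db p).comap π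
  have hLn : ∀ p, (L p).Normal := fun p => (hk p).comap π
  have hNL : ∀ p, N ≤ L p := by
    intro p a ha
    change π a ∈ Db p
    rw [(hker a).mpr ha]
    exact (Db p).one_mem
  -- membership in L
  have memL : ∀ p g, g ∈ L p ↔ (∃ s ∈ (H p : Subgroup G), s⁻¹ * g ∈ N) ∧
      (∃ s ∈ (H p : Subgroup G), s⁻¹ * (x0 * g * x0⁻¹) ∈ N) := by
    intro p g
    have a1 : ∀ g, π g ∈ (Hb p : Subgroup (G ⧸ N)) ↔ ∃ s ∈ (H p : Subgroup G), s⁻¹ * g ∈ N := by
      intro g
      rw [hHb, Subgroup.mem_map]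
      constructor
      · rintro ⟨s, hs, hsg⟩
        refine ⟨s, hs, ?_⟩
        rw [← hker, map_mul, map_inv, inv_mul_eq_one]
        exact hsg
      · rintro ⟨s, hs, hsg⟩
        refine ⟨s, hs, ?_⟩
        rw [← hker, map_mul, map_inv, inv_mul_eq_one] at hsg
        exact hsg
    change π g ∈ Db p ↔ _
    change π g ∈ (Hb p : Subgroup (G ⧸ N)) ⊓
      (Hb p : Subgroup (G ⧸ N)).map (MulAut.conj k⁻¹).toMonoidHom ↔ _
    rw [Subgroup.mem_inf, mem_conj, a1]
    have e : k * π g * k⁻¹ = π (x0 * g * x0⁻¹) := by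
      rw [map_mul, map_mul, map_inv, hx0]
    rw [e, a1]
  -- the conjugates E
  let T : ∀ p : Nat.Primes, Subgroup G := fun p =>
    (H p : Subgroup G).map (MulAut.conj x0⁻¹).toMonoidHom
  have hTp : ∀ p : Nat.Primes, IsPGroup (p : ℕ) (T p) := fun p => (H p).isPGroup'.map _
  have exy : ∀ p : Nat.Primes, (p : ℕ) ≠ r → ∃ y ∈ N, ∀ g, g ∈ T p ⊓ L p →
      y * g * y⁻¹ ∈ (H p : Subgroup G) ⊓ L p := by
    intro p hpr
    apply exists_conj p.2 hr hpr N (L p) (H p : Subgroup G) (T p) (hNL p) hNr (H p).isPGroup'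
      (hTp p)
    · intro l hl
      exact ((memL p l).mp hl).1
    · intro l hl
      obtain ⟨s, hs, hsl⟩ := ((memL p l).mp hl).2
      refine ⟨x0⁻¹ * s * x0, ?_, ?_⟩
      · change _ ∈ (H p : Subgroup G).map (MulAut.conj x0⁻¹).toMonoidHom
        rw [mem_conj]
        have : x0 * (x0⁻¹ * s * x0) * x0⁻¹ = s := by group
        rw [this]
        exact hs
      · have := hNn.conj_mem _ hsl x0⁻¹
        have e : x0⁻¹ * (s⁻¹ * (x0 * l * x0⁻¹)) * x0⁻¹⁻¹ = (x0⁻¹ * s * x0)⁻¹ * l := by group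
        rw [e] at this
        exact this
  choose! y hyN hy using exy
  -- Lemma B
  have hf : ∃ f ∈ N, ∀ p : Nat.Primes, (p : ℕ) ∣ Nat.card G → (p : ℕ) ≠ r →
      ∀ g ∈ (H p : Subgroup G) ⊓ L p, g * (y p * f) = (y p * f) * g → ∀ n ∈ N, g * n = n * g := by
    let ι : Type := {q // q ∈ (Nat.card G).primeFactors.erase r}
    have hq : ∀ i : ι, i.1.Prime ∧ i.1 ∣ Nat.card G ∧ i.1 ≠ r := by
      intro i
      have h := i.2
      rw [Finset.mem_erase, Nat.mem_primeFactors] at h
      exact ⟨h.2.1, h.2.2.1, h.1⟩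
    let P : ι → Nat.Primes := fun i => ⟨i.1, (hq i).1⟩
    rcases isEmpty_or_nonempty ι with hι | hι
    · refine ⟨1, N.one_mem, ?_⟩
      intro p hp hpr
      exfalso
      exact hι.false ⟨p, by
        rw [Finset.mem_erase, Nat.mem_primeFactors]
        exact ⟨hpr, p.2, hp, Nat.card_pos.ne'⟩⟩
    obtain ⟨f, hfN, hf⟩ := exists_f hLB hodd hr hrd N hN0 hNc hNr ι (fun i => i.1)
      (fun i => (hq i).1) (by
        intro i h2
        have h := (hq i).2.1
        rw [h2] at h
        rw [← Nat.not_even_iff_odd] at hodd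
        exact hodd (even_iff_two_dvd.mpr h)) (fun i => (hq i).2.2) Subtype.val_injective
      (fun i => (H (P i) : Subgroup G) ⊓ L (P i)) (by
        intro i
        exact IsPGroup.to_le (H (P i)).isPGroup' inf_le_left) (by
        intro i j hij a ha b hb
        -- the images commute
        have hne : (P i : ℕ) ≠ (P j : ℕ) := fun h => hij (Subtype.ext h)
        have pa : π a ∈ Db (P i) := ha.2
        have pb : π b ∈ Db (P j) := hb.2
        have hdis : Disjoint (Db (P i)) (Db (P j)) := by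
          have := Fact.mk (P i).2
          have := Fact.mk (P j).2
          apply IsPGroup.disjoint_of_ne (P i : ℕ) (P j : ℕ) hne
          · exact IsPGroup.to_le (Hb (P i)).isPGroup' inf_le_left
          · exact IsPGroup.to_le (Hb (P j)).isPGroup' inf_le_left
        have hc : Commute (π a) (π b) :=
          Subgroup.commute_of_normal_of_disjoint _ _ (hk (P i)) (hk (P j)) hdis _ _ pa pb
        rw [← hker, map_mul, map_inv, map_mul, map_mul, inv_mul_eq_one]
        exact hc.eq.symm)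
      (fun i => y (P i)) (fun i => hyN (P i) (hq i).2.2)
    refine ⟨f, hfN, ?_⟩
    intro p hp hpr g hg hc n hn
    exact hf ⟨p, by
        rw [Finset.mem_erase, Nat.mem_primeFactors]
        exact ⟨hpr, p.2, hp, Nat.card_pos.ne'⟩⟩ g hg hc n hn
  obtain ⟨f, hfN, hf⟩ := hf
  refine ⟨x0 * f, fun p => ?_⟩
  -- common part: elements of the intersection lie in L p
  have inL : ∀ g, g ∈ (H p : Subgroup G) → (x0 * f) * g * (x0 * f)⁻¹ ∈ (H p : Subgroup G) →
      g ∈ L p := by
    intro g h1 h2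
    rw [memL]
    refine ⟨⟨g, h1, by simp⟩, ⟨_, h2, ?_⟩⟩
    rw [← hker]
    have hf1 : π f = 1 := (hker f).mpr hfN
    simp only [map_mul, map_inv, hf1]
    group
  by_cases hpr : (p : ℕ) = r
  · -- p = r : the intersection is L p
    have hNH : N ≤ (H p : Subgroup G) := by
      have := hNn
      have hNp : IsPGroup (p : ℕ) N := by
        intro a
        refine ⟨1, ?_⟩
        rw [pow_one, hpr]
        exact Subtype.ext (by exact_mod_cast hNr a a.2)
      exact hNp.le_sylow_of_normal (H p)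
    have heq : (H p : Subgroup G) ⊓ (H p : Subgroup G).map (MulAut.conj (x0 * f)⁻¹).toMonoidHom =
        L p := by
      ext g
      rw [Subgroup.mem_inf, mem_conj]
      constructor
      · rintro ⟨h1, h2⟩
        exact inL g h1 h2
      · intro hg
        obtain ⟨⟨s, hs, hsg⟩, -⟩ := (memL p g).mp hg
        have h1 : g ∈ (H p : Subgroup G) := by
          have := (H p : Subgroup G).mul_mem hs (hNH hsg)
          simpa using this
        refine ⟨h1, ?_⟩
        -- f g f⁻¹ ∈ L p
        have h2 : f * g * f⁻¹ ∈ L p := (hLn p).conj_mem g hg f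
        obtain ⟨-, ⟨s', hs', hsg'⟩⟩ := (memL p _).mp h2
        have := (H p : Subgroup G).mul_mem hs' (hNH hsg')
        have e : s' * (s'⁻¹ * (x0 * (f * g * f⁻¹) * x0⁻¹)) = x0 * f * g * (x0 * f)⁻¹ := by group
        rw [e] at this
        exact this
    rw [heq]
    exact hLn p
  by_cases hpd : (p : ℕ) ∣ Nat.card G
  swap
  · -- H p is trivial
    have hbot : (H p : Subgroup G) = ⊥ := by
      have := Fact.mk p.2
      rw [← Subgroup.card_eq_one]
      obtain ⟨m, hm⟩ := IsPGroup.iff_card.mp (H p).isPGroup'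
      rw [hm]
      rcases Nat.eq_zero_or_pos m with h0 | h0
      · rw [h0, pow_zero]
      · exfalso
        apply hpd
        have h1 : Nat.card (H p : Subgroup G) ∣ Nat.card G := Subgroup.card_subgroup_dvd_card _
        rw [hm] at h1
        exact dvd_trans (dvd_pow_self _ h0.ne') h1
    rw [hbot, bot_inf_eq]
    infer_instance
  -- main case
  set D := (H p : Subgroup G) ⊓ L p with hD
  have hDN : ∀ g ∈ D, g ∈ N → g = 1 := by
    intro g hg hgN
    obtain ⟨m, hm⟩ := pow_card_one (H p).isPGroup' hg.1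
    exact eq_one_of_coprime p.2 hr hpr hm (hNr g hgN)
  have key : ∀ g, g ∈ (H p : Subgroup G) ⊓
      (H p : Subgroup G).map (MulAut.conj (x0 * f)⁻¹).toMonoidHom ↔
      g ∈ D ∧ ∀ n ∈ N, g * n = n * g := by
    intro g
    rw [Subgroup.mem_inf, mem_conj]
    constructor
    · rintro ⟨h1, h2⟩
      have hgL := inL g h1 h2
      have hgD : g ∈ D := ⟨h1, hgL⟩
      refine ⟨hgD, ?_⟩
      apply hf p hpd hpr g hgD
      -- f g f⁻¹ ∈ T p ⊓ L p
      have h3 : f * g * f⁻¹ ∈ T p ⊓ L p := by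
        refine ⟨?_, (hLn p).conj_mem g hgL f⟩
        change _ ∈ (H p : Subgroup G).map (MulAut.conj x0⁻¹).toMonoidHom
        rw [mem_conj]
        have e : x0 * (f * g * f⁻¹) * x0⁻¹ = x0 * f * g * (x0 * f)⁻¹ := by group
        rw [e]
        exact h2
      have h4 := hy p hpr _ h3
      have h5 : y p * (f * g * f⁻¹) * (y p)⁻¹ * g⁻¹ ∈ D := D.mul_mem h4 (D.inv_mem hgD)
      have h6 : y p * (f * g * f⁻¹) * (y p)⁻¹ * g⁻¹ ∈ N := by
        rw [← hker]
        have hf1 : π f = 1 := (hker f).mpr hfN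
        have hy1 : π (y p) = 1 := (hker _).mpr (hyN p hpr)
        simp only [map_mul, map_inv, hf1, hy1]
        group
      have h7 := hDN _ h5 h6
      have h8 : y p * (f * g * f⁻¹) * (y p)⁻¹ = g := by
        rw [mul_inv_eq_one] at h7
        exact h7
      calc g * (y p * f) = y p * (f * g * f⁻¹) * (y p)⁻¹ * (y p * f) := by rw [h8]
        _ = y p * f * g := by group
    · rintro ⟨hgD, hc⟩
      refine ⟨hgD.1, ?_⟩
      -- g commutes with f, y
      have c1 : f * g * f⁻¹ = g := by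
        rw [← hc f hfN]
        group
      -- g ∈ T p: need surjectivity of conj by y : use a counting free argument
      have e : x0 * f * g * (x0 * f)⁻¹ = x0 * (f * g * f⁻¹) * x0⁻¹ := by group
      rw [e, c1]
      -- pick t in T p with t⁻¹ g ∈ N
      have hgL : g ∈ L p := hgD.2
      obtain ⟨-, ⟨s, hs, hsg⟩⟩ := (memL p g).mp hgL
      set t := x0⁻¹ * s * x0 with ht
      have htT : t ∈ T p := by
        change _ ∈ (H p : Subgroup G).map (MulAut.conj x0⁻¹).toMonoidHom
        rw [mem_conj]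
        have : x0 * t * x0⁻¹ = s := by rw [ht]; group
        rw [this]
        exact hs
      have htN : t⁻¹ * g ∈ N := by
        have := hNn.conj_mem _ hsg x0⁻¹
        have e : x0⁻¹ * (s⁻¹ * (x0 * g * x0⁻¹)) * x0⁻¹⁻¹ = t⁻¹ * g := by rw [ht]; group
        rw [e] at this
        exact this
      have htL : t ∈ L p := by
        have h1 : t⁻¹ * g ∈ L p := hNL p htN
        have h2 := (L p).mul_mem h1 ((L p).inv_mem hgL)
        have e : t⁻¹ * g * g⁻¹ = t⁻¹ := by group
        rw [e] at h2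
        simpa using (L p).inv_mem h2
      have h3 := hy p hpr t ⟨htT, htL⟩
      -- y t y⁻¹ ∈ D and congruent to g mod N, so equal to g
      have h5 : y p * t * (y p)⁻¹ * g⁻¹ ∈ D := D.mul_mem h3 (D.inv_mem hgD)
      have h6 : y p * t * (y p)⁻¹ * g⁻¹ ∈ N := by
        rw [← hker]
        have hy1 : π (y p) = 1 := (hker _).mpr (hyN p hpr)
        have htg : π t = π g := by
          rw [← hker, map_mul, map_inv, inv_mul_eq_one] at htN
          exact htN
        simp only [map_mul, map_inv, hy1, htg]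
        group
      have h7 := hDN _ h5 h6
      have h8 : y p * t * (y p)⁻¹ = g := by
        rw [mul_inv_eq_one] at h7
        exact h7
      have h9 : t = g := by
        have c2 := hc (y p) (hyN p hpr)
        calc t = (y p)⁻¹ * (y p * t * (y p)⁻¹) * y p := by group
          _ = (y p)⁻¹ * g * y p := by rw [h8]
          _ = (y p)⁻¹ * (g * y p) := by group
          _ = (y p)⁻¹ * (y p * g) := by rw [c2]
          _ = g := by group
      rw [← h9, ht]
      have : x0 * (x0⁻¹ * s * x0) * x0⁻¹ = s := by group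
      rw [this]
      exact hs
  constructor
  intro d hd t
  rw [key] at hd ⊢
  obtain ⟨hdD, hdc⟩ := hd
  -- w = t d t⁻¹
  set w := t * d * t⁻¹ with hw
  have hwL : w ∈ L p := (hLn p).conj_mem d hdD.2 t
  have hwc : ∀ n ∈ N, w * n = n * w := by
    intro n hn
    have h1 := hdc (t⁻¹ * n * t) (by
      have := hNn.conj_mem n hn t⁻¹
      simpa using this)
    calc w * n = t * (d * (t⁻¹ * n * t)) * t⁻¹ := by rw [hw]; group
      _ = t * (t⁻¹ * n * t * d) * t⁻¹ := by rw [h1]
      _ = n * w := by rw [hw]; group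
  obtain ⟨⟨s, hs, hsw⟩, -⟩ := (memL p w).mp hwL
  have hsL : s ∈ L p := by
    have h1 : s⁻¹ * w ∈ L p := hNL p hsw
    have h2 := (L p).mul_mem h1 ((L p).inv_mem hwL)
    have e : s⁻¹ * w * w⁻¹ = s⁻¹ := by group
    rw [e] at h2
    simpa using (L p).inv_mem h2
  -- n = s⁻¹ w ∈ N commutes with w, and with s
  have hcw : w * (s⁻¹ * w) = (s⁻¹ * w) * w := hwc _ hsw
  have hsw1 : s⁻¹ * w = 1 := by
    have hcomm : Commute s w := by
      have : w * s⁻¹ = s⁻¹ * w := by
        have h := hcw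
        rw [← mul_assoc] at h
        exact mul_right_cancel h
      have h2 : Commute w s⁻¹ := this
      exact Commute.inv_left_iff.mp h2.symm
    obtain ⟨a, ha⟩ := pow_card_one (H p).isPGroup' hs
    obtain ⟨b, hb⟩ := pow_card_one (H p).isPGroup' hdD.1
    have hwb : w ^ (p : ℕ) ^ b = 1 := by
      rw [hw, conj_pow, hb]
      group
    have hpow : (s⁻¹ * w) ^ (p : ℕ) ^ (a + b) = 1 := by
      rw [(hcomm.inv_left).mul_pow, pow_add, pow_mul, inv_pow, ha, inv_one, one_pow, one_mul,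
        mul_comm, pow_mul, hwb, one_pow]
    exact eq_one_of_coprime p.2 hr hpr hpow (hNr _ hsw)
  have hws : w = s := by
    rw [inv_mul_eq_one] at hsw1
    exact hsw1.symm
  refine ⟨?_, hwc⟩
  rw [hws]
  exact ⟨hs, hsL⟩

/-- MODULE IND -/
theorem main (hLB : LBS.{u}) (G : Type u) [Group G] [Finite G] [Group.IsSolvable G]
    (hodd : Odd (Nat.card G)) (H : ∀ p : Nat.Primes, Sylow (p : ℕ) G) :
    ∃ x : G, ∀ p : Nat.Primes,
      ((H p : Subgroup G) ⊓ (H p : Subgroup G).map (MulAut.conj x⁻¹).toMonoidHom).Normal :=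
  main_aux hLB _ G hodd rfl H

end Pool.Agent.H49.Syl
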