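import Mathlib

/-!
Definitions for the face relative interior and the quasi-relative interior of a convex set in a
real topological vector space.
-/

namespace Pool.Agent.H49.FaceDefs

open Set

variable {X : Type*} [AddCommGroup X] [Module ℝ X]

/-- `F` is a face of `C`: a convex subset of `C` such that whenever a point of `F` lies in an open
segment with end points in `C`, both end points are in `F`. -/
def IsFace (C F : Set X) : Prop :=
  F ⊆ C ∧ Convex ℝ F ∧
    ∀ x ∈ F, ∀ y ∈ C, ∀ z ∈ C, x ∈ openSegment ℝ y z → y ∈ F ∧ z ∈ F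

/-- `minFace C x`: the smallest face of `C` containing `x`, i.e. the intersection of all faces
of `C` containing `x`. -/
def minFace (C : Set X) (x : X) : Set X := ⋂₀ {F | IsFace C F ∧ x ∈ F}

/-- The face relative interior of `C`. -/
def fri [TopologicalSpace X] (C : Set X) : Set X := {x | x ∈ C ∧ C ⊆ closure (minFace C x)}

/-- The cone generated by `C - x`. -/
def coneAt (C : Set X) (x : X) : Set X := {v | ∃ y ∈ C, ∃ α : ℝ, 0 ≤ α ∧ v = α • (y - x)}

/-- The quasi-relative interior of `C`: the points `x` of `C` for which the closure of the cone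
generated by `C - x` is a linear subspace. -/
def qri [TopologicalSpace X] (C : Set X) : Set X :=
  {x | x ∈ C ∧ ∃ L : Submodule ℝ X, (L : Set X) = closure (coneAt C x)}

/-- `minFace C x` is contained in each face containing `x`. -/
theorem minFace_subset {C F : Set X} {x : X} (hF : IsFace C F) (hx : x ∈ F) :
    minFace C x ⊆ F := sInter_subset_of_mem ⟨hF, hx⟩

/-- For convex `C` and `x ∈ C`, `minFace C x` is itself a face containing `x`. -/
theorem isFace_minFace {C : Set X} (hC : Convex ℝ C) {x : X} (hx : x ∈ C) :
    IsFace C (minFace C x) ∧ x ∈ minFace C x := by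
  refine ⟨⟨?_, ?_, ?_⟩, ?_⟩
  · exact minFace_subset ⟨subset_rfl, hC, fun _ _ y hy z hz _ => ⟨hy, hz⟩⟩ hx
  · exact convex_sInter fun F hF => hF.1.2.1
  · intro u hu y hy z hz huyz
    constructor
    · exact fun F hF => (hF.1.2.2 u (hu F hF) y hy z hz huyz).1
    · exact fun F hF => (hF.1.2.2 u (hu F hF) y hy z hz huyz).2
  · exact fun F hF => hF.2

end Pool.Agent.H49.FaceDefs
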