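import Mathlib

/-!
Definitions for rational approximants of two-variable power series with prescribed interpolation
sets (Karlsson-Wallin).
-/

namespace Pool.Agent.H49.Mont

open Filter

/-- The exponent vector of the monomial `z₁ ^ p.1 * z₂ ^ p.2`. -/
noncomputable def mon (p : ℕ × ℕ) : Fin 2 →₀ ℕ := Finsupp.single 0 p.1 + Finsupp.single 1 p.2

/-- `S` is an interpolation set for type `(n, ν)`: it has exactly
`(n+1)(n+2)/2 + (ν+1)(ν+2)/2 - 1` elements, contains all `(j,k)` with `j + k ≤ n` and is downward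
closed. -/
def IsInterpolationSet (n ν : ℕ) (S : Finset (ℕ × ℕ)) : Prop :=
  S.card = (n + 1) * (n + 2) / 2 + (ν + 1) * (ν + 2) / 2 - 1 ∧
  (∀ p : ℕ × ℕ, p.1 + p.2 ≤ n → p ∈ S) ∧
  ∀ p ∈ S, ∀ q : ℕ × ℕ, q.1 ≤ p.1 → q.2 ≤ p.2 → q ∈ S

/-- `P / Q` is a rational approximant of type `(n, ν)` to the power series `f` corresponding to
the interpolation set `S`. -/
def IsApproximant (n ν : ℕ) (f : MvPowerSeries (Fin 2) ℂ) (S : Finset (ℕ × ℕ))
    (P Q : MvPolynomial (Fin 2) ℂ) : Prop :=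
  P.totalDegree ≤ n ∧ Q.totalDegree ≤ ν ∧ Q ≠ 0 ∧
  ∀ p ∈ S, MvPowerSeries.coeff (mon p)
    ((Q : MvPowerSeries (Fin 2) ℂ) * f - (P : MvPowerSeries (Fin 2) ℂ)) = 0

/-- `P n / Q n` converges to `f` on `Ω`: for each compact `K ⊆ Ω`, `Q n` has no zero on `K` for all
large `n`, and `P n / Q n` tends to `f` uniformly on `K`. -/
def ConvergesOn (P Q : ℕ → MvPolynomial (Fin 2) ℂ) (f : (Fin 2 → ℂ) → ℂ)
    (Ω : Set (Fin 2 → ℂ)) : Prop :=
  ∀ K : Set (Fin 2 → ℂ), IsCompact K → K ⊆ Ω →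
    (∀ᶠ n in atTop, ∀ z ∈ K, MvPolynomial.eval z (Q n) ≠ 0) ∧
    TendstoUniformlyOn (fun n z => MvPolynomial.eval z (P n) / MvPolynomial.eval z (Q n)) f atTop K

/-- `F` is an entire function on `ℂ²` with Taylor series `a` at the origin: the power series `a`
converges to `F` on all of `ℂ²`. -/
def IsEntireWithSeries (F : (Fin 2 → ℂ) → ℂ) (a : MvPowerSeries (Fin 2) ℂ) : Prop :=
  ∀ z : Fin 2 → ℂ,
    HasSum (fun p : ℕ × ℕ => MvPowerSeries.coeff (mon p) a * z 0 ^ p.1 * z 1 ^ p.2) (F z)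

end Pool.Agent.H49.Mont
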