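import Mathlib
import Pool.Agent.H49.MontDefs

namespace Pool.Agent.H49.Mont

open Filter Finset

/-- the pairs `(j,k)` with `j + k ≤ n`. -/
def T (n : ℕ) : Finset (ℕ × ℕ) := (range (n + 1)).biUnion fun d => antidiagonal d

theorem mem_T {n : ℕ} {p : ℕ × ℕ} : p ∈ T n ↔ p.1 + p.2 ≤ n := by
  simp only [T, mem_biUnion, mem_range, HasAntidiagonal.mem_antidiagonal]
  constructor
  · rintro ⟨d, hd, h⟩; omega
  · intro h; exact ⟨p.1 + p.2, by omega, rfl⟩

theorem card_T (n : ℕ) : (T n).card = (n + 1) * (n + 2) / 2 := by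
  have h1 : (T n).card = ∑ d ∈ range (n + 1), (d + 1) := by
    rw [T, card_biUnion]
    · simp
    · intro a _ b _ hab
      rw [Function.onFun, disjoint_left]
      intro x hx hy
      rw [HasAntidiagonal.mem_antidiagonal] at hx hy
      exact hab (hx.symm.trans hy)
  rw [h1]
  have h2 : (∑ d ∈ range (n + 1), (d + 1)) * 2 = (n + 1) * (n + 2) := by
    clear h1
    induction n with
    | zero => simp
    | succ k ih => rw [sum_range_succ, add_mul, ih]; ring
  omega

theorem mon_zero (p : ℕ × ℕ) : mon p 0 = p.1 := by simp [mon]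

theorem mon_one (p : ℕ × ℕ) : mon p 1 = p.2 := by simp [mon]

theorem mon_injective : Function.Injective mon := by
  intro p q h
  have h0 := congrArg (fun v => v 0) h
  have h1 := congrArg (fun v => v 1) h
  simp only [mon_zero, mon_one] at h0 h1
  exact Prod.ext h0 h1

theorem mon_eta (v : Fin 2 →₀ ℕ) : mon (v 0, v 1) = v := by
  ext i
  fin_cases i
  · simp [mon_zero]
  · simp [mon_one]

theorem mon_le {p q : ℕ × ℕ} : mon p ≤ mon q ↔ p.1 ≤ q.1 ∧ p.2 ≤ q.2 := by
  rw [Finsupp.le_def]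
  constructor
  · intro h
    have h0 := h 0
    have h1 := h 1
    simp only [mon_zero, mon_one] at h0 h1
    exact ⟨h0, h1⟩
  · rintro ⟨h0, h1⟩ i
    fin_cases i
    · simpa [mon_zero] using h0
    · simpa [mon_one] using h1

theorem mon_sub (p q : ℕ × ℕ) : mon p - mon q = mon (p.1 - q.1, p.2 - q.2) := by
  ext i
  fin_cases i
  · simp [mon_zero]
  · simp [mon_one]

theorem degree_mon (p : ℕ × ℕ) : ((mon p).sum fun _ e => e) = p.1 + p.2 := by
  rw [Finsupp.sum_fintype _ _ (by simp)]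
  simp [Fin.sum_univ_two, mon_zero, mon_one]

/-- coefficient outside the degree range -/
theorem coeff_eq_zero_of_lt {Q : MvPolynomial (Fin 2) ℂ} {ν : ℕ} (hQ : Q.totalDegree ≤ ν)
    {p : ℕ × ℕ} (hp : ν < p.1 + p.2) : Q.coeff (mon p) = 0 := by
  by_contra h
  have h1 := MvPolynomial.le_totalDegree (MvPolynomial.mem_support_iff.mpr h)
  rw [degree_mon] at h1
  omega

theorem eq_sum_T {Q : MvPolynomial (Fin 2) ℂ} {ν : ℕ} (hQ : Q.totalDegree ≤ ν) :
    Q = ∑ r ∈ T ν, MvPolynomial.monomial (mon r) (Q.coeff (mon r)) := by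
  classical
  ext v
  rw [MvPolynomial.coeff_sum]
  simp only [MvPolynomial.coeff_monomial]
  rw [← mon_eta v]
  simp only [mon_injective.eq_iff]
  rw [Finset.sum_ite_eq']
  split_ifs with h
  · rfl
  · rw [mem_T] at h
    exact coeff_eq_zero_of_lt hQ (by simpa using h)

/-- the coefficients of a product of a polynomial of degree at most `ν` and a power series. -/
theorem coeff_mul_formula {Q : MvPolynomial (Fin 2) ℂ} {ν : ℕ} (hQ : Q.totalDegree ≤ ν)
    (f : MvPowerSeries (Fin 2) ℂ) (p : ℕ × ℕ) :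
    MvPowerSeries.coeff (mon p) ((Q : MvPowerSeries (Fin 2) ℂ) * f) =
      ∑ r ∈ T ν, if r.1 ≤ p.1 ∧ r.2 ≤ p.2 then
        Q.coeff (mon r) * MvPowerSeries.coeff (mon (p.1 - r.1, p.2 - r.2)) f else 0 := by
  classical
  conv_lhs => rw [eq_sum_T hQ]
  rw [← MvPolynomial.coeToMvPowerSeries.ringHom_apply, map_sum, Finset.sum_mul, map_sum]
  refine Finset.sum_congr rfl fun r _ => ?_
  rw [MvPolynomial.coeToMvPowerSeries.ringHom_apply, MvPolynomial.coe_monomial,
    MvPowerSeries.coeff_monomial_mul]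
  simp only [mon_le, mon_sub]

theorem eval_formula {Q : MvPolynomial (Fin 2) ℂ} {ν : ℕ} (hQ : Q.totalDegree ≤ ν)
    (z : Fin 2 → ℂ) :
    MvPolynomial.eval z Q = ∑ r ∈ T ν, Q.coeff (mon r) * (z 0 ^ r.1 * z 1 ^ r.2) := by
  conv_lhs => rw [eq_sum_T hQ]
  rw [map_sum]
  refine Finset.sum_congr rfl fun r _ => ?_
  rw [MvPolynomial.eval_monomial, Finsupp.prod_fintype _ _ (by simp)]
  simp [Fin.prod_univ_two, mon_zero, mon_one]

/-- one-variable Cauchy estimate -/
theorem cauchy_one (N : ℕ) (c : ℕ → ℂ) {R M : ℝ} (hR : 0 < R)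
    (h : ∀ x : ℂ, ‖x‖ = R → ‖∑ l ∈ range N, c l * x ^ l‖ ≤ M) {j : ℕ} (hj : j < N) :
    ‖c j‖ * R ^ j ≤ M := by
  have hN : N ≠ 0 := by omega
  have hNpos : (0 : ℝ) < N := by exact_mod_cast Nat.pos_of_ne_zero hN
  obtain ⟨ζ, hζ⟩ : ∃ ζ : ℂ, IsPrimitiveRoot ζ N := ⟨_, Complex.isPrimitiveRoot_exp N hN⟩
  have hζn : ‖ζ‖ = 1 := hζ.norm'_eq_one hN
  -- the averaging identity
  have key : ∑ a ∈ range N, (∑ l ∈ range N, c l * ((R : ℂ) * ζ ^ a) ^ l) * ζ ^ (a * (N - j))
      = N * (c j * (R : ℂ) ^ j) := by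
    have h1 : ∀ l ∈ range N, ∑ a ∈ range N, (c l * ((R : ℂ) * ζ ^ a) ^ l) * ζ ^ (a * (N - j))
        = if l = j then (N : ℂ) * (c j * (R : ℂ) ^ j) else 0 := by
      intro l hl
      rw [mem_range] at hl
      have h2 : ∀ a ∈ range N, (c l * ((R : ℂ) * ζ ^ a) ^ l) * ζ ^ (a * (N - j))
          = (c l * (R : ℂ) ^ l) * (ζ ^ (l + (N - j))) ^ a := by
        intro a _
        rw [mul_pow, ← pow_mul, ← pow_mul, mul_assoc, mul_assoc, mul_assoc, ← pow_add]
        congr 3
        ring
      rw [sum_congr rfl h2, ← mul_sum]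
      split_ifs with hlj
      · subst hlj
        have : ζ ^ (l + (N - l)) = 1 := by
          rw [Nat.add_sub_cancel' hl.le, hζ.pow_eq_one]
        simp [this]
        ring
      · have h3 : ζ ^ (l + (N - j)) ≠ 1 := by
          intro h4
          rw [hζ.pow_eq_one_iff_dvd] at h4
          obtain ⟨k, hk⟩ := h4
          have : k = 1 := by
            have h5 : 0 < N * k := by omega
            have h6 : N * k < N * 2 := by omega
            have h7 : k < 2 := Nat.lt_of_mul_lt_mul_left h6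
            have h8 : 0 < k := Nat.pos_of_mul_pos_left h5 |> fun h => by
              rcases Nat.eq_zero_or_pos k with h0 | h0
              · subst h0; simp at h5
              · exact h0
            omega
          subst this
          omega
        have h4 : (ζ ^ (l + (N - j))) ^ N = 1 := by
          rw [← pow_mul, mul_comm, pow_mul, hζ.pow_eq_one, one_pow]
        have h5 := geom_sum_eq h3 N
        rw [h5, h4]
        simp
    rw [← Finset.sum_congr rfl fun a _ => (Finset.sum_mul _ _ _).symm, Finset.sum_comm,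
      Finset.sum_congr rfl h1, Finset.sum_ite_eq']
    simp [hj]
  have h2 : ‖(N : ℂ) * (c j * (R : ℂ) ^ j)‖ ≤ N * M := by
    rw [← key]
    calc ‖∑ a ∈ range N, (∑ l ∈ range N, c l * ((R : ℂ) * ζ ^ a) ^ l) * ζ ^ (a * (N - j))‖
        ≤ ∑ a ∈ range N, ‖(∑ l ∈ range N, c l * ((R : ℂ) * ζ ^ a) ^ l) * ζ ^ (a * (N - j))‖ :=
          norm_sum_le _ _
      _ ≤ ∑ a ∈ range N, M := by
          refine sum_le_sum fun a _ => ?_
          rw [norm_mul, norm_pow, hζn, one_pow, mul_one]
          refine h _ ?_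
          rw [norm_mul, norm_pow, hζn, one_pow, mul_one, Complex.norm_real, Real.norm_eq_abs,
            abs_of_pos hR]
      _ = N * M := by simp
  rw [norm_mul, norm_mul, norm_pow, Complex.norm_real, Real.norm_eq_abs, abs_of_pos hR,
    Complex.norm_natCast] at h2
  exact le_of_mul_le_mul_left h2 hNpos

end Pool.Agent.H49.Mont
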