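import Mathlib
import Pool.Agent.H49.Mont1

namespace Pool.Agent.H49.Mont

open Filter Finset

theorem eval_formula_box {P : MvPolynomial (Fin 2) ℂ} {n : ℕ} (hP : P.totalDegree ≤ n)
    (z : Fin 2 → ℂ) :
    MvPolynomial.eval z P = ∑ l ∈ range (n + 1),
      (∑ m ∈ range (n + 1), P.coeff (mon (l, m)) * z 1 ^ m) * z 0 ^ l := by
  rw [eval_formula hP]
  have h1 : ∑ r ∈ T n, P.coeff (mon r) * (z 0 ^ r.1 * z 1 ^ r.2)
      = ∑ r ∈ range (n + 1) ×ˢ range (n + 1), P.coeff (mon r) * (z 0 ^ r.1 * z 1 ^ r.2) := by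
    refine Finset.sum_subset ?_ ?_
    · intro r hr
      rw [mem_T] at hr
      simp only [mem_product, mem_range]
      omega
    · intro r _ hr
      rw [mem_T, not_le] at hr
      rw [coeff_eq_zero_of_lt hP hr, zero_mul]
  rw [h1, Finset.sum_product]
  refine Finset.sum_congr rfl fun l _ => ?_
  rw [Finset.sum_mul]
  refine Finset.sum_congr rfl fun m _ => ?_
  ring

/-- two-variable Cauchy estimate -/
theorem cauchy_two {P : MvPolynomial (Fin 2) ℂ} {n : ℕ} (hP : P.totalDegree ≤ n) {R M : ℝ}
    (hR : 0 < R) (h : ∀ z : Fin 2 → ℂ, ‖z 0‖ = R → ‖z 1‖ = R → ‖MvPolynomial.eval z P‖ ≤ M)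
    {p : ℕ × ℕ} (hp : p.1 + p.2 ≤ n) : ‖P.coeff (mon p)‖ * R ^ (p.1 + p.2) ≤ M := by
  have h1 : ∀ w : ℂ, ‖w‖ = R →
      ‖∑ m ∈ range (n + 1), P.coeff (mon (p.1, m)) * w ^ m‖ ≤ M / R ^ p.1 := by
    intro w hw
    rw [le_div_iff₀ (by positivity)]
    refine cauchy_one (n + 1) (fun l => ∑ m ∈ range (n + 1), P.coeff (mon (l, m)) * w ^ m) hR ?_
      (by omega)
    intro x hx
    have := h ![x, w] (by simpa using hx) (by simpa using hw)
    rw [eval_formula_box hP] at this
    simpa using this
  have h2 := cauchy_one (n + 1) (fun m => P.coeff (mon (p.1, m))) hR h1 (j := p.2) (by omega)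
  rw [le_div_iff₀ (by positivity)] at h2
  calc ‖P.coeff (mon p)‖ * R ^ (p.1 + p.2) = ‖P.coeff (mon (p.1, p.2))‖ * R ^ p.2 * R ^ p.1 := by
        rw [pow_add]; ring
    _ ≤ M := h2

/-- Existence of rational approximants, by counting coefficients. -/
theorem exists_approximant (n ν : ℕ) (f : MvPowerSeries (Fin 2) ℂ) (S : Finset (ℕ × ℕ))
    (hS : IsInterpolationSet n ν S) : ∃ P Q, IsApproximant n ν f S P Q := by
  classical
  obtain ⟨hcard, hsub, -⟩ := hS
  have hTS : T n ⊆ S := fun p hp => hsub p (mem_T.mp hp)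
  have hA : (S \ T n).card < (T ν).card := by
    rw [card_sdiff_of_subset hTS, hcard, card_T, card_T]
    have : 1 ≤ (ν + 1) * (ν + 2) / 2 := by
      rw [Nat.one_le_div_iff (by norm_num)]
      nlinarith
    omega
  -- the linear system
  let L : (↥(T ν) → ℂ) →ₗ[ℂ] (↥(S \ T n) → ℂ) :=
    { toFun := fun q p => ∑ r : ↥(T ν),
        if r.1.1 ≤ p.1.1 ∧ r.1.2 ≤ p.1.2 then
          q r * MvPowerSeries.coeff (mon (p.1.1 - r.1.1, p.1.2 - r.1.2)) f else 0
      map_add' := by
        intro q q'
        funext p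
        simp only [Pi.add_apply]
        rw [← Finset.sum_add_distrib]
        refine Finset.sum_congr rfl fun r _ => ?_
        split_ifs <;> ring
      map_smul' := by
        intro c q
        funext p
        simp only [Pi.smul_apply, smul_eq_mul, RingHom.id_apply]
        rw [Finset.mul_sum]
        refine Finset.sum_congr rfl fun r _ => ?_
        split_ifs <;> ring }
  have hfr : Module.finrank ℂ (↥(S \ T n) → ℂ)
      < Module.finrank ℂ (↥(T ν) → ℂ) := by
    rw [Module.finrank_fintype_fun_eq_card, Module.finrank_fintype_fun_eq_card,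
      Fintype.card_coe, Fintype.card_coe]
    exact hA
  obtain ⟨q, hqmem, hq0⟩ : ∃ q ∈ LinearMap.ker L, q ≠ 0 := by
    have := LinearMap.ker_ne_bot_of_finrank_lt (f := L) hfr
    exact (Submodule.ne_bot_iff _).mp this
  rw [LinearMap.mem_ker] at hqmem
  let q' : ℕ × ℕ → ℂ := fun r => if h : r ∈ T ν then q ⟨r, h⟩ else 0
  let Q : MvPolynomial (Fin 2) ℂ := ∑ r ∈ T ν, MvPolynomial.monomial (mon r) (q' r)
  have hQdeg : Q.totalDegree ≤ ν := by
    refine MvPolynomial.totalDegree_finsetSum_le fun r hr => ?_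
    refine (MvPolynomial.totalDegree_monomial_le _ _).trans ?_
    rw [Function.id_def, degree_mon]
    exact mem_T.mp hr
  have hQcoeff : ∀ r ∈ T ν, Q.coeff (mon r) = q' r := by
    intro r hr
    simp only [Q, MvPolynomial.coeff_sum, MvPolynomial.coeff_monomial, mon_injective.eq_iff]
    rw [Finset.sum_ite_eq']
    simp [hr]
  let φ : MvPowerSeries (Fin 2) ℂ := (Q : MvPowerSeries (Fin 2) ℂ) * f
  let P : MvPolynomial (Fin 2) ℂ :=
    ∑ p ∈ T n, MvPolynomial.monomial (mon p) (MvPowerSeries.coeff (mon p) φ)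
  have hPdeg : P.totalDegree ≤ n := by
    refine MvPolynomial.totalDegree_finsetSum_le fun r hr => ?_
    refine (MvPolynomial.totalDegree_monomial_le _ _).trans ?_
    rw [Function.id_def, degree_mon]
    exact mem_T.mp hr
  have hPcoeff : ∀ p, P.coeff (mon p) = if p ∈ T n then MvPowerSeries.coeff (mon p) φ else 0 := by
    intro r
    simp only [P, MvPolynomial.coeff_sum, MvPolynomial.coeff_monomial, mon_injective.eq_iff]
    rw [Finset.sum_ite_eq']
  refine ⟨P, Q, hPdeg, hQdeg, ?_, ?_⟩
  · intro h0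
    apply hq0
    funext r
    have := hQcoeff r.1 r.2
    rw [h0] at this
    simp only [MvPolynomial.coeff_zero, q', r.2, dif_pos] at this
    exact this.symm
  · intro p hp
    rw [map_sub, MvPolynomial.coeff_coe, hPcoeff]
    split_ifs with hpT
    · simp [φ]
    · rw [sub_zero, coeff_mul_formula hQdeg]
      have h1 := congrFun hqmem ⟨p, mem_sdiff.mpr ⟨hp, hpT⟩⟩
      simp only [L, LinearMap.coe_mk, AddHom.coe_mk, Pi.zero_apply] at h1
      refine Eq.trans ?_ h1
      rw [← Finset.sum_coe_sort (T ν)]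
      refine Finset.sum_congr rfl fun r _ => ?_
      rw [hQcoeff r.1 r.2]
      simp [q']

/-- Interpolation sets exist. -/
theorem exists_interpolationSet (n ν : ℕ) : ∃ S, IsInterpolationSet n ν S := by
  classical
  set m := (ν + 1) * (ν + 2) / 2 - 1 with hm
  refine ⟨T n ∪ (range m).image fun i => (n + 1 + i, 0), ?_, ?_, ?_⟩
  · rw [card_union_of_disjoint, card_T, card_image_of_injective, card_range]
    · have : 1 ≤ (ν + 1) * (ν + 2) / 2 := by
        rw [Nat.one_le_div_iff (by norm_num)]
        nlinarith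
      omega
    · intro a b h
      have := (Prod.mk.inj h).1
      omega
    · rw [disjoint_left]
      intro x hx hx'
      rw [mem_T] at hx
      rw [mem_image] at hx'
      obtain ⟨i, -, rfl⟩ := hx'
      simp at hx
      omega
  · intro p hp
    exact mem_union_left _ (mem_T.mpr hp)
  · intro p hp q h1 h2
    rw [mem_union] at hp ⊢
    rcases hp with hp | hp
    · left
      rw [mem_T] at hp ⊢
      omega
    · rw [mem_image] at hp
      obtain ⟨i, hi, rfl⟩ := hp
      rw [mem_range] at hi
      simp only at h1 h2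
      by_cases h3 : q.1 ≤ n
      · left
        rw [mem_T]
        omega
      · right
        rw [mem_image]
        refine ⟨q.1 - (n + 1), ?_, ?_⟩
        · rw [mem_range]; omega
        · ext
          · simp; omega
          · simp; omega

end Pool.Agent.H49.Mont
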