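import Mathlib
import Pool.Agent.H49.Mont2

namespace Pool.Agent.H49.Mont

open Filter Finset

/-- inverse factorials -/
noncomputable def eta (k : ℕ) : ℝ := ((Nat.factorial k : ℕ) : ℝ)⁻¹

theorem eta_pos (k : ℕ) : 0 < eta k := by
  unfold eta
  have := Nat.factorial_pos k
  positivity

theorem eta_anti {j k : ℕ} (h : j ≤ k) : eta k ≤ eta j := by
  unfold eta
  have h1 : (0 : ℝ) < (Nat.factorial j : ℕ) := by exact_mod_cast Nat.factorial_pos j
  have h2 : ((Nat.factorial j : ℕ) : ℝ) ≤ (Nat.factorial k : ℕ) := by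
    exact_mod_cast Nat.factorial_le h
  exact inv_anti₀ h1 h2

/-- The power series of `1/(1 - z₁^a z₂) + ∑ z₁^j z₂^k/(j+k)!`. -/
noncomputable def fser (a : ℕ) : MvPowerSeries (Fin 2) ℂ := fun v =>
  (if v 0 = a * v 1 then 1 else 0) + ((eta (v 0 + v 1) : ℝ) : ℂ)

theorem coeff_fser (a : ℕ) (p : ℕ × ℕ) :
    MvPowerSeries.coeff (mon p) (fser a)
      = (if p.1 = a * p.2 then 1 else 0) + ((eta (p.1 + p.2) : ℝ) : ℂ) := by
  rw [MvPowerSeries.coeff_apply, fser]
  simp only [mon_zero, mon_one]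

/-- the denominator `1 - z₁^a z₂`. -/
noncomputable def Gpol (a : ℕ) : MvPolynomial (Fin 2) ℂ := 1 - MvPolynomial.monomial (mon (a, 1)) 1

theorem eval_Gpol (a : ℕ) (z : Fin 2 → ℂ) : MvPolynomial.eval z (Gpol a) = 1 - z 0 ^ a * z 1 := by
  rw [Gpol, map_sub, map_one, MvPolynomial.eval_monomial, Finsupp.prod_fintype _ _ (by simp)]
  simp [Fin.prod_univ_two, mon_zero, mon_one]

theorem totalDegree_Gpol (a : ℕ) : (Gpol a).totalDegree = a + 1 := by
  apply le_antisymm
  · rw [Gpol]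
    refine (MvPolynomial.totalDegree_sub _ _).trans ?_
    rw [MvPolynomial.totalDegree_one, MvPolynomial.totalDegree_monomial _ one_ne_zero]
    rw [degree_mon]
    simp
  · have h : mon (a, 1) ∈ (Gpol a).support := by
      rw [MvPolynomial.mem_support_iff, Gpol, MvPolynomial.coeff_sub,
        MvPolynomial.coeff_monomial, if_pos rfl, MvPolynomial.coeff_one, if_neg]
      · simp
      · intro h0
        have := congrArg (fun v => v 1) h0
        simp [mon_one] at this
    have := MvPolynomial.le_totalDegree h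
    rwa [degree_mon] at this

/-- The entire function `∑ z₁^j z₂^k/(j+k)!`. -/
noncomputable def Hfun (z : Fin 2 → ℂ) : ℂ :=
  ∑' p : ℕ × ℕ, ((eta (p.1 + p.2) : ℝ) : ℂ) * (z 0 ^ p.1 * z 1 ^ p.2)

theorem summable_real (x y : ℝ) (hx : 0 ≤ x) (hy : 0 ≤ y) :
    Summable fun p : ℕ × ℕ => eta (p.1 + p.2) * (x ^ p.1 * y ^ p.2) := by
  have h1 : Summable fun n : ℕ => x ^ n / (Nat.factorial n : ℕ) := Real.summable_pow_div_factorial x
  have h2 : Summable fun n : ℕ => y ^ n / (Nat.factorial n : ℕ) := Real.summable_pow_div_factorial y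
  have h3 := h1.mul_of_nonneg h2 (fun n => by positivity) (fun n => by positivity)
  refine Summable.of_nonneg_of_le (fun p => ?_) (fun p => ?_) h3
  · have := (eta_pos (p.1 + p.2)).le
    positivity
  · have h4 : eta (p.1 + p.2) ≤ ((Nat.factorial p.1 * Nat.factorial p.2 : ℕ) : ℝ)⁻¹ := by
      unfold eta
      refine inv_anti₀ ?_ ?_
      · have := Nat.factorial_pos p.1
        have := Nat.factorial_pos p.2
        positivity
      · have : Nat.factorial p.1 * Nat.factorial p.2 ≤ Nat.factorial (p.1 + p.2) :=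
          Nat.le_of_dvd (Nat.factorial_pos _) (Nat.factorial_mul_factorial_dvd_factorial_add _ _)
        exact_mod_cast this
    calc eta (p.1 + p.2) * (x ^ p.1 * y ^ p.2)
        ≤ ((Nat.factorial p.1 * Nat.factorial p.2 : ℕ) : ℝ)⁻¹ * (x ^ p.1 * y ^ p.2) := by
          gcongr
      _ = x ^ p.1 / (Nat.factorial p.1 : ℕ) * (y ^ p.2 / (Nat.factorial p.2 : ℕ)) := by
          push_cast
          rw [mul_inv]
          ring

theorem summable_H (z : Fin 2 → ℂ) :
    Summable fun p : ℕ × ℕ => ((eta (p.1 + p.2) : ℝ) : ℂ) * (z 0 ^ p.1 * z 1 ^ p.2) := by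
  refine Summable.of_norm ?_
  refine (summable_real ‖z 0‖ ‖z 1‖ (norm_nonneg _) (norm_nonneg _)).congr fun p => ?_
  rw [norm_mul, norm_mul, norm_pow, norm_pow, Complex.norm_real, Real.norm_eq_abs,
    abs_of_pos (eta_pos _)]

theorem norm_H_le (z : Fin 2 → ℂ) {R : ℝ} (h0 : ‖z 0‖ = R) (h1 : ‖z 1‖ = R) :
    ‖Hfun z‖ ≤ ∑' p : ℕ × ℕ, eta (p.1 + p.2) * (R ^ p.1 * R ^ p.2) := by
  have hR : 0 ≤ R := h0 ▸ norm_nonneg _
  refine tsum_of_norm_bounded (summable_real R R hR hR).hasSum fun p => ?_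
  rw [norm_mul, norm_mul, norm_pow, norm_pow, Complex.norm_real, Real.norm_eq_abs,
    abs_of_pos (eta_pos _), h0, h1]

/-- the numerator -/
noncomputable def Ffun (a : ℕ) (z : Fin 2 → ℂ) : ℂ := 1 + (1 - z 0 ^ a * z 1) * Hfun z

theorem coeff_G_mul (a : ℕ) (f : MvPowerSeries (Fin 2) ℂ) (p : ℕ × ℕ) :
    MvPowerSeries.coeff (mon p) ((Gpol a : MvPowerSeries (Fin 2) ℂ) * f)
      = MvPowerSeries.coeff (mon p) f
        - if a ≤ p.1 ∧ 1 ≤ p.2 then MvPowerSeries.coeff (mon (p.1 - a, p.2 - 1)) f else 0 := by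
  have h1 : (Gpol a : MvPowerSeries (Fin 2) ℂ) = 1 - MvPowerSeries.monomial (mon (a, 1)) (1 : ℂ) := by
    rw [Gpol, ← MvPolynomial.coeToMvPowerSeries.ringHom_apply, map_sub, map_one,
      MvPolynomial.coeToMvPowerSeries.ringHom_apply, MvPolynomial.coe_monomial]
  rw [h1, sub_mul, one_mul, map_sub, MvPowerSeries.coeff_monomial_mul]
  simp only [mon_le, mon_sub, one_mul]

theorem coeff_G_mul_fser (a : ℕ) (p : ℕ × ℕ) :
    MvPowerSeries.coeff (mon p) ((Gpol a : MvPowerSeries (Fin 2) ℂ) * fser a)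
      = (if p = (0, 0) then 1 else 0) + ((eta (p.1 + p.2) : ℝ) : ℂ)
        - if a ≤ p.1 ∧ 1 ≤ p.2 then ((eta (p.1 - a + (p.2 - 1)) : ℝ) : ℂ) else 0 := by
  rw [coeff_G_mul, coeff_fser, coeff_fser]
  obtain ⟨j, k⟩ := p
  simp only [Prod.mk.injEq]
  rcases Nat.eq_zero_or_pos k with rfl | hk
  · simp
  · obtain ⟨k, rfl⟩ : ∃ k', k = k' + 1 := ⟨k - 1, by omega⟩
    by_cases haj : a ≤ j
    · obtain ⟨j, rfl⟩ := Nat.exists_eq_add_of_le haj
      have h1 : a + j = a * (k + 1) ↔ j = a * k := by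
        constructor
        · intro h; rw [mul_add, mul_one] at h; omega
        · intro h; rw [h]; ring
      simp only [h1, le_add_iff_nonneg_right, zero_le, le_add_iff_nonneg_left, and_self,
        if_true, Nat.add_sub_cancel_left, Nat.add_sub_cancel, Nat.add_eq_zero_iff]
      simp
    · have h1 : ¬ (j = a * (k + 1)) := by
        intro h
        apply haj
        rw [h]
        exact Nat.le_mul_of_pos_right a (Nat.succ_pos k)
      simp [haj, h1]

theorem isEntire (a : ℕ) :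
    IsEntireWithSeries (Ffun a) ((Gpol a : MvPowerSeries (Fin 2) ℂ) * fser a) := by
  intro z
  have hH : HasSum (fun p : ℕ × ℕ => ((eta (p.1 + p.2) : ℝ) : ℂ) * (z 0 ^ p.1 * z 1 ^ p.2))
      (Hfun z) := (summable_H z).hasSum
  have h1 : HasSum (fun p : ℕ × ℕ => (if p = (0, 0) then (1 : ℂ) else 0)) 1 :=
    hasSum_ite_eq (0, 0) 1
  have h3 : HasSum (fun p : ℕ × ℕ => if a ≤ p.1 ∧ 1 ≤ p.2 then
      ((eta (p.1 - a + (p.2 - 1)) : ℝ) : ℂ) * (z 0 ^ p.1 * z 1 ^ p.2) else 0)
      (z 0 ^ a * z 1 * Hfun z) := by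
    have hinj : Function.Injective fun p : ℕ × ℕ => (p.1 + a, p.2 + 1) := by
      intro p q h
      obtain ⟨h1, h2⟩ := Prod.mk.inj h
      exact Prod.ext (by omega) (by omega)
    rw [← hinj.hasSum_iff]
    · have := hH.mul_left (z 0 ^ a * z 1)
      refine this.congr_fun fun p => ?_
      simp only [Function.comp_apply, le_add_iff_nonneg_left, zero_le, and_self, if_true,
        Nat.add_sub_cancel]
      ring
    · intro x hx
      rw [if_neg]
      rintro ⟨h1, h2⟩
      exact hx ⟨(x.1 - a, x.2 - 1), Prod.ext (by simp; omega) (by simp; omega)⟩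
  have h4 := (h1.add hH).sub h3
  have h5 : Ffun a z = 1 + Hfun z - z 0 ^ a * z 1 * Hfun z := by
    rw [Ffun]; ring
  rw [h5]
  refine h4.congr_fun fun p => ?_
  rw [coeff_G_mul_fser]
  by_cases hp : p = (0, 0)
  · subst hp; simp
  · simp only [hp, if_false, zero_add]
    split_ifs
    · ring
    · ring

end Pool.Agent.H49.Mont
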