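import Mathlib
import Pool.Agent.H49.Mont3

namespace Pool.Agent.H49.Mont

open Filter Finset

/-- the class of an exponent pair modulo multiples of `(a, 1)`. -/
def cls (a : ℕ) (p : ℕ × ℕ) : ℤ := (p.1 : ℤ) - a * p.2

theorem T_subset {n ν : ℕ} {S : Finset (ℕ × ℕ)} (hS : IsInterpolationSet n ν S) : T n ⊆ S :=
  fun p hp => hS.2.1 p (mem_T.mp hp)

theorem card_sdiff_T {n ν : ℕ} {S : Finset (ℕ × ℕ)} (hS : IsInterpolationSet n ν S) :
    (S \ T n).card + 1 = (T ν).card := by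
  rw [card_sdiff_of_subset (T_subset hS), hS.1, card_T, card_T]
  have : 1 ≤ (ν + 1) * (ν + 2) / 2 := by
    rw [Nat.one_le_div_iff (by norm_num)]
    nlinarith
  omega

theorem level_le {n ν : ℕ} {S : Finset (ℕ × ℕ)} (hS : IsInterpolationSet n ν S) {p : ℕ × ℕ}
    (hp : p ∈ S) : p.1 + p.2 ≤ n + (T ν).card := by
  have h1 : ((range (p.1 + p.2 - n)).image fun i => (p.1 - i, p.2 - (i - p.1))) ⊆ S \ T n := by
    intro q hq
    rw [mem_image] at hq
    obtain ⟨i, hi, rfl⟩ := hq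
    rw [mem_range] at hi
    rw [Finset.mem_sdiff, mem_T]
    refine ⟨hS.2.2 p hp _ (by simp) (by simp), ?_⟩
    simp only
    omega
  have h2 := card_le_card h1
  rw [card_image_of_injOn, card_range] at h2
  · have := card_sdiff_T hS
    omega
  · intro i hi j hj hij
    rw [coe_range, Set.mem_Iio] at hi hj
    have h1 := (Prod.mk.inj hij).1
    have h2 := (Prod.mk.inj hij).2
    omega

theorem pigeon {a n : ℕ} (ha : 1 ≤ a) {S : Finset (ℕ × ℕ)} (hS : IsInterpolationSet n (a + 1) S)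
    {t : ℕ} (ht : 1 ≤ t) (hn : n = (a + 1) * t) :
    (∃ p ∈ S, n < p.1 + p.2 ∧ ∀ r ∈ T (a + 1), cls a r ≠ cls a p) ∨
    (∃ p ∈ S, ∃ p' ∈ S, n < p.1 + p.2 ∧ n < p'.1 + p'.2 ∧ cls a p = cls a p' ∧ p.2 < p'.2 ∧
      ∃ r ∈ T (a + 1), cls a r = cls a p) := by
  classical
  by_contra hcon
  push Not at hcon
  obtain ⟨h1, h2⟩ := hcon
  have hinj : Set.InjOn (cls a) (S \ T n : Finset (ℕ × ℕ)) := by
    intro p hp p' hp' hpp
    rw [mem_coe, Finset.mem_sdiff, mem_T, not_le] at hp hp'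
    obtain ⟨r, hr, hrp⟩ := h1 p hp.1 hp.2
    have h3 : ¬ p.2 < p'.2 := fun hlt => h2 p hp.1 p' hp'.1 hp.2 hp'.2 hpp hlt r hr hrp
    have h4 : ¬ p'.2 < p.2 := fun hlt =>
      h2 p' hp'.1 p hp.1 hp'.2 hp.2 hpp.symm hlt r hr (hrp.trans hpp)
    have h5 : p.2 = p'.2 := by omega
    have h6 : p.1 = p'.1 := by
      simp only [cls, h5] at hpp
      omega
    exact Prod.ext h6 h5
  -- the set of classes
  have hT00 : ((0, 0) : ℕ × ℕ) ∈ T (a + 1) := by rw [mem_T]; simp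
  have hsub : (S \ T n).image (cls a) ⊆ (T (a + 1) \ {(0, 0)}).image (cls a) := by
    intro d hd
    rw [mem_image] at hd
    obtain ⟨p, hp, rfl⟩ := hd
    rw [Finset.mem_sdiff, mem_T, not_le] at hp
    obtain ⟨r, hr, hrp⟩ := h1 p hp.1 hp.2
    rw [mem_image]
    by_cases hr0 : r = (0, 0)
    · refine ⟨(a, 1), ?_, ?_⟩
      · rw [Finset.mem_sdiff, mem_T, mem_singleton]
        refine ⟨le_rfl, ?_⟩
        simp
      · rw [← hrp, hr0]
        simp [cls]
    · exact ⟨r, by rw [Finset.mem_sdiff, mem_singleton]; exact ⟨hr, hr0⟩, hrp⟩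
  have hcard : ((T (a + 1) \ {(0, 0)}).image (cls a)).card ≤ ((S \ T n).image (cls a)).card := by
    rw [card_image_of_injOn hinj]
    refine card_image_le.trans ?_
    rw [card_sdiff_of_subset (singleton_subset_iff.mpr hT00), card_singleton]
    have := card_sdiff_T hS
    omega
  have heq := eq_of_subset_of_card_le hsub hcard
  have hmem : ((a : ℤ) + 1) ∈ (S \ T n).image (cls a) := by
    rw [heq, mem_image]
    refine ⟨(a + 1, 0), ?_, ?_⟩
    · rw [Finset.mem_sdiff, mem_T, mem_singleton]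
      simp
    · simp [cls]
  rw [mem_image] at hmem
  obtain ⟨p, hp, hpc⟩ := hmem
  rw [Finset.mem_sdiff, mem_T, not_le] at hp
  obtain ⟨hpS, hpn⟩ := hp
  have hp1 : p.1 = a + 1 + a * p.2 := by
    simp only [cls] at hpc
    zify
    linarith
  have hlev : p.1 + p.2 = (a + 1) * (p.2 + 1) := by rw [hp1]; ring
  have hpt : t < p.2 + 1 := by
    rw [hlev, hn] at hpn
    exact Nat.lt_of_mul_lt_mul_left hpn
  have hlev2 : (a + 1) * (t + 1) ≤ (a + 1) * (p.2 + 1) := Nat.mul_le_mul_left _ hpt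
  obtain ⟨r, hr, hrq⟩ := h1 (p.1, p.2 - 1) (hS.2.2 p hpS _ le_rfl (Nat.sub_le _ _)) (by
    simp only
    rw [mul_add, ← hn] at hlev2
    omega)
  rw [mem_T] at hr
  simp only [cls] at hrq
  have h3 : ((p.2 - 1 : ℕ) : ℤ) = (p.2 : ℤ) - 1 := by
    rw [Nat.cast_sub (by omega)]; simp
  rw [h3, hp1] at hrq
  push_cast at hrq
  have h4 : (0 : ℤ) ≤ a * r.2 := by positivity
  have h5 : (r.1 : ℤ) = 2 * a + 1 + a * r.2 := by linarith
  have h6 : (r.1 : ℤ) ≤ a + 1 := by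
    have : r.1 ≤ a + 1 := by omega
    exact_mod_cast this
  have h7 : (1 : ℤ) ≤ a := by exact_mod_cast ha
  linarith

end Pool.Agent.H49.Mont
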