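import Mathlib
import Pool.Agent.H49.Mont4

namespace Pool.Agent.H49.Mont

open Filter Finset

/-- contribution of the entire part -/
noncomputable def W (a : ℕ) (c : ℕ × ℕ → ℂ) (p : ℕ × ℕ) : ℂ :=
  ∑ r ∈ T (a + 1), if r.1 ≤ p.1 ∧ r.2 ≤ p.2 then
    c r * ((eta (p.1 + p.2 - (r.1 + r.2)) : ℝ) : ℂ) else 0

/-- contribution of the polar part -/
noncomputable def gcl (a : ℕ) (c : ℕ × ℕ → ℂ) (d : ℤ) : ℂ :=
  ∑ r ∈ T (a + 1), if cls a r = d then c r else 0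

theorem cls_iff {a : ℕ} {r p : ℕ × ℕ} (hr : r ∈ T (a + 1)) (hp : a + 1 ≤ p.1 + p.2) :
    cls a r = cls a p ↔ (r.1 ≤ p.1 ∧ r.2 ≤ p.2) ∧ p.1 - r.1 = a * (p.2 - r.2) := by
  rw [mem_T] at hr
  constructor
  · intro h
    simp only [cls] at h
    have h1 : (p.1 : ℤ) - r.1 = a * (p.2 - r.2) := by linarith
    have h2 : (0 : ℤ) ≤ (a + 1) * (p.2 - r.2) := by
      have : (r.1 : ℤ) + r.2 ≤ p.1 + p.2 := by exact_mod_cast hr.trans hp
      nlinarith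
    have h3 : (0 : ℤ) ≤ p.2 - r.2 := by
      by_contra hneg
      push Not at hneg
      have : ((a : ℤ) + 1) * (p.2 - r.2) < 0 := mul_neg_of_pos_of_neg (by positivity) hneg
      linarith
    have h4 : (0 : ℤ) ≤ p.1 - r.1 := by
      rw [h1]; positivity
    have h5 : r.2 ≤ p.2 := by omega
    have h6 : r.1 ≤ p.1 := by omega
    refine ⟨⟨h6, h5⟩, ?_⟩
    zify [h5, h6]
    exact h1
  · rintro ⟨⟨h6, h5⟩, h⟩
    simp only [cls]
    zify [h5, h6] at h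
    linarith

theorem coeff_formula {a : ℕ} {Q : MvPolynomial (Fin 2) ℂ} (hQ : Q.totalDegree ≤ a + 1)
    {p : ℕ × ℕ} (hp : a + 1 ≤ p.1 + p.2) :
    MvPowerSeries.coeff (mon p) ((Q : MvPowerSeries (Fin 2) ℂ) * fser a)
      = gcl a (fun r => Q.coeff (mon r)) (cls a p) + W a (fun r => Q.coeff (mon r)) p := by
  rw [coeff_mul_formula hQ, gcl, W, ← Finset.sum_add_distrib]
  refine Finset.sum_congr rfl fun r hr => ?_
  rw [coeff_fser]
  have h1 := cls_iff hr hp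
  by_cases hle : r.1 ≤ p.1 ∧ r.2 ≤ p.2
  · have h2 : p.1 - r.1 + (p.2 - r.2) = p.1 + p.2 - (r.1 + r.2) := by omega
    simp only [hle, and_self, true_and, if_true] at h1 ⊢
    rw [h2]
    by_cases h3 : p.1 - r.1 = a * (p.2 - r.2)
    · rw [if_pos h3, if_pos (h1.mpr h3)]; ring
    · rw [if_neg h3, if_neg (fun h => h3 (h1.mp h))]; ring
  · rw [if_neg hle, if_neg hle, if_neg (fun h => hle (h1.mp h).1), add_zero]

theorem cls_inj {a : ℕ} {r r0 : ℕ × ℕ} (hr0 : r0 ∈ T (a + 1))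
    (h : cls a r = cls a r0) (hlt : r.2 < r0.2) : r = (0, 0) ∧ r0 = (a, 1) := by
  rw [mem_T] at hr0
  simp only [cls] at h
  have h1 : (r0.1 : ℤ) - r.1 = a * (r0.2 - r.2) := by linarith
  have h2 : (1 : ℤ) ≤ r0.2 - r.2 := by omega
  have h3 : (a : ℤ) ≤ r0.1 - r.1 := by
    rw [h1]
    nlinarith
  have h4 : r0.1 = a := by omega
  have h5 : r0.2 = 1 := by omega
  have h6 : r.1 = 0 := by omega
  have h7 : r.2 = 0 := by omega
  exact ⟨Prod.ext h6 h7, Prod.ext h4 h5⟩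

theorem cls_inj' {a : ℕ} {r r0 : ℕ × ℕ} (hr : r ∈ T (a + 1)) (hr0 : r0 ∈ T (a + 1))
    (h : cls a r = cls a r0) : r = r0 ∨ (r = (0, 0) ∧ r0 = (a, 1)) ∨ (r = (a, 1) ∧ r0 = (0, 0)) := by
  rcases lt_trichotomy r.2 r0.2 with hlt | heq | hgt
  · exact Or.inr (Or.inl (cls_inj hr0 h hlt))
  · left
    simp only [cls, heq] at h
    exact Prod.ext (by omega) heq
  · right; right
    have := cls_inj hr h.symm hgt
    exact ⟨this.2, this.1⟩

theorem gcl_single {a : ℕ} {c : ℕ × ℕ → ℂ} {r0 : ℕ × ℕ} (hr0 : r0 ∈ T (a + 1)) (h0 : r0 ≠ (0, 0))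
    (h1 : r0 ≠ (a, 1)) : gcl a c (cls a r0) = c r0 := by
  rw [gcl, Finset.sum_eq_single r0]
  · simp
  · intro r hr hne
    rw [if_neg]
    intro h
    rcases cls_inj' hr hr0 h with h | h | h
    · exact hne h
    · exact h1 h.2
    · exact h0 h.2
  · intro h; exact absurd hr0 h

theorem gcl_special {a : ℕ} {c : ℕ × ℕ → ℂ} :
    gcl a c (cls a (a, 1)) = c (0, 0) + c (a, 1) := by
  have hm0 : ((0, 0) : ℕ × ℕ) ∈ T (a + 1) := by rw [mem_T]; simp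
  have hm1 : ((a, 1) : ℕ × ℕ) ∈ T (a + 1) := by rw [mem_T]
  rw [gcl, Finset.sum_eq_add_of_mem (0, 0) (a, 1) hm0 hm1 (by simp)]
  · simp [cls]
  · rintro r hr ⟨hne0, hne1⟩
    rw [if_neg]
    intro h
    rcases cls_inj' hr hm1 h with h | h | h
    · exact hne1 h
    · exact hne0 h.1
    · exact hne1 h.1

/-- the sign pattern of `1 - z₁^a z₂` -/
def chi (a : ℕ) (r : ℕ × ℕ) : ℝ := if r = (0, 0) then 1 else if r = (a, 1) then -1 else 0

theorem err_le {a : ℕ} {c : ℕ × ℕ → ℂ} {e : ℝ} (he : 0 ≤ e)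
    (h : ∀ r ∈ T (a + 1), r ≠ (0, 0) → ‖gcl a c (cls a r)‖ ≤ e) {r : ℕ × ℕ} (hr : r ∈ T (a + 1)) :
    ‖c r - c (0, 0) * (chi a r : ℂ)‖ ≤ e := by
  by_cases h0 : r = (0, 0)
  · subst h0
    simpa [chi] using he
  · by_cases h1 : r = (a, 1)
    · subst h1
      have := h _ hr h0
      rw [gcl_special] at this
      simp only [chi, h0, if_false, if_true]
      push_cast
      rw [mul_neg, mul_one, sub_neg_eq_add, add_comm]
      exact this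
    · have := h _ hr h0
      rw [gcl_single hr h0 h1] at this
      simpa [chi, h0, h1] using this

theorem W_approx {a : ℕ} {c : ℕ × ℕ → ℂ} {e : ℝ} (he : 0 ≤ e)
    (h : ∀ r ∈ T (a + 1), r ≠ (0, 0) → ‖gcl a c (cls a r)‖ ≤ e) {p : ℕ × ℕ} :
    ‖W a c p - c (0, 0) * ((eta (p.1 + p.2) -
        (if a ≤ p.1 ∧ 1 ≤ p.2 then eta (p.1 + p.2 - (a + 1)) else 0) : ℝ) : ℂ)‖
      ≤ (T (a + 1)).card * (e * eta (p.1 + p.2 - (a + 1))) := by
  have hm0 : ((0, 0) : ℕ × ℕ) ∈ T (a + 1) := by rw [mem_T]; simp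
  have hm1 : ((a, 1) : ℕ × ℕ) ∈ T (a + 1) := by rw [mem_T]
  have h1 : ((eta (p.1 + p.2) -
        (if a ≤ p.1 ∧ 1 ≤ p.2 then eta (p.1 + p.2 - (a + 1)) else 0) : ℝ) : ℂ)
      = ∑ r ∈ T (a + 1), if r.1 ≤ p.1 ∧ r.2 ≤ p.2 then
          (chi a r : ℂ) * ((eta (p.1 + p.2 - (r.1 + r.2)) : ℝ) : ℂ) else 0 := by
    have hc0 : chi a (0, 0) = 1 := by simp [chi]
    have hc1 : chi a (a, 1) = -1 := by simp [chi]
    rw [Finset.sum_eq_add_of_mem (0, 0) (a, 1) hm0 hm1 (by simp)]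
    · simp only [hc0, hc1, Nat.zero_le, and_self, if_true, Nat.add_zero, Nat.sub_zero]
      by_cases h2 : a ≤ p.1 ∧ 1 ≤ p.2
      · rw [if_pos h2, if_pos h2]
        push_cast
        ring
      · rw [if_neg h2, if_neg h2]
        push_cast
        ring
    · rintro r hr ⟨hne0, hne1⟩
      simp [chi, hne0, hne1]
  rw [h1, W, Finset.mul_sum, ← Finset.sum_sub_distrib]
  refine (norm_sum_le _ _).trans ?_
  rw [← nsmul_eq_mul]
  refine Finset.sum_le_card_nsmul _ _ _ fun r hr => ?_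
  have hr' := mem_T.mp hr
  split_ifs with h2
  · have h3 : c r * ((eta (p.1 + p.2 - (r.1 + r.2)) : ℝ) : ℂ) -
        c (0, 0) * ((chi a r : ℂ) * ((eta (p.1 + p.2 - (r.1 + r.2)) : ℝ) : ℂ))
        = (c r - c (0, 0) * (chi a r : ℂ)) * ((eta (p.1 + p.2 - (r.1 + r.2)) : ℝ) : ℂ) := by ring
    rw [h3, norm_mul, Complex.norm_real, Real.norm_eq_abs, abs_of_pos (eta_pos _)]
    gcongr
    · exact (eta_pos _).le
    · exact err_le he h hr
    · exact eta_anti (by omega)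
  · simp only [mul_zero, sub_zero, norm_zero]
    have := (eta_pos (p.1 + p.2 - (a + 1))).le
    positivity

theorem c00_large {a : ℕ} {c : ℕ × ℕ → ℂ} {s τ : ℝ} (hs : s = ∑ r ∈ T (a + 1), ‖c r‖)
    (hs0 : 0 < s) (hτ : 0 ≤ τ) (hτN : (T (a + 1)).card * τ ≤ 1 / 2)
    (h : ∀ r ∈ T (a + 1), r ≠ (0, 0) → ‖gcl a c (cls a r)‖ ≤ τ * s) : s / 4 ≤ ‖c (0, 0)‖ := by
  have hm0 : ((0, 0) : ℕ × ℕ) ∈ T (a + 1) := by rw [mem_T]; simp
  have hm1 : ((a, 1) : ℕ × ℕ) ∈ T (a + 1) := by rw [mem_T]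
  have h1 : ∀ r ∈ T (a + 1), ‖c r‖ ≤ ‖c (0, 0)‖ * |chi a r| + τ * s := by
    intro r hr
    have h2 := err_le (by positivity) h hr
    have h3 : c r = c (0, 0) * (chi a r : ℂ) + (c r - c (0, 0) * (chi a r : ℂ)) := by ring
    calc ‖c r‖ ≤ ‖c (0, 0) * (chi a r : ℂ)‖ + ‖c r - c (0, 0) * (chi a r : ℂ)‖ := by
          conv_lhs => rw [h3]
          exact norm_add_le _ _
      _ ≤ ‖c (0, 0)‖ * |chi a r| + τ * s := by
          rw [norm_mul, Complex.norm_real, Real.norm_eq_abs]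
          linarith
  have h2 : ∑ r ∈ T (a + 1), |chi a r| = 2 := by
    rw [Finset.sum_eq_add_of_mem (0, 0) (a, 1) hm0 hm1 (by simp)]
    · simp [chi]; norm_num
    · rintro r hr ⟨hne0, hne1⟩
      simp [chi, hne0, hne1]
  have h3 : s ≤ ‖c (0, 0)‖ * 2 + (T (a + 1)).card * (τ * s) := by
    calc s = ∑ r ∈ T (a + 1), ‖c r‖ := hs
      _ ≤ ∑ r ∈ T (a + 1), (‖c (0, 0)‖ * |chi a r| + τ * s) := Finset.sum_le_sum h1
      _ = ‖c (0, 0)‖ * 2 + (T (a + 1)).card * (τ * s) := by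
          rw [Finset.sum_add_distrib, ← Finset.mul_sum, h2, Finset.sum_const, nsmul_eq_mul]
  have h4 : (T (a + 1)).card * (τ * s) ≤ s / 2 := by
    calc ((T (a + 1)).card : ℝ) * (τ * s) = ((T (a + 1)).card * τ) * s := by ring
      _ ≤ 1 / 2 * s := by gcongr
      _ = s / 2 := by ring
  linarith

theorem eta_ratio {a d : ℕ} (hd : 3 ≤ d) : 3 * eta d ≤ eta (d - (a + 1)) := by
  have h1 : eta (d - 1) ≤ eta (d - (a + 1)) := eta_anti (by omega)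
  refine le_trans ?_ h1
  obtain ⟨k, rfl⟩ : ∃ k, d = k + 1 := ⟨d - 1, by omega⟩
  rw [Nat.add_sub_cancel]
  unfold eta
  rw [Nat.factorial_succ]
  push_cast
  have h2 : (0 : ℝ) < (Nat.factorial k : ℕ) := by exact_mod_cast Nat.factorial_pos k
  have h3 : (3 : ℝ) ≤ k + 1 := by exact_mod_cast hd
  rw [mul_inv, ← mul_assoc]
  have h4 : 3 * ((k : ℝ) + 1)⁻¹ ≤ 1 := by
    rw [← div_eq_mul_inv, div_le_one (by positivity)]
    exact h3
  calc 3 * ((k : ℝ) + 1)⁻¹ * ((Nat.factorial k : ℕ) : ℝ)⁻¹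
      ≤ 1 * ((Nat.factorial k : ℕ) : ℝ)⁻¹ := by gcongr
    _ = ((Nat.factorial k : ℕ) : ℝ)⁻¹ := one_mul _

/-- Case 1 is impossible. -/
theorem case_one {a : ℕ} {c : ℕ × ℕ → ℂ} {s τ : ℝ} (hs : s = ∑ r ∈ T (a + 1), ‖c r‖)
    (hs0 : 0 < s) (hτ : 0 ≤ τ) (hτN : (T (a + 1)).card * τ ≤ 1 / 2)
    (h : ∀ r ∈ T (a + 1), r ≠ (0, 0) → ‖gcl a c (cls a r)‖ ≤ τ * s) {p : ℕ × ℕ}
    (hd : 3 ≤ p.1 + p.2)
    (hE : 16 * ((T (a + 1)).card * τ) * eta (p.1 + p.2 - (a + 1)) ≤ eta (p.1 + p.2)) :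
    W a c p ≠ 0 := by
  intro hW
  have h1 := W_approx (p := p) (by positivity) h
  rw [hW, zero_sub, norm_neg, norm_mul, Complex.norm_real, Real.norm_eq_abs] at h1
  have h2 := c00_large hs hs0 hτ hτN h
  have h3 := eta_ratio (a := a) hd
  have h4 := eta_pos (p.1 + p.2)
  have h5 : eta (p.1 + p.2) ≤ |eta (p.1 + p.2) -
      (if a ≤ p.1 ∧ 1 ≤ p.2 then eta (p.1 + p.2 - (a + 1)) else 0)| := by
    split_ifs
    · rw [abs_sub_comm, abs_of_pos (by linarith)]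
      linarith
    · rw [sub_zero, abs_of_pos h4]
  have h6 : s / 4 * eta (p.1 + p.2) ≤ s / 16 * eta (p.1 + p.2) := by
    calc s / 4 * eta (p.1 + p.2) ≤ ‖c (0, 0)‖ * |eta (p.1 + p.2) -
        (if a ≤ p.1 ∧ 1 ≤ p.2 then eta (p.1 + p.2 - (a + 1)) else 0)| := by gcongr
      _ ≤ (T (a + 1)).card * (τ * s * eta (p.1 + p.2 - (a + 1))) := h1
      _ = s / 16 * (16 * ((T (a + 1)).card * τ) * eta (p.1 + p.2 - (a + 1))) := by ring
      _ ≤ s / 16 * eta (p.1 + p.2) := by gcongr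
  have h7 : 0 < s * eta (p.1 + p.2) := by positivity
  linarith

/-- Case 2 is impossible. -/
theorem case_two {a : ℕ} {c : ℕ × ℕ → ℂ} {s τ : ℝ} (hs : s = ∑ r ∈ T (a + 1), ‖c r‖)
    (hs0 : 0 < s) (hτ : 0 ≤ τ) (hτN : (T (a + 1)).card * τ ≤ 1 / 2)
    (h : ∀ r ∈ T (a + 1), r ≠ (0, 0) → ‖gcl a c (cls a r)‖ ≤ τ * s) {p p' : ℕ × ℕ}
    (hd : 3 ≤ p.1 + p.2) (hp : a ≤ p.1 ∧ 1 ≤ p.2) (hp' : a ≤ p'.1 ∧ 1 ≤ p'.2)
    (hpp : p.1 + p.2 + (a + 1) ≤ p'.1 + p'.2)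
    (hE : 16 * ((T (a + 1)).card * τ) * eta (p.1 + p.2 - (a + 1)) ≤ eta (p.1 + p.2)) :
    W a c p ≠ W a c p' := by
  intro hW
  have h1 := W_approx (p := p) (by positivity) h
  have h1' := W_approx (p := p') (by positivity) h
  rw [if_pos hp] at h1
  rw [if_pos hp'] at h1'
  have h2 := c00_large hs hs0 hτ hτN h
  have h3 := eta_ratio (a := a) hd
  have h4 := eta_pos (p.1 + p.2)
  have h4' := eta_pos (p'.1 + p'.2)
  have h5 : eta (p'.1 + p'.2 - (a + 1)) ≤ eta (p.1 + p.2) := eta_anti (by omega)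
  have h6 : c (0, 0) * ((eta (p'.1 + p'.2) - eta (p'.1 + p'.2 - (a + 1)) : ℝ) : ℂ)
      - c (0, 0) * ((eta (p.1 + p.2) - eta (p.1 + p.2 - (a + 1)) : ℝ) : ℂ)
      = (W a c p - c (0, 0) * ((eta (p.1 + p.2) - eta (p.1 + p.2 - (a + 1)) : ℝ) : ℂ))
        - (W a c p' - c (0, 0) * ((eta (p'.1 + p'.2) - eta (p'.1 + p'.2 - (a + 1)) : ℝ) : ℂ)) := by
    rw [hW]; ring
  have h7 : ‖c (0, 0) * ((eta (p'.1 + p'.2) - eta (p'.1 + p'.2 - (a + 1)) : ℝ) : ℂ)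
      - c (0, 0) * ((eta (p.1 + p.2) - eta (p.1 + p.2 - (a + 1)) : ℝ) : ℂ)‖
      ≤ (T (a + 1)).card * (τ * s * eta (p.1 + p.2 - (a + 1)))
        + (T (a + 1)).card * (τ * s * eta (p'.1 + p'.2 - (a + 1))) := by
    rw [h6]
    exact (norm_sub_le _ _).trans (add_le_add h1 h1')
  rw [← mul_sub, norm_mul, ← Complex.ofReal_sub, Complex.norm_real, Real.norm_eq_abs] at h7
  have h8 : eta (p.1 + p.2) ≤ |eta (p'.1 + p'.2) - eta (p'.1 + p'.2 - (a + 1)) -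
      (eta (p.1 + p.2) - eta (p.1 + p.2 - (a + 1)))| := by
    refine le_trans ?_ (le_abs_self _)
    linarith
  have h9 : s / 4 * eta (p.1 + p.2) ≤ s / 8 * eta (p.1 + p.2) := by
    calc s / 4 * eta (p.1 + p.2) ≤ ‖c (0, 0)‖ * |eta (p'.1 + p'.2) - eta (p'.1 + p'.2 - (a + 1)) -
      (eta (p.1 + p.2) - eta (p.1 + p.2 - (a + 1)))| := by gcongr
      _ ≤ (T (a + 1)).card * (τ * s * eta (p.1 + p.2 - (a + 1)))
        + (T (a + 1)).card * (τ * s * eta (p'.1 + p'.2 - (a + 1))) := h7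
      _ ≤ (T (a + 1)).card * (τ * s * eta (p.1 + p.2 - (a + 1)))
        + (T (a + 1)).card * (τ * s * eta (p.1 + p.2 - (a + 1))) := by
          gcongr
          exact eta_anti (by omega)
      _ = s / 8 * (16 * ((T (a + 1)).card * τ) * eta (p.1 + p.2 - (a + 1))) := by ring
      _ ≤ s / 8 * eta (p.1 + p.2) := by gcongr
  have h10 : 0 < s * eta (p.1 + p.2) := by positivity
  linarith

end Pool.Agent.H49.Mont
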