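import Mathlib
import Pool.Agent.H49.Mont5

namespace Pool.Agent.H49.Mont

open Filter Finset

theorem eta_le_two (k : ℕ) : eta k ≤ 2 * (1 / 2 : ℝ) ^ k := by
  induction k with
  | zero => simp [eta]
  | succ k ih =>
    rcases Nat.eq_zero_or_pos k with rfl | hk
    · simp [eta]
    · have h1 : eta (k + 1) = eta k / (k + 1) := by
        unfold eta
        rw [Nat.factorial_succ]
        push_cast
        rw [mul_inv]
        ring
      have h2 : (2 : ℝ) ≤ k + 1 := by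
        have : (1 : ℝ) ≤ k := by exact_mod_cast hk
        linarith
      have h3 := eta_pos k
      rw [h1]
      calc eta k / (k + 1) ≤ eta k / 2 := by gcongr
        _ ≤ (2 * (1 / 2 : ℝ) ^ k) / 2 := by gcongr
        _ = 2 * (1 / 2 : ℝ) ^ (k + 1) := by ring

theorem eta_pow {a d : ℕ} (hd : a + 1 ≤ d) : eta (d - (a + 1)) ≤ eta d * (d : ℝ) ^ (a + 1) := by
  have h1 := Nat.factorial_mul_descFactorial hd
  have h2 := Nat.descFactorial_le_pow d (a + 1)
  have h3 : (0 : ℝ) < (Nat.factorial (d - (a + 1)) : ℕ) := by exact_mod_cast Nat.factorial_pos _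
  have h4 : (0 : ℝ) < (Nat.factorial d : ℕ) := by exact_mod_cast Nat.factorial_pos _
  unfold eta
  rw [inv_mul_eq_div, le_div_iff₀ h4, inv_mul_le_iff₀ h3]
  have h5 : Nat.factorial d ≤ Nat.factorial (d - (a + 1)) * d ^ (a + 1) := by
    rw [← h1]
    exact Nat.mul_le_mul_left _ h2
  exact_mod_cast h5

/-- the small quantity -/
noncomputable def tau (a : ℕ) (C : ℝ) (n : ℕ) : ℝ :=
  C * (1 / 2 : ℝ) ^ (n - a) + eta (n - (2 * a + 1))

theorem tau_nonneg (a : ℕ) {C : ℝ} (hC : 0 ≤ C) (n : ℕ) : 0 ≤ tau a C n := by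
  unfold tau
  have := (eta_pos (n - (2 * a + 1))).le
  positivity

theorem tau_le (a : ℕ) {C : ℝ} (hC : 0 ≤ C) {n : ℕ} (hn : 2 * a + 1 ≤ n) :
    tau a C n ≤ (C * 2 ^ a + 2 * 2 ^ (2 * a + 1)) * (1 / 2 : ℝ) ^ n := by
  have h1 : ∀ k : ℕ, k ≤ n → (1 / 2 : ℝ) ^ (n - k) = 2 ^ k * (1 / 2 : ℝ) ^ n := by
    intro k hk
    have : (1 / 2 : ℝ) ^ n = (1 / 2 : ℝ) ^ (n - k) * (1 / 2 : ℝ) ^ k := by
      rw [← pow_add, Nat.sub_add_cancel hk]
    rw [this, mul_left_comm, ← mul_pow]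
    norm_num
  unfold tau
  have h2 := eta_le_two (n - (2 * a + 1))
  rw [h1 _ hn] at h2
  rw [h1 a (by omega)]
  calc C * (2 ^ a * (1 / 2 : ℝ) ^ n) + eta (n - (2 * a + 1))
      ≤ C * (2 ^ a * (1 / 2 : ℝ) ^ n) + 2 * (2 ^ (2 * a + 1) * (1 / 2 : ℝ) ^ n) := by gcongr
    _ = (C * 2 ^ a + 2 * 2 ^ (2 * a + 1)) * (1 / 2 : ℝ) ^ n := by ring

theorem eventually_small (a N : ℕ) {C : ℝ} (hC : 0 ≤ C) :
    ∀ᶠ n : ℕ in atTop, N * tau a C n ≤ 1 / 2 ∧
      ∀ d, n < d → d ≤ n + N → 16 * (N * tau a C n) * eta (d - (a + 1)) ≤ eta d := by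
  set D : ℝ := C * 2 ^ a + 2 * 2 ^ (2 * a + 1) with hD
  have hD0 : 0 ≤ D := by positivity
  have h1 : Tendsto (fun n : ℕ => ((n : ℝ)) ^ (a + 1) * (1 / 2 : ℝ) ^ n) atTop (nhds 0) :=
    tendsto_pow_const_mul_const_pow_of_abs_lt_one (a + 1) (by rw [abs_of_pos] <;> norm_num)
  have h2 : Tendsto (fun n : ℕ => 16 * N * D * 2 ^ N *
      (((n + N : ℕ) : ℝ) ^ (a + 1) * (1 / 2 : ℝ) ^ (n + N))) atTop (nhds 0) := by
    have := (h1.comp (tendsto_add_atTop_nat N)).const_mul (16 * N * D * 2 ^ N)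
    simpa using this
  have h3 := h2.eventually (gt_mem_nhds (show (0 : ℝ) < 1 by norm_num))
  filter_upwards [h3, eventually_ge_atTop (2 * a + 1)] with n hn1 hn2
  have h4 := tau_le a hC hn2
  have h5 := tau_nonneg a hC n
  have h6 : 16 * N * D * 2 ^ N * (((n + N : ℕ) : ℝ) ^ (a + 1) * (1 / 2 : ℝ) ^ (n + N))
      = 16 * (N * (D * (1 / 2 : ℝ) ^ n)) * ((n + N : ℕ) : ℝ) ^ (a + 1) := by
    have : (2 : ℝ) ^ N * (1 / 2 : ℝ) ^ N = 1 := by rw [← mul_pow]; norm_num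
    rw [pow_add (1 / 2 : ℝ) n N]
    calc 16 * N * D * 2 ^ N * (((n + N : ℕ) : ℝ) ^ (a + 1) * ((1 / 2 : ℝ) ^ n * (1 / 2 : ℝ) ^ N))
        = 16 * N * D * (((n + N : ℕ) : ℝ) ^ (a + 1) * (1 / 2 : ℝ) ^ n)
          * (2 ^ N * (1 / 2 : ℝ) ^ N) := by ring
      _ = 16 * (N * (D * (1 / 2 : ℝ) ^ n)) * ((n + N : ℕ) : ℝ) ^ (a + 1) := by
          rw [this]; ring
  rw [h6] at hn1
  have h7 : 16 * (N * tau a C n) * ((n + N : ℕ) : ℝ) ^ (a + 1) ≤ 1 := by
    refine le_trans ?_ hn1.le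
    gcongr
  have h8 : (1 : ℝ) ≤ ((n + N : ℕ) : ℝ) ^ (a + 1) := by
    refine one_le_pow₀ ?_
    have : 1 ≤ n + N := by omega
    exact_mod_cast this
  constructor
  · have h9 : 16 * (N * tau a C n) ≤ 1 := by
      refine le_trans ?_ h7
      exact le_mul_of_one_le_right (by positivity) h8
    linarith
  · intro d hd1 hd2
    have h9 : eta (d - (a + 1)) ≤ eta d * ((n + N : ℕ) : ℝ) ^ (a + 1) := by
      refine (eta_pow (by omega)).trans ?_
      have := (eta_pos d).le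
      have : (d : ℝ) ≤ ((n + N : ℕ) : ℝ) := by exact_mod_cast hd2
      gcongr
    have h10 := (eta_pos d).le
    calc 16 * (N * tau a C n) * eta (d - (a + 1))
        ≤ 16 * (N * tau a C n) * (eta d * ((n + N : ℕ) : ℝ) ^ (a + 1)) := by gcongr
      _ = eta d * (16 * (N * tau a C n) * ((n + N : ℕ) : ℝ) ^ (a + 1)) := by ring
      _ ≤ eta d * 1 := by gcongr
      _ = eta d := mul_one _

/-- the torus of radius 2 -/
def torus2 : Set (Fin 2 → ℂ) := Set.univ.pi fun _ => Metric.sphere (0 : ℂ) 2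

theorem mem_torus2 {z : Fin 2 → ℂ} : z ∈ torus2 ↔ ‖z 0‖ = 2 ∧ ‖z 1‖ = 2 := by
  simp [torus2, Set.mem_pi, Fin.forall_fin_two]

theorem isCompact_torus2 : IsCompact torus2 :=
  isCompact_univ_pi fun _ => isCompact_sphere _ _

theorem norm_G_ge {a : ℕ} {z : Fin 2 → ℂ} (hz : z ∈ torus2) :
    1 ≤ ‖MvPolynomial.eval z (Gpol a)‖ := by
  rw [mem_torus2] at hz
  rw [eval_Gpol]
  have h1 : ‖z 0 ^ a * z 1‖ = 2 ^ a * 2 := by rw [norm_mul, norm_pow, hz.1, hz.2]
  have h2 : (1 : ℝ) ≤ 2 ^ a := one_le_pow₀ (by norm_num)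
  have h3 := norm_sub_norm_le (z 0 ^ a * z 1) 1
  rw [h1, norm_one, norm_sub_rev] at h3
  linarith

theorem torus2_subset (a : ℕ) : torus2 ⊆ {z | MvPolynomial.eval z (Gpol a) ≠ 0} := by
  intro z hz h0
  have := norm_G_ge (a := a) hz
  rw [h0, norm_zero] at this
  linarith

/-- a bound for the entire part on the torus -/
noncomputable def Bc : ℝ := ∑' p : ℕ × ℕ, eta (p.1 + p.2) * ((2 : ℝ) ^ p.1 * 2 ^ p.2)

theorem Bc_nonneg : 0 ≤ Bc := tsum_nonneg fun p => by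
  have := (eta_pos (p.1 + p.2)).le
  positivity

theorem norm_f_le {a : ℕ} {z : Fin 2 → ℂ} (hz : z ∈ torus2) :
    ‖Ffun a z / MvPolynomial.eval z (Gpol a)‖ ≤ 1 + Bc := by
  have h1 := norm_G_ge (a := a) hz
  have h0 : MvPolynomial.eval z (Gpol a) ≠ 0 := torus2_subset a hz
  have h2 : Ffun a z / MvPolynomial.eval z (Gpol a)
      = (MvPolynomial.eval z (Gpol a))⁻¹ + Hfun z := by
    rw [Ffun, ← eval_Gpol]
    field_simp
  rw [h2]
  rw [mem_torus2] at hz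
  have h3 := norm_H_le z hz.1 hz.2
  refine (norm_add_le _ _).trans (add_le_add ?_ h3)
  rw [norm_inv]
  exact inv_le_one_of_one_le₀ h1

theorem norm_Q_le {a : ℕ} {Q : MvPolynomial (Fin 2) ℂ} (hQ : Q.totalDegree ≤ a + 1)
    {z : Fin 2 → ℂ} (hz : z ∈ torus2) :
    ‖MvPolynomial.eval z Q‖ ≤ (∑ r ∈ T (a + 1), ‖Q.coeff (mon r)‖) * 2 ^ (a + 1) := by
  rw [mem_torus2] at hz
  rw [eval_formula hQ, Finset.sum_mul]
  refine (norm_sum_le _ _).trans (Finset.sum_le_sum fun r hr => ?_)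
  rw [norm_mul, norm_mul, norm_pow, norm_pow, hz.1, hz.2, ← pow_add]
  have := mem_T.mp hr
  gcongr
  norm_num

theorem norm_W_le {a : ℕ} {c : ℕ × ℕ → ℂ} {p : ℕ × ℕ} :
    ‖W a c p‖ ≤ (∑ r ∈ T (a + 1), ‖c r‖) * eta (p.1 + p.2 - (a + 1)) := by
  rw [W, Finset.sum_mul]
  refine (norm_sum_le _ _).trans (Finset.sum_le_sum fun r hr => ?_)
  have h1 := mem_T.mp hr
  have h2 := (eta_pos (p.1 + p.2 - (a + 1))).le
  split_ifs
  · rw [norm_mul, Complex.norm_real, Real.norm_eq_abs, abs_of_pos (eta_pos _)]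
    have : eta (p.1 + p.2 - (r.1 + r.2)) ≤ eta (p.1 + p.2 - (a + 1)) := eta_anti (by omega)
    gcongr
  · rw [norm_zero]
    positivity

/-- the main impossibility: for `n = (a+1) t` large no approximant is close to `f` on the torus. -/
theorem main_impossible {a : ℕ} (ha : 1 ≤ a) {n t : ℕ} (hn : n = (a + 1) * t) (ht : 2 ≤ t)
    {S : Finset (ℕ × ℕ)} (hS : IsInterpolationSet n (a + 1) S) {P Q : MvPolynomial (Fin 2) ℂ}
    (hPQ : IsApproximant n (a + 1) (fser a) S P Q)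
    (hsmall : ((T (a + 1)).card : ℝ) * tau a ((2 + Bc) * 2 ^ (a + 1)) n ≤ 1 / 2 ∧
      ∀ d, n < d → d ≤ n + (T (a + 1)).card →
        16 * ((T (a + 1)).card * tau a ((2 + Bc) * 2 ^ (a + 1)) n) * eta (d - (a + 1)) ≤ eta d)
    (hnz : ∀ z ∈ torus2, MvPolynomial.eval z Q ≠ 0)
    (hclose : ∀ z ∈ torus2, ‖MvPolynomial.eval z P / MvPolynomial.eval z Q
      - Ffun a z / MvPolynomial.eval z (Gpol a)‖ ≤ 1) : False := by
  obtain ⟨hPd, hQd, hQ0, hco⟩ := hPQ
  set c : ℕ × ℕ → ℂ := fun r => Q.coeff (mon r) with hc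
  set s : ℝ := ∑ r ∈ T (a + 1), ‖c r‖ with hs
  have hB := Bc_nonneg
  set C : ℝ := (2 + Bc) * 2 ^ (a + 1) with hC
  have hC0 : 0 ≤ C := by positivity
  set τ := tau a C n with hτ
  have hτ0 : 0 ≤ τ := tau_nonneg a hC0 n
  have hs0 : 0 < s := by
    rcases (Finset.sum_nonneg (fun r _ => norm_nonneg (c r)) : 0 ≤ ∑ r ∈ T (a + 1), ‖c r‖).eq_or_lt
      with h | h
    · exfalso
      apply hQ0
      rw [eq_sum_T hQd]
      refine Finset.sum_eq_zero fun r hr => ?_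
      have := (Finset.sum_eq_zero_iff_of_nonneg fun r _ => norm_nonneg (c r)).mp h.symm r hr
      rw [norm_eq_zero] at this
      simp only [hc] at this
      rw [this, MvPolynomial.monomial_zero]
    · exact h
  -- bound for `P` on the torus
  have hPz : ∀ z : Fin 2 → ℂ, ‖z 0‖ = 2 → ‖z 1‖ = 2 → ‖MvPolynomial.eval z P‖ ≤ C * s := by
    intro z h0 h1
    have hz : z ∈ torus2 := mem_torus2.mpr ⟨h0, h1⟩
    have h2 := hclose z hz
    have h3 := norm_f_le (a := a) hz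
    have h4 : ‖MvPolynomial.eval z P / MvPolynomial.eval z Q‖ ≤ 2 + Bc := by
      have := norm_sub_norm_le (MvPolynomial.eval z P / MvPolynomial.eval z Q)
        (Ffun a z / MvPolynomial.eval z (Gpol a))
      linarith
    have h5 := norm_Q_le hQd hz
    rw [norm_div, div_le_iff₀ (norm_pos_iff.mpr (hnz z hz))] at h4
    calc ‖MvPolynomial.eval z P‖ ≤ (2 + Bc) * ‖MvPolynomial.eval z Q‖ := h4
      _ ≤ (2 + Bc) * (s * 2 ^ (a + 1)) := by gcongr
      _ = C * s := by rw [hC]; ring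
  -- coefficients
  have hcoeff : ∀ p ∈ S, a + 1 ≤ p.1 + p.2 → P.coeff (mon p) = gcl a c (cls a p) + W a c p := by
    intro p hp hp2
    have h1 := hco p hp
    rw [map_sub, MvPolynomial.coeff_coe, coeff_formula hQd hp2, sub_eq_zero] at h1
    exact h1.symm
  have hcoeff0 : ∀ p ∈ S, n < p.1 + p.2 → gcl a c (cls a p) + W a c p = 0 := by
    intro p hp hp2
    have h1 : a + 1 ≤ n := by
      rw [hn]
      exact Nat.le_mul_of_pos_right _ (by omega)
    rw [← hcoeff p hp (by omega)]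
    exact coeff_eq_zero_of_lt hPd hp2
  -- the class sums are tiny
  have htiny : ∀ r ∈ T (a + 1), r ≠ (0, 0) → ‖gcl a c (cls a r)‖ ≤ τ * s := by
    intro r hr hr0
    have hr' := mem_T.mp hr
    obtain ⟨t', rfl⟩ : ∃ t', t = t' + 1 := ⟨t - 1, by omega⟩
    set p : ℕ × ℕ := (r.1 + a * t', r.2 + t') with hp
    have hlev : p.1 + p.2 = r.1 + r.2 + (a + 1) * t' := by simp only [hp]; ring
    have hn' : n = (a + 1) * t' + (a + 1) := by rw [hn]; ring
    have hr1 : 1 ≤ r.1 + r.2 := by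
      by_contra hlt
      apply hr0
      exact Prod.ext (by simp; omega) (by simp; omega)
    have ht' : (a + 1) ≤ (a + 1) * t' := Nat.le_mul_of_pos_right _ (by omega)
    have hpn : p.1 + p.2 ≤ n := by omega
    have hpS : p ∈ S := hS.2.1 p hpn
    have hcls : cls a p = cls a r := by simp only [cls, hp]; push_cast; ring
    have h1 := hcoeff p hpS (by omega)
    rw [hcls] at h1
    have h2 : gcl a c (cls a r) = P.coeff (mon p) - W a c p := by rw [h1]; ring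
    have h3 := cauchy_two hPd (by norm_num : (0 : ℝ) < 2) hPz hpn
    have h4 : ‖P.coeff (mon p)‖ ≤ C * s * (1 / 2 : ℝ) ^ (p.1 + p.2) := by
      have h5 : (0 : ℝ) < 2 ^ (p.1 + p.2) := by positivity
      rw [one_div, inv_pow, ← div_eq_mul_inv, le_div_iff₀ h5]
      exact h3
    have h5 : (1 / 2 : ℝ) ^ (p.1 + p.2) ≤ (1 / 2 : ℝ) ^ (n - a) :=
      pow_le_pow_of_le_one (by norm_num) (by norm_num) (by omega)
    have h6 := norm_W_le (a := a) (c := c) (p := p)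
    have h7 : eta (p.1 + p.2 - (a + 1)) ≤ eta (n - (2 * a + 1)) := eta_anti (by omega)
    rw [h2]
    calc ‖P.coeff (mon p) - W a c p‖ ≤ ‖P.coeff (mon p)‖ + ‖W a c p‖ := norm_sub_le _ _
      _ ≤ C * s * (1 / 2 : ℝ) ^ (p.1 + p.2) + s * eta (p.1 + p.2 - (a + 1)) := add_le_add h4 h6
      _ ≤ C * s * (1 / 2 : ℝ) ^ (n - a) + s * eta (n - (2 * a + 1)) := by gcongr
      _ = τ * s := by rw [hτ, tau]; ring
  obtain ⟨hsm1, hsm2⟩ := hsmall
  have han : a + 1 ≤ n := by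
    rw [hn]
    exact Nat.le_mul_of_pos_right _ (by omega)
  have han2 : 3 ≤ n := by
    have : (a + 1) * 2 ≤ (a + 1) * t := Nat.mul_le_mul_left _ ht
    omega
  rcases pigeon ha hS (by omega : 1 ≤ t) hn with ⟨p, hpS, hpn, hno⟩ |
    ⟨p, hpS, p', hpS', hpn, hpn', hpp, hlt, r, hr, hrp⟩
  · -- case 1
    have h1 := hcoeff0 p hpS hpn
    have h2 : gcl a c (cls a p) = 0 := by
      rw [gcl]
      refine Finset.sum_eq_zero fun r hr => ?_
      rw [if_neg (hno r hr)]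
    rw [h2, zero_add] at h1
    exact case_one hs hs0 hτ0 hsm1 htiny (by omega)
      (hsm2 _ hpn (level_le hS hpS)) h1
  · -- case 2
    have h1 := hcoeff0 p hpS hpn
    have h2 := hcoeff0 p' hpS' hpn'
    rw [← hpp] at h2
    have h3 : W a c p = W a c p' := by
      have := h1.trans h2.symm
      exact add_left_cancel this
    obtain ⟨⟨h4, h5⟩, h6⟩ := (cls_iff hr (by omega : a + 1 ≤ p.1 + p.2)).mp hrp
    have hr' := mem_T.mp hr
    have h7 : 1 ≤ p.2 - r.2 := by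
      by_contra hlt0
      have h8 : p.2 - r.2 = 0 := by omega
      rw [h8, mul_zero] at h6
      omega
    have h8 : a ≤ p.1 := by
      have : a * 1 ≤ a * (p.2 - r.2) := Nat.mul_le_mul_left _ h7
      omega
    have h9 : (p'.1 : ℤ) - p.1 = a * (p'.2 - p.2) := by
      simp only [cls] at hpp
      linarith
    have h10 : (a : ℤ) * 1 ≤ a * (p'.2 - p.2) := by
      apply mul_le_mul_of_nonneg_left _ (by positivity)
      omega
    refine case_two hs hs0 hτ0 hsm1 htiny (by omega) ⟨h8, by omega⟩ ⟨by omega, by omega⟩ (by omega)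
      (hsm2 _ hpn (level_le hS hpS)) h3

end Pool.Agent.H49.Mont
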