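import Mathlib
import Pool.Agent.H62.Per.Defs

/-! Module SYM of the perimeter project (MP_588c6d_co). -/

set_option autoImplicit false

open Finset

namespace Pool.Agent.H49.Per

open Pool.Agent.H62.Per

theorem dd_nonneg (p q : Pl) : 0 ≤ dd p q := Real.sqrt_nonneg _

theorem dd_sq (p q : Pl) : dd p q ^ 2 = (p.1 - q.1) ^ 2 + (p.2 - q.2) ^ 2 := by
  unfold dd
  rw [Real.sq_sqrt]
  positivity

theorem dd_comm (p q : Pl) : dd p q = dd q p := by
  unfold dd
  congr 1
  ring

theorem dd_pos {p q : Pl} (h : p ≠ q) : 0 < dd p q := by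
  unfold dd
  apply Real.sqrt_pos.mpr
  by_contra hc
  have h1 : (p.1 - q.1) ^ 2 = 0 := by nlinarith [sq_nonneg (p.1 - q.1), sq_nonneg (p.2 - q.2)]
  have h2 : (p.2 - q.2) ^ 2 = 0 := by nlinarith [sq_nonneg (p.1 - q.1), sq_nonneg (p.2 - q.2)]
  apply h
  have h3 : p.1 - q.1 = 0 := by simpa using h1
  have h4 : p.2 - q.2 = 0 := by simpa using h2
  exact Prod.ext (by linarith) (by linarith)

theorem dd_self (p : Pl) : dd p p = 0 := by
  unfold dd
  simp

theorem dd_tri (p q r : Pl) : dd p r ≤ dd p q + dd q r := by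
  have h1 := dd_nonneg p q
  have h2 := dd_nonneg q r
  have h3 := dd_nonneg p r
  have e1 := dd_sq p q
  have e2 := dd_sq q r
  have e3 := dd_sq p r
  apply le_of_sq_le_sq _ (by positivity)
  have hcs : ((p.1 - q.1) * (q.1 - r.1) + (p.2 - q.2) * (q.2 - r.2)) ≤ dd p q * dd q r := by
    apply le_of_sq_le_sq _ (by positivity)
    have : (dd p q * dd q r) ^ 2 = ((p.1 - q.1) ^ 2 + (p.2 - q.2) ^ 2) *
        ((q.1 - r.1) ^ 2 + (q.2 - r.2) ^ 2) := by
      rw [mul_pow, e1, e2]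
    rw [this]
    nlinarith [sq_nonneg ((p.1 - q.1) * (q.2 - r.2) - (p.2 - q.2) * (q.1 - r.1))]
  nlinarith

/-- equality in the triangle inequality: vector form -/
theorem vec_of_eq {x y p : Pl} (h : dd x p = dd y p + dd x y) :
    dd y p * (y.1 - x.1) = dd x y * (p.1 - y.1) ∧
    dd y p * (y.2 - x.2) = dd x y * (p.2 - y.2) := by
  have eA := dd_sq x p
  have eB := dd_sq y p
  have eC := dd_sq x y
  set A := dd x p
  set B := dd y p
  set C := dd x y
  have hD : (p.1 - y.1) * (y.1 - x.1) + (p.2 - y.2) * (y.2 - x.2) = B * C := by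
    have : A ^ 2 = B ^ 2 + C ^ 2 + 2 * (B * C) := by rw [h]; ring
    nlinarith
  have h0 : (B * (y.1 - x.1) - C * (p.1 - y.1)) ^ 2 +
      (B * (y.2 - x.2) - C * (p.2 - y.2)) ^ 2 = 0 := by
    have e : (B * (y.1 - x.1) - C * (p.1 - y.1)) ^ 2 +
      (B * (y.2 - x.2) - C * (p.2 - y.2)) ^ 2 = B ^ 2 * ((x.1 - y.1) ^ 2 + (x.2 - y.2) ^ 2)
        + C ^ 2 * ((y.1 - p.1) ^ 2 + (y.2 - p.2) ^ 2)
        - 2 * (B * C) * ((p.1 - y.1) * (y.1 - x.1) + (p.2 - y.2) * (y.2 - x.2)) := by ring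
    rw [e, hD, ← eB, ← eC]
    ring
  have h1 : (B * (y.1 - x.1) - C * (p.1 - y.1)) ^ 2 = 0 := by
    nlinarith [sq_nonneg (B * (y.1 - x.1) - C * (p.1 - y.1)),
      sq_nonneg (B * (y.2 - x.2) - C * (p.2 - y.2))]
  have h2 : (B * (y.2 - x.2) - C * (p.2 - y.2)) ^ 2 = 0 := by
    nlinarith [sq_nonneg (B * (y.1 - x.1) - C * (p.1 - y.1)),
      sq_nonneg (B * (y.2 - x.2) - C * (p.2 - y.2))]
  have h3 : B * (y.1 - x.1) - C * (p.1 - y.1) = 0 := by simpa using h1
  have h4 : B * (y.2 - x.2) - C * (p.2 - y.2) = 0 := by simpa using h2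
  constructor <;> linarith

/-- two points on the same ray behind `y` seen from `x` -/
theorem ray {x y p q : Pl} (hxy : x ≠ y) (hp : dd x p = dd y p + dd x y)
    (hq : dd x q = dd y q + dd x y) : dd p q = |dd x p - dd x q| := by
  obtain ⟨p1, p2⟩ := vec_of_eq hp
  obtain ⟨q1, q2⟩ := vec_of_eq hq
  have hC := dd_pos hxy
  have eC := dd_sq x y
  have e : dd x p - dd x q = dd y p - dd y q := by linarith
  rw [e]
  have hs : (dd x y * dd p q) ^ 2 = (dd x y * (dd y p - dd y q)) ^ 2 := by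
    rw [mul_pow, dd_sq p q]
    have e1 : dd x y * (p.1 - q.1) = (dd y p - dd y q) * (y.1 - x.1) := by linarith
    have e2 : dd x y * (p.2 - q.2) = (dd y p - dd y q) * (y.2 - x.2) := by linarith
    have : dd x y ^ 2 * ((p.1 - q.1) ^ 2 + (p.2 - q.2) ^ 2) =
        (dd x y * (p.1 - q.1)) ^ 2 + (dd x y * (p.2 - q.2)) ^ 2 := by ring
    rw [this, e1, e2]
    have : ((dd y p - dd y q) * (y.1 - x.1)) ^ 2 + ((dd y p - dd y q) * (y.2 - x.2)) ^ 2 =
      (dd y p - dd y q) ^ 2 * ((x.1 - y.1) ^ 2 + (x.2 - y.2) ^ 2) := by ring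
    rw [this, ← eC]
    ring
  have h1 : |dd x y * dd p q| = |dd x y * (dd y p - dd y q)| := (sq_eq_sq_iff_abs_eq_abs _ _).mp hs
  rw [abs_mul, abs_mul, abs_of_pos hC, abs_of_nonneg (dd_nonneg p q)] at h1
  exact mul_left_cancel₀ hC.ne' h1

theorem abs_sub_le (x y p : Pl) : |dd x p - dd y p| ≤ dd x y := by
  rw [abs_le]
  have h1 := dd_tri x y p
  have h2 := dd_tri y x p
  rw [dd_comm y x] at h2
  constructor <;> linarith

/-- MODULE SYM -/
theorem sym : SYM := by
  intro p q x y h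
  obtain ⟨hxy, hd, ⟨hne, hlt⟩, hpx⟩ := h
  have hpq : p ≠ q := by
    rintro rfl
    rw [dd_self] at hlt
    exact absurd hlt (not_lt.mpr (abs_nonneg _))
  have e1 := dd_comm p x
  have e2 := dd_comm q x
  have e3 := dd_comm p y
  have e4 := dd_comm q y
  refine ⟨hpq, by linarith, ⟨?_, ?_⟩, ?_⟩
  · intro h0
    apply hpx
    linarith
  · apply lt_of_le_of_ne (abs_sub_le x y p)
    intro heq
    rcases abs_choice (dd x p - dd y p) with h1 | h1
    · have hp : dd x p = dd y p + dd x y := by linarith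
      have hq : dd x q = dd y q + dd x y := by linarith
      have := ray hxy hp hq
      rw [this] at hlt
      rw [e1, e2] at hlt
      exact lt_irrefl _ hlt
    · have hp : dd y p = dd x p + dd y x := by
        rw [dd_comm y x]; linarith
      have hq : dd y q = dd x q + dd y x := by
        rw [dd_comm y x]; linarith
      have := ray hxy.symm hp hq
      rw [this] at hlt
      have e5 : dd p x - dd q x = dd y p - dd y q := by linarith
      rw [e5] at hlt
      exact lt_irrefl _ hlt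
  · intro h0
    apply hne
    linarith

end Pool.Agent.H49.Per
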