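import Mathlib
import Pool.Agent.H62.Per.Defs
import Pool.Agent.H49.PerSym

/-! Module START of the perimeter project (MP_588c6d_co). -/

set_option autoImplicit false

open Finset

namespace Pool.Agent.H49.Per

open Pool.Agent.H62.Per

/-- `x` is on the line through `p` and `q` -/
def Col (p q x : Pl) : Prop := (q.1 - p.1) * (x.2 - p.2) = (q.2 - p.2) * (x.1 - p.1)

/-- projection on the line -/
noncomputable def prj (p q x : Pl) : ℝ := (q.1 - p.1) * (x.1 - p.1) + (q.2 - p.2) * (x.2 - p.2)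

theorem dd_col {p q x y : Pl} (hx : Col p q x) (hy : Col p q y) :
    dd p q * dd x y = |prj p q x - prj p q y| := by
  have h1 : (dd p q * dd x y) ^ 2 = (prj p q x - prj p q y) ^ 2 := by
    rw [mul_pow, dd_sq, dd_sq]
    unfold prj
    unfold Col at hx hy
    have hc : (q.1 - p.1) * (x.2 - y.2) - (q.2 - p.2) * (x.1 - y.1) = 0 := by linarith
    have : ((p.1 - q.1) ^ 2 + (p.2 - q.2) ^ 2) * ((x.1 - y.1) ^ 2 + (x.2 - y.2) ^ 2) =
      ((q.1 - p.1) * (x.1 - y.1) + (q.2 - p.2) * (x.2 - y.2)) ^ 2 +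
      ((q.1 - p.1) * (x.2 - y.2) - (q.2 - p.2) * (x.1 - y.1)) ^ 2 := by ring
    rw [this, hc]
    ring
  have h2 := (sq_eq_sq_iff_abs_eq_abs _ _).mp h1
  rw [← h2, abs_mul, abs_of_nonneg (dd_nonneg p q), abs_of_nonneg (dd_nonneg x y)]

theorem dd_eq_zero {x y : Pl} (h : dd x y = 0) : x = y := by
  by_contra hne
  exact absurd h (dd_pos hne).ne'

theorem prj_inj {p q x y : Pl} (hpq : p ≠ q) (hx : Col p q x) (hy : Col p q y)
    (h : prj p q x = prj p q y) : x = y := by
  have h1 := dd_col hx hy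
  rw [h, sub_self, abs_zero] at h1
  rcases mul_eq_zero.mp h1 with h2 | h2
  · exact absurd h2 (dd_pos hpq).ne'
  · exact dd_eq_zero h2

theorem mem_perims {P : Finset Pl} {a b c : Pl} (ha : a ∈ P) (hb : b ∈ P) (hc : c ∈ P)
    (h1 : a ≠ b) (h2 : a ≠ c) (h3 : b ≠ c) : pr a b c ∈ perims P := by
  unfold perims
  rw [Finset.mem_image]
  refine ⟨(a, b, c), ?_, rfl⟩
  simp only [Finset.mem_filter, Finset.mem_product]
  exact ⟨⟨ha, hb, hc⟩, h1, h2, h3⟩

open Classical in
/-- (i) few points on a line -/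
theorem line_le {P : Finset Pl} {p q : Pl} (hpq : p ≠ q) :
    (P.filter (Col p q)).card ≤ (perims P).card + 2 := by
  set L := P.filter (Col p q) with hL
  by_cases h0 : L.Nonempty
  swap
  · rw [Finset.not_nonempty_iff_eq_empty] at h0
    rw [h0]; simp
  obtain ⟨x1, hx1, hm1⟩ := L.exists_min_image (prj p q) h0
  by_cases h0' : (L.erase x1).Nonempty
  swap
  · rw [Finset.not_nonempty_iff_eq_empty] at h0'
    have := Finset.card_erase_of_mem hx1
    rw [h0'] at this
    simp at this
    omega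
  obtain ⟨x2, hx2, hm2⟩ := (L.erase x1).exists_min_image (prj p q) h0'
  have hc1 := Finset.card_erase_of_mem hx1
  have hc2 := Finset.card_erase_of_mem hx2
  have hle : ((L.erase x1).erase x2).card ≤ (perims P).card := by
    have memL : ∀ x ∈ L, x ∈ P ∧ Col p q x := by
      intro x hx
      rw [hL, Finset.mem_filter] at hx
      exact hx
    have hx2L : x2 ∈ L := Finset.mem_of_mem_erase hx2
    have hc := dd_pos hpq
    have key : ∀ x ∈ (L.erase x1).erase x2, dd p q * pr x1 x2 x =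
        2 * (prj p q x - prj p q x1) := by
      intro x hx
      have hx' := Finset.mem_of_mem_erase hx
      have hxL := Finset.mem_of_mem_erase hx'
      have e1 := dd_col (memL x1 hx1).2 (memL x2 hx2L).2
      have e2 := dd_col (memL x1 hx1).2 (memL x hxL).2
      have e3 := dd_col (memL x2 hx2L).2 (memL x hxL).2
      have i1 := hm1 x2 hx2L
      have i2 := hm1 x hxL
      have i3 := hm2 x hx'
      rw [abs_of_nonpos (by linarith)] at e1 e2 e3
      unfold pr
      rw [mul_add, mul_add, e1, e2, e3]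
      ring
    apply Finset.card_le_card_of_injOn (fun x => pr x1 x2 x)
    · intro x hx
      have hx : x ∈ (L.erase x1).erase x2 := hx
      have hx' := Finset.mem_of_mem_erase hx
      have hxL := Finset.mem_of_mem_erase hx'
      apply mem_perims (memL x1 hx1).1 (memL x2 hx2L).1 (memL x hxL).1
      · exact (Finset.ne_of_mem_erase hx2).symm
      · exact (Finset.ne_of_mem_erase hx').symm
      · exact (Finset.ne_of_mem_erase hx).symm
    · intro x hx y hy hxy
      have hx : x ∈ (L.erase x1).erase x2 := hx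
      have hy : y ∈ (L.erase x1).erase x2 := hy
      have hxy : pr x1 x2 x = pr x1 x2 y := hxy
      have k1 := key x hx
      have k2 := key y hy
      rw [hxy] at k1
      have hxL := Finset.mem_of_mem_erase (Finset.mem_of_mem_erase hx)
      have hyL := Finset.mem_of_mem_erase (Finset.mem_of_mem_erase hy)
      exact prj_inj hpq (memL x hxL).2 (memL y hyL).2 (by linarith)
  omega

open Classical in
/-- Cauchy-Schwarz -/
theorem card_sq_le {α β : Type*} (S : Finset α) (f : α → β) :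
    S.card ^ 2 ≤ (S.image f).card * ((S ×ˢ S).filter (fun s => f s.1 = f s.2)).card := by
  have h1 : S.card = ∑ b ∈ S.image f, (S.filter (fun a => f a = b)).card :=
    Finset.card_eq_sum_card_image f S
  have h2 : ((S ×ˢ S).filter (fun s => f s.1 = f s.2)).card =
      ∑ b ∈ S.image f, (S.filter (fun a => f a = b)).card ^ 2 := by
    rw [Finset.card_eq_sum_card_fiberwise (f := fun s => f s.1) (t := S.image f)]
    · apply Finset.sum_congr rfl
      intro b _
      rw [sq, ← Finset.card_product]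
      congr 1
      ext ⟨x, y⟩
      simp only [Finset.mem_filter, Finset.mem_product]
      constructor
      · rintro ⟨⟨⟨hx, hy⟩, h⟩, hb⟩
        exact ⟨⟨hx, hb⟩, hy, by rw [← h]; exact hb⟩
      · rintro ⟨⟨hx, hb⟩, hy, hb'⟩
        exact ⟨⟨⟨hx, hy⟩, by rw [hb, hb']⟩, hb⟩
    · intro s hs
      have hs : s ∈ (S ×ˢ S).filter (fun s => f s.1 = f s.2) := hs
      rw [Finset.mem_filter, Finset.mem_product] at hs
      exact Finset.mem_coe.mpr (Finset.mem_image_of_mem f hs.1.1)
  rw [h2]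
  nth_rewrite 1 [h1]
  exact sq_sum_le_card_mul_sum_sq

open Classical in
/-- `sum k_h k_{-h} ≤ sum k_h ^ 2` -/
theorem neg_le {α : Type*} (Q : Finset α) (g : α → ℝ) :
    ((Q ×ˢ Q).filter (fun s => g s.1 = - g s.2)).card ≤
      ((Q ×ˢ Q).filter (fun s => g s.1 = g s.2)).card := by
  set T := Q.image g ∪ Q.image (fun a => - g a) with hT
  set k : ℝ → ℕ := fun h => (Q.filter (fun a => g a = h)).card with hk
  have hneg : ∀ h ∈ T, -h ∈ T := by
    intro h hh
    rw [hT, Finset.mem_union, Finset.mem_image, Finset.mem_image] at hh ⊢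
    rcases hh with ⟨a, ha, rfl⟩ | ⟨a, ha, rfl⟩
    · exact Or.inr ⟨a, ha, rfl⟩
    · exact Or.inl ⟨a, ha, by ring⟩
  have h1 : ((Q ×ˢ Q).filter (fun s => g s.1 = - g s.2)).card = ∑ h ∈ T, k h * k (-h) := by
    rw [Finset.card_eq_sum_card_fiberwise (f := fun s => g s.1) (t := T)]
    · apply Finset.sum_congr rfl
      intro b _
      rw [← Finset.card_product]
      congr 1
      ext ⟨x, y⟩
      simp only [Finset.mem_filter, Finset.mem_product]
      constructor
      · rintro ⟨⟨⟨hx, hy⟩, h⟩, hb⟩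
        exact ⟨⟨hx, hb⟩, hy, by linarith⟩
      · rintro ⟨⟨hx, hb⟩, hy, hb'⟩
        exact ⟨⟨⟨hx, hy⟩, by linarith⟩, hb⟩
    · intro s hs
      have hs : s ∈ (Q ×ˢ Q).filter (fun s => g s.1 = - g s.2) := hs
      rw [Finset.mem_filter, Finset.mem_product] at hs
      apply Finset.mem_coe.mpr
      rw [hT, Finset.mem_union]
      exact Or.inl (Finset.mem_image_of_mem g hs.1.1)
  have h2 : ((Q ×ˢ Q).filter (fun s => g s.1 = g s.2)).card = ∑ h ∈ T, k h * k h := by
    rw [Finset.card_eq_sum_card_fiberwise (f := fun s => g s.1) (t := T)]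
    · apply Finset.sum_congr rfl
      intro b _
      rw [← Finset.card_product]
      congr 1
      ext ⟨x, y⟩
      simp only [Finset.mem_filter, Finset.mem_product]
      constructor
      · rintro ⟨⟨⟨hx, hy⟩, h⟩, hb⟩
        exact ⟨⟨hx, hb⟩, hy, by linarith⟩
      · rintro ⟨⟨hx, hb⟩, hy, hb'⟩
        exact ⟨⟨⟨hx, hy⟩, by linarith⟩, hb⟩
    · intro s hs
      have hs : s ∈ (Q ×ˢ Q).filter (fun s => g s.1 = g s.2) := hs
      rw [Finset.mem_filter, Finset.mem_product] at hs
      apply Finset.mem_coe.mpr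
      rw [hT, Finset.mem_union]
      exact Or.inl (Finset.mem_image_of_mem g hs.1.1)
  have h3 : ∑ h ∈ T, k (-h) * k (-h) = ∑ h ∈ T, k h * k h := by
    apply Finset.sum_nbij' (fun h => -h) (fun h => -h)
    · exact hneg
    · exact hneg
    · intro a _; ring
    · intro a _; ring
    · intro a _; rfl
  rw [h1, h2]
  have h4 : 2 * ∑ h ∈ T, k h * k (-h) ≤ ∑ h ∈ T, k h * k h + ∑ h ∈ T, k (-h) * k (-h) := by
    rw [Finset.mul_sum, ← Finset.sum_add_distrib]
    apply Finset.sum_le_sum
    intro h _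
    have := two_mul_le_add_sq (k h) (k (-h))
    nlinarith
  omega

/-- uniqueness of the mirror image -/
theorem mirror {p q x y z : Pl} (hpq : p ≠ q) (h1 : dd x p = dd y p) (h2 : dd x q = dd y q)
    (h3 : dd x p = dd z p) (h4 : dd x q = dd z q) (hy : x ≠ y) (hz : x ≠ z) : y = z := by
  have e1 := dd_sq x p
  have e2 := dd_sq x q
  have e3 := dd_sq y p
  have e4 := dd_sq y q
  have e5 := dd_sq z p
  have e6 := dd_sq z q
  rw [← h1] at e3
  rw [← h2] at e4
  rw [← h3] at e5
  rw [← h4] at e6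
  have hN : 0 < (p.1 - q.1) ^ 2 + (p.2 - q.2) ^ 2 := by
    rw [← dd_sq]
    have := dd_pos hpq
    positivity
  set N := (p.1 - q.1) ^ 2 + (p.2 - q.2) ^ 2 with hNdef
  -- a point w with the same distances: w - x is orthogonal to q - p
  have main : ∀ w : Pl, dd x p ^ 2 = (w.1 - p.1) ^ 2 + (w.2 - p.2) ^ 2 →
      dd x q ^ 2 = (w.1 - q.1) ^ 2 + (w.2 - q.2) ^ 2 → x ≠ w →
      N * (w.1 - x.1) = - 2 * (p.2 - q.2) * ((x.1 - p.1) * (p.2 - q.2) - (x.2 - p.2) * (p.1 - q.1)) ∧
      N * (w.2 - x.2) = 2 * (p.1 - q.1) * ((x.1 - p.1) * (p.2 - q.2) - (x.2 - p.2) * (p.1 - q.1)) := by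
    intro w g1 g2 hw
    have o1 : (w.1 - x.1) * (p.1 - q.1) + (w.2 - x.2) * (p.2 - q.2) = 0 := by
      nlinarith
    set s := (w.1 - x.1) * (p.2 - q.2) - (w.2 - x.2) * (p.1 - q.1) with hs
    have f1 : N * (w.1 - x.1) = s * (p.2 - q.2) := by
      rw [hs, hNdef]
      linear_combination (p.1 - q.1) * o1
    have f2 : N * (w.2 - x.2) = - s * (p.1 - q.1) := by
      rw [hs, hNdef]
      linear_combination (p.2 - q.2) * o1
    -- circle equation
    have f3 : 2 * ((x.1 - p.1) * (w.1 - x.1) + (x.2 - p.2) * (w.2 - x.2)) +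
        ((w.1 - x.1) ^ 2 + (w.2 - x.2) ^ 2) = 0 := by
      linear_combination e1 - g1
    have f4 : s * (s + 2 * ((x.1 - p.1) * (p.2 - q.2) - (x.2 - p.2) * (p.1 - q.1))) = 0 := by
      have f5 : N * (s * (s + 2 * ((x.1 - p.1) * (p.2 - q.2) - (x.2 - p.2) * (p.1 - q.1)))) = 0 := by
        have f6 : N ^ 2 * (2 * ((x.1 - p.1) * (w.1 - x.1) + (x.2 - p.2) * (w.2 - x.2)) +
          ((w.1 - x.1) ^ 2 + (w.2 - x.2) ^ 2)) = 0 := by rw [f3]; ring
        have f7 : N ^ 2 * (2 * ((x.1 - p.1) * (w.1 - x.1) + (x.2 - p.2) * (w.2 - x.2)) +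
          ((w.1 - x.1) ^ 2 + (w.2 - x.2) ^ 2)) =
          N * (2 * ((x.1 - p.1) * (N * (w.1 - x.1)) + (x.2 - p.2) * (N * (w.2 - x.2)))) +
          ((N * (w.1 - x.1)) ^ 2 + (N * (w.2 - x.2)) ^ 2) := by ring
        rw [f7, f1, f2] at f6
        have f8 : (s * (p.2 - q.2)) ^ 2 + (- s * (p.1 - q.1)) ^ 2 = N * s ^ 2 := by
          rw [hNdef]; ring
        rw [f8] at f6
        linear_combination f6
      rcases mul_eq_zero.mp f5 with h | h
      · exact absurd h hN.ne'
      · exact h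
    have hs0 : s ≠ 0 := by
      intro h0
      rw [h0] at f1 f2
      apply hw
      have g1 : w.1 - x.1 = 0 := by
        have : N * (w.1 - x.1) = 0 := by rw [f1]; ring
        rcases mul_eq_zero.mp this with h | h
        · exact absurd h hN.ne'
        · exact h
      have g2 : w.2 - x.2 = 0 := by
        have : N * (w.2 - x.2) = 0 := by rw [f2]; ring
        rcases mul_eq_zero.mp this with h | h
        · exact absurd h hN.ne'
        · exact h
      exact Prod.ext (by linarith) (by linarith)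
    have f5 : s = - 2 * ((x.1 - p.1) * (p.2 - q.2) - (x.2 - p.2) * (p.1 - q.1)) := by
      rcases mul_eq_zero.mp f4 with h | h
      · exact absurd h hs0
      · linarith
    constructor
    · rw [f1, f5]; ring
    · rw [f2, f5]; ring
  obtain ⟨y1, y2⟩ := main y e3 e4 hy
  obtain ⟨z1, z2⟩ := main z e5 e6 hz
  have w1 : N * (y.1 - x.1) = N * (z.1 - x.1) := by rw [y1, z1]
  have w2 : N * (y.2 - x.2) = N * (z.2 - x.2) := by rw [y2, z2]
  have w3 := mul_left_cancel₀ hN.ne' w1
  have w4 := mul_left_cancel₀ hN.ne' w2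
  exact Prod.ext (by linarith) (by linarith)

/-- if the difference is extremal, the point is on the line -/
theorem col_of_eq {x y p : Pl} (h : dd x p = dd y p + dd x y) :
    Col x y p := by
  by_cases hxy : x = y
  · subst hxy
    unfold Col
    ring
  obtain ⟨h1, h2⟩ := vec_of_eq h
  have hC := dd_pos hxy
  unfold Col
  have : dd x y * ((y.1 - x.1) * (p.2 - x.2)) = dd x y * ((y.2 - x.2) * (p.1 - x.1)) := by
    linear_combination (-(y.1 - x.1)) * h2 + (y.2 - x.2) * h1
  exact mul_left_cancel₀ hC.ne' this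

/-- (iii): strict inequality -/
theorem strict {p q x y : Pl} (hxy : x ≠ y) (hx : ¬ Col p q x)
    (h : dd p x + dd q x = dd p y + dd q y) : |dd x p - dd y p| < dd x y := by
  apply lt_of_le_of_ne (abs_sub_le x y p)
  intro heq
  have e1 := dd_comm p x
  have e2 := dd_comm q x
  have e3 := dd_comm p y
  have e4 := dd_comm q y
  have hC := dd_pos hxy
  have aux : ∀ {x y : Pl}, x ≠ y → Col x y p → Col x y q → Col p q x := by
    intro x y hxy h1 h2
    unfold Col at *
    have hN : 0 < (x.1 - y.1) ^ 2 + (x.2 - y.2) ^ 2 := by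
      rw [← dd_sq]
      have := dd_pos hxy
      positivity
    have : ((x.1 - y.1) ^ 2 + (x.2 - y.2) ^ 2) * ((q.1 - p.1) * (x.2 - p.2)) =
        ((x.1 - y.1) ^ 2 + (x.2 - y.2) ^ 2) * ((q.2 - p.2) * (x.1 - p.1)) := by
      -- p - x = s v, q - x = t v
      have a1 : ((x.1 - y.1) ^ 2 + (x.2 - y.2) ^ 2) * (p.1 - x.1) =
          ((y.1 - x.1) * (p.1 - x.1) + (y.2 - x.2) * (p.2 - x.2)) * (y.1 - x.1) := by
        linear_combination (-(y.2 - x.2)) * h1
      have a2 : ((x.1 - y.1) ^ 2 + (x.2 - y.2) ^ 2) * (p.2 - x.2) =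
          ((y.1 - x.1) * (p.1 - x.1) + (y.2 - x.2) * (p.2 - x.2)) * (y.2 - x.2) := by
        linear_combination (y.1 - x.1) * h1
      have b : (y.1 - x.1) * (q.2 - p.2) = (y.2 - x.2) * (q.1 - p.1) := by linarith
      linear_combination (-(q.1 - p.1)) * a2 + (q.2 - p.2) * a1 +
        ((y.1 - x.1) * (p.1 - x.1) + (y.2 - x.2) * (p.2 - x.2)) * b
    exact mul_left_cancel₀ hN.ne' this
  have hcy : ∀ {x y : Pl}, Col y x p → Col x y p := by
    intro x y h
    unfold Col at *
    linarith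
  have hcy' : ∀ {x y : Pl}, Col y x q → Col x y q := by
    intro x y h
    unfold Col at *
    linarith
  rcases abs_choice (dd x p - dd y p) with h1 | h1
  · have hp : dd x p = dd y p + dd x y := by linarith
    have hq : dd y q = dd x q + dd y x := by rw [dd_comm y x]; linarith
    exact hx (aux hxy (col_of_eq hp) (hcy' (col_of_eq hq)))
  · have hp : dd y p = dd x p + dd y x := by rw [dd_comm y x]; linarith
    have hq : dd x q = dd y q + dd x y := by linarith
    exact hx (aux hxy (hcy (col_of_eq hp)) (col_of_eq hq))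

open Classical in
/-- the quadruples of part (ii) -/
noncomputable def W1 (P : Finset Pl) : Finset ((Pl × Pl) × (Pl × Pl)) :=
  (P.offDiag ×ˢ P.offDiag).filter (fun s => ¬ Col s.2.1 s.2.2 s.1.1 ∧ ¬ Col s.2.1 s.2.2 s.1.2 ∧
    dd s.2.1 s.1.1 + dd s.2.2 s.1.1 = dd s.2.1 s.1.2 + dd s.2.2 s.1.2)

open Classical in
/-- the quadruples of part (iii) -/
noncomputable def W2 (P : Finset Pl) : Finset ((Pl × Pl) × (Pl × Pl)) :=
  (P.offDiag ×ˢ (P ×ˢ P)).filter (fun s =>
    dd s.1.1 s.2.1 - dd s.1.2 s.2.1 = dd s.1.1 s.2.2 - dd s.1.2 s.2.2 ∧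
    |dd s.1.1 s.2.1 - dd s.1.2 s.2.1| < dd s.1.1 s.1.2)

open Classical in
theorem stepA (P : Finset Pl) (h9 : 9 ≤ P.card) (ht : 4 * ((perims P).card + 2) ≤ P.card) :
    P.card ^ 4 ≤ 2 * (perims P).card * ((W1 P).card + P.card ^ 3) := by
  set n := P.card with hn
  set t := (perims P).card with htd
  -- the count for one pair
  have one : ∀ s ∈ P.offDiag, 9 * n ^ 2 ≤ 16 * t *
      (((W1 P).filter (fun w => w.2 = s)).card + n) := by
    intro s hs
    obtain ⟨p, q⟩ := s
    rw [Finset.mem_offDiag] at hs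
    obtain ⟨hp, hq, hpq⟩ := hs
    have hp : p ∈ P := hp
    have hq : q ∈ P := hq
    have hpq : p ≠ q := hpq
    set S := P.filter (fun x => ¬ Col p q x) with hS
    have hcard : (P.filter (Col p q)).card + S.card = n :=
      Finset.card_filter_add_card_filter_not (s := P) (Col p q)
    have hl := line_le (P := P) hpq
    have h3 : 3 * n ≤ 4 * S.card := by omega
    have hcs := card_sq_le S (fun x => dd p x + dd q x)
    have him : (S.image (fun x => dd p x + dd q x)).card ≤ t := by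
      rw [htd]
      apply Finset.card_le_card_of_injOn (fun v => dd p q + v)
      · intro v hv
        have hv : v ∈ S.image (fun x => dd p x + dd q x) := hv
        rw [Finset.mem_image] at hv
        obtain ⟨x, hx, rfl⟩ := hv
        rw [hS, Finset.mem_filter] at hx
        have hm : pr p q x ∈ perims P := by
          apply mem_perims hp hq hx.1 hpq
          · rintro rfl
            apply hx.2
            unfold Col
            ring
          · rintro rfl
            apply hx.2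
            unfold Col
            ring
        have : dd p q + (dd p x + dd q x) = pr p q x := by
          unfold pr; ring
        rw [Finset.mem_coe]
        simp only
        rw [this]
        exact hm
      · intro a _ b _ h
        have h : dd p q + a = dd p q + b := h
        linarith
    have hE : ((S ×ˢ S).filter (fun s => dd p s.1 + dd q s.1 = dd p s.2 + dd q s.2)).card ≤
        ((W1 P).filter (fun w => w.2 = (p, q))).card + n := by
      have hsub : (S ×ˢ S).filter (fun s => dd p s.1 + dd q s.1 = dd p s.2 + dd q s.2) ⊆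
          ((W1 P).filter (fun w => w.2 = (p, q))).image (fun w => w.1) ∪
          P.image (fun x => (x, x)) := by
        rintro ⟨x, y⟩ hxy
        rw [Finset.mem_filter, Finset.mem_product] at hxy
        obtain ⟨⟨hx, hy⟩, he⟩ := hxy
        simp only at hx hy he
        rw [hS, Finset.mem_filter] at hx hy
        rw [Finset.mem_union, Finset.mem_image, Finset.mem_image]
        by_cases hxy : x = y
        · right
          exact ⟨x, hx.1, by rw [hxy]⟩
        · left
          refine ⟨((x, y), (p, q)), ?_, rfl⟩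
          unfold W1
          rw [Finset.mem_filter, Finset.mem_filter, Finset.mem_product, Finset.mem_offDiag,
            Finset.mem_offDiag]
          exact ⟨⟨⟨⟨hx.1, hy.1, hxy⟩, ⟨hp, hq, hpq⟩⟩, hx.2, hy.2, he⟩, rfl⟩
      calc _ ≤ _ := Finset.card_le_card hsub
        _ ≤ _ := Finset.card_union_le _ _
        _ ≤ _ := Nat.add_le_add Finset.card_image_le Finset.card_image_le
    have h5 : S.card ^ 2 ≤ t * (((W1 P).filter (fun w => w.2 = (p, q))).card + n) :=
      le_trans hcs (Nat.mul_le_mul him hE)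
    nlinarith
  have hsum : (P.offDiag).card * (9 * n ^ 2) ≤ ∑ s ∈ P.offDiag, 16 * t *
      (((W1 P).filter (fun w => w.2 = s)).card + n) := by
    rw [← smul_eq_mul, ← Finset.sum_const]
    exact Finset.sum_le_sum one
  have hW : (W1 P).card = ∑ s ∈ P.offDiag, ((W1 P).filter (fun w => w.2 = s)).card := by
    apply Finset.card_eq_sum_card_fiberwise
    intro w hw
    have hw : w ∈ W1 P := hw
    unfold W1 at hw
    rw [Finset.mem_filter, Finset.mem_product] at hw
    exact Finset.mem_coe.mpr hw.1.2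
  rw [← Finset.mul_sum, Finset.sum_add_distrib, ← hW, Finset.sum_const, smul_eq_mul,
    Finset.offDiag_card, ← hn] at hsum
  have hnn : n * n - n = n * (n - 1) := by
    rw [Nat.mul_sub_one]
  rw [hnn] at hsum
  obtain ⟨m, hm⟩ : ∃ m, n = m + 1 := ⟨n - 1, by omega⟩
  have hm8 : 8 ≤ m := by omega
  have hm1 : n - 1 = m := by omega
  rw [hm1] at hsum
  have k1 : 8 * n ^ 4 ≤ n * m * (9 * n ^ 2) := by
    have : 8 * n ≤ 9 * m := by omega
    calc 8 * n ^ 4 = n ^ 3 * (8 * n) := by ring
      _ ≤ n ^ 3 * (9 * m) := Nat.mul_le_mul_left _ this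
      _ = n * m * (9 * n ^ 2) := by ring
  have k2 : n * m * n ≤ n ^ 3 := by
    have : m ≤ n := by omega
    calc n * m * n ≤ n * n * n := by gcongr
      _ = n ^ 3 := by ring
  have k3 : 16 * t * ((W1 P).card + n * m * n) ≤ 16 * t * ((W1 P).card + n ^ 3) := by
    gcongr
  have k4 : 8 * n ^ 4 ≤ 8 * (2 * t * ((W1 P).card + n ^ 3)) := by
    calc 8 * n ^ 4 ≤ _ := k1
      _ ≤ _ := hsum
      _ ≤ _ := k3
      _ = _ := by ring
  omega

open Classical in
theorem stepB (P : Finset Pl) : (W1 P).card ≤ (W2 P).card := by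
  have h1 : (W1 P).card = ∑ s ∈ P.offDiag, ((W1 P).filter (fun w => w.1 = s)).card := by
    apply Finset.card_eq_sum_card_fiberwise
    intro w hw
    have hw : w ∈ W1 P := hw
    unfold W1 at hw
    rw [Finset.mem_filter, Finset.mem_product] at hw
    exact Finset.mem_coe.mpr hw.1.1
  have h2 : (W2 P).card = ∑ s ∈ P.offDiag, ((W2 P).filter (fun w => w.1 = s)).card := by
    apply Finset.card_eq_sum_card_fiberwise
    intro w hw
    have hw : w ∈ W2 P := hw
    unfold W2 at hw
    rw [Finset.mem_filter, Finset.mem_product] at hw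
    exact Finset.mem_coe.mpr hw.1.1
  rw [h1, h2]
  apply Finset.sum_le_sum
  rintro ⟨x, y⟩ hs
  rw [Finset.mem_offDiag] at hs
  obtain ⟨hx, hy, hxy⟩ := hs
  simp only at hx hy hxy
  set g : Pl → ℝ := fun p => dd x p - dd y p with hg
  set Q := P.filter (fun p => |g p| < dd x y) with hQ
  have i1 : ((W1 P).filter (fun w => w.1 = (x, y))).card ≤
      ((Q ×ˢ Q).filter (fun s => g s.1 = - g s.2)).card := by
    apply Finset.card_le_card_of_injOn (fun w => w.2)
    · rintro ⟨a, ⟨p, q⟩⟩ hw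
      have hw : (a, (p, q)) ∈ (W1 P).filter (fun w => w.1 = (x, y)) := hw
      unfold W1 at hw
      rw [Finset.mem_filter, Finset.mem_filter, Finset.mem_product, Finset.mem_offDiag,
        Finset.mem_offDiag] at hw
      obtain ⟨⟨⟨_, ⟨hp, hq, hpq⟩⟩, hc1, hc2, he⟩, ha⟩ := hw
      simp only at hp hq hpq hc1 hc2 he ha
      subst ha
      simp only at hc1 hc2 he
      have s1 := strict hxy hc1 he
      have hc1' : ¬ Col q p x := by
        intro h
        apply hc1
        unfold Col at *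
        linarith
      have he' : dd q x + dd p x = dd q y + dd p y := by linarith
      have s2 := strict hxy hc1' he'
      rw [Finset.mem_coe, Finset.mem_filter, Finset.mem_product, hQ, Finset.mem_filter,
        Finset.mem_filter]
      refine ⟨⟨⟨hp, s1⟩, ⟨hq, s2⟩⟩, ?_⟩
      simp only [hg]
      rw [dd_comm x p, dd_comm y p, dd_comm x q, dd_comm y q]
      linarith
    · rintro ⟨a, b⟩ h1 ⟨a', b'⟩ h2 h3
      have h1 : (a, b) ∈ (W1 P).filter (fun w => w.1 = (x, y)) := h1
      have h2 : (a', b') ∈ (W1 P).filter (fun w => w.1 = (x, y)) := h2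
      rw [Finset.mem_filter] at h1 h2
      have h3 : b = b' := h3
      have h4 : a = (x, y) := h1.2
      have h5 : a' = (x, y) := h2.2
      rw [h3, h4, h5]
  have i2 := neg_le Q g
  have i3 : ((Q ×ˢ Q).filter (fun s => g s.1 = g s.2)).card ≤
      ((W2 P).filter (fun w => w.1 = (x, y))).card := by
    apply Finset.card_le_card_of_injOn (fun w => ((x, y), w))
    · rintro ⟨p, q⟩ hw
      have hw : (p, q) ∈ (Q ×ˢ Q).filter (fun s => g s.1 = g s.2) := hw
      rw [Finset.mem_filter, Finset.mem_product, hQ, Finset.mem_filter,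
        Finset.mem_filter] at hw
      obtain ⟨⟨⟨hp, hp'⟩, ⟨hq, hq'⟩⟩, he⟩ := hw
      unfold W2
      rw [Finset.mem_coe, Finset.mem_filter, Finset.mem_filter, Finset.mem_product,
        Finset.mem_product, Finset.mem_offDiag]
      exact ⟨⟨⟨⟨hx, hy, hxy⟩, ⟨hp, hq⟩⟩, he, hp'⟩, rfl⟩
    · intro a _ b _ h
      exact (Prod.ext_iff.mp h).2
  exact le_trans i1 (le_trans i2 i3)

open Classical in
theorem stepC (hs : SYM) (P : Finset Pl) :
    (W2 P).card ≤ NN P (fun _ => 0) (fun _ => 0) + 3 * P.card ^ 3 := by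
  set n := P.card with hn
  have hn3 : (P ×ˢ P ×ˢ P).card = n ^ 3 := by
    rw [Finset.card_product, Finset.card_product, ← hn]; ring
  set A1 := (W2 P).filter (fun s => s.2.1 = s.2.2) with hA1
  set A2 := (W2 P).filter (fun s => s.2.1 ≠ s.2.2 ∧ dd s.1.1 s.2.1 = dd s.1.2 s.2.1) with hA2
  set A3 := (W2 P).filter (fun s => s.2.1 ≠ s.2.2 ∧ dd s.1.1 s.2.1 = dd s.1.1 s.2.2) with hA3
  set N := (P.offDiag ×ˢ P.offDiag).filter (fun s =>
    (fun _ => 0 : Pl → ℕ) s.1.1 = (fun _ => 0 : Pl → ℕ) s.1.2 ∧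
    (fun _ => 0 : Pl → ℕ) s.2.1 = (fun _ => 0 : Pl → ℕ) s.2.2 ∧
    Rel s.2.1 s.2.2 s.1.1 s.1.2) with hN
  have memW : ∀ s ∈ W2 P, s.1.1 ∈ P ∧ s.1.2 ∈ P ∧ s.1.1 ≠ s.1.2 ∧ s.2.1 ∈ P ∧ s.2.2 ∈ P ∧
      dd s.1.1 s.2.1 - dd s.1.2 s.2.1 = dd s.1.1 s.2.2 - dd s.1.2 s.2.2 ∧
      |dd s.1.1 s.2.1 - dd s.1.2 s.2.1| < dd s.1.1 s.1.2 := by
    intro s h
    unfold W2 at h
    rw [Finset.mem_filter, Finset.mem_product, Finset.mem_product, Finset.mem_offDiag] at h
    exact ⟨h.1.1.1, h.1.1.2.1, h.1.1.2.2, h.1.2.1, h.1.2.2, h.2.1, h.2.2⟩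
  have hsub : W2 P ⊆ N ∪ (A1 ∪ (A2 ∪ A3)) := by
    intro s h
    obtain ⟨h1, h2, h3, h4, h5, h6, h7⟩ := memW s h
    rw [Finset.mem_union, Finset.mem_union, Finset.mem_union]
    by_cases c1 : s.2.1 = s.2.2
    · right; left
      rw [hA1, Finset.mem_filter]
      exact ⟨h, c1⟩
    by_cases c2 : dd s.1.1 s.2.1 = dd s.1.2 s.2.1
    · right; right; left
      rw [hA2, Finset.mem_filter]
      exact ⟨h, c1, c2⟩
    by_cases c3 : dd s.1.1 s.2.1 = dd s.1.1 s.2.2
    · right; right; right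
      rw [hA3, Finset.mem_filter]
      exact ⟨h, c1, c3⟩
    left
    rw [hN, Finset.mem_filter, Finset.mem_product, Finset.mem_offDiag, Finset.mem_offDiag]
    refine ⟨⟨⟨h1, h2, h3⟩, ⟨h4, h5, c1⟩⟩, rfl, rfl, ?_⟩
    apply hs
    refine ⟨c1, h6, ⟨?_, h7⟩, c3⟩
    intro h0
    apply c2
    linarith
  have c1 : A1.card ≤ n ^ 3 := by
    rw [← hn3]
    apply Finset.card_le_card_of_injOn (fun s => (s.1.1, s.1.2, s.2.1))
    · intro s h
      have h : s ∈ A1 := h
      rw [hA1, Finset.mem_filter] at h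
      obtain ⟨h1, h2, h3, h4, h5, h6, h7⟩ := memW s h.1
      rw [Finset.mem_coe, Finset.mem_product, Finset.mem_product]
      exact ⟨h1, h2, h4⟩
    · intro s h s' h' he
      have h : s ∈ A1 := h
      have h' : s' ∈ A1 := h'
      rw [hA1, Finset.mem_filter] at h h'
      have he : (s.1.1, s.1.2, s.2.1) = (s'.1.1, s'.1.2, s'.2.1) := he
      obtain ⟨e1, e2⟩ := Prod.mk.injEq .. ▸ he
      obtain ⟨e2, e3⟩ := Prod.mk.injEq .. ▸ e2
      have e4 : s.2.2 = s'.2.2 := by rw [← h.2, ← h'.2, e3]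
      exact Prod.ext (Prod.ext e1 e2) (Prod.ext e3 e4)
  have c2 : A2.card ≤ n ^ 3 := by
    rw [← hn3]
    apply Finset.card_le_card_of_injOn (fun s => (s.1.1, s.2.1, s.2.2))
    · intro s h
      have h : s ∈ A2 := h
      rw [hA2, Finset.mem_filter] at h
      obtain ⟨h1, h2, h3, h4, h5, h6, h7⟩ := memW s h.1
      rw [Finset.mem_coe, Finset.mem_product, Finset.mem_product]
      exact ⟨h1, h4, h5⟩
    · intro s h s' h' he
      have h : s ∈ A2 := h
      have h' : s' ∈ A2 := h'
      rw [hA2, Finset.mem_filter] at h h'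
      obtain ⟨a1, a2, a3, a4, a5, a6, a7⟩ := memW s h.1
      obtain ⟨b1, b2, b3, b4, b5, b6, b7⟩ := memW s' h'.1
      have he : (s.1.1, s.2.1, s.2.2) = (s'.1.1, s'.2.1, s'.2.2) := he
      obtain ⟨e1, e2⟩ := Prod.mk.injEq .. ▸ he
      obtain ⟨e2, e3⟩ := Prod.mk.injEq .. ▸ e2
      have f1 := h.2.2
      have f2 := h'.2.2
      have f3 : dd s.1.1 s.2.2 = dd s.1.2 s.2.2 := by linarith
      have f4 : dd s'.1.1 s'.2.2 = dd s'.1.2 s'.2.2 := by linarith
      rw [← e1] at f2 f4 b3
      rw [← e2] at f2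
      rw [← e3] at f4
      have e4 : s.1.2 = s'.1.2 := mirror h.2.1 f1 f3 f2 f4 a3 b3
      exact Prod.ext (Prod.ext e1 e4) (Prod.ext e2 e3)
  have c3 : A3.card ≤ n ^ 3 := by
    rw [← hn3]
    apply Finset.card_le_card_of_injOn (fun s => (s.1.1, s.1.2, s.2.1))
    · intro s h
      have h : s ∈ A3 := h
      rw [hA3, Finset.mem_filter] at h
      obtain ⟨h1, h2, h3, h4, h5, h6, h7⟩ := memW s h.1
      rw [Finset.mem_coe, Finset.mem_product, Finset.mem_product]
      exact ⟨h1, h2, h4⟩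
    · intro s h s' h' he
      have h : s ∈ A3 := h
      have h' : s' ∈ A3 := h'
      rw [hA3, Finset.mem_filter] at h h'
      obtain ⟨a1, a2, a3, a4, a5, a6, a7⟩ := memW s h.1
      obtain ⟨b1, b2, b3, b4, b5, b6, b7⟩ := memW s' h'.1
      have he : (s.1.1, s.1.2, s.2.1) = (s'.1.1, s'.1.2, s'.2.1) := he
      obtain ⟨e1, e2⟩ := Prod.mk.injEq .. ▸ he
      obtain ⟨e2, e3⟩ := Prod.mk.injEq .. ▸ e2
      have f1 := h.2.2
      have f2 := h'.2.2
      have f3 : dd s.1.2 s.2.1 = dd s.1.2 s.2.2 := by linarith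
      have f4 : dd s'.1.2 s'.2.1 = dd s'.1.2 s'.2.2 := by linarith
      have hne := h'.2.1
      rw [← e1] at f2
      rw [← e2] at f4
      rw [← e3] at f2 f4 hne
      rw [dd_comm s.1.1 s.2.1, dd_comm s.1.1 s.2.2] at f1
      rw [dd_comm s.1.2 s.2.1, dd_comm s.1.2 s.2.2] at f3
      rw [dd_comm s.1.1 s.2.1, dd_comm s.1.1 s'.2.2] at f2
      rw [dd_comm s.1.2 s.2.1, dd_comm s.1.2 s'.2.2] at f4
      have e4 : s.2.2 = s'.2.2 := mirror a3 f1 f3 f2 f4 h.2.1 hne
      exact Prod.ext (Prod.ext e1 e2) (Prod.ext e3 e4)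
  have hNN : NN P (fun _ => 0) (fun _ => 0) = N.card := by
    rw [hN]
    unfold NN
    rfl
  rw [hNN]
  calc (W2 P).card ≤ (N ∪ (A1 ∪ (A2 ∪ A3))).card := Finset.card_le_card hsub
    _ ≤ N.card + (A1.card + (A2.card + A3.card)) := by
        refine le_trans (Finset.card_union_le _ _) (Nat.add_le_add_left ?_ _)
        refine le_trans (Finset.card_union_le _ _) (Nat.add_le_add_left ?_ _)
        exact Finset.card_union_le _ _
    _ ≤ N.card + 3 * n ^ 3 := by omega

/-- MODULE START -/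
theorem start (hs : SYM) : START := by
  intro P h9 ht
  have a := stepA P h9 ht
  have b := stepB P
  have c := stepC hs P
  refine le_trans a ?_
  apply Nat.mul_le_mul_left
  omega

/-- MODULE START without hypothesis -/
theorem start' : START := start sym

end Pool.Agent.H49.Per
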