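import Mathlib

/-!
Definitions: `(ℓ,k,d)`-sets and self-similar sets.
-/

namespace Pool.Agent.H49.SS

open Set Topology

variable {d : ℕ}

/-- The unit cube `[0,1]^d` in Euclidean space. -/
def cube (d : ℕ) : Set (EuclideanSpace ℝ (Fin d)) := {x | ∀ i, 0 ≤ x i ∧ x i ≤ 1}

/-- The `ℓ`-fold sumset of `K`. -/
def sumset (ℓ : ℕ) (K : Set (EuclideanSpace ℝ (Fin d))) : Set (EuclideanSpace ℝ (Fin d)) :=
  {x | ∃ y : Fin ℓ → EuclideanSpace ℝ (Fin d), (∀ j, y j ∈ K) ∧ ∑ j, y j = x}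

/-- `K` is an `(ℓ,k,d)`-set: a compact subset of the cube that meets each `k`-dimensional affine
subspace meeting the cube, with nowhere dense `ℓ`-fold sumset. -/
def IsLKDSet (ℓ k d : ℕ) (K : Set (EuclideanSpace ℝ (Fin d))) : Prop :=
  IsCompact K ∧ K ⊆ cube d ∧
  (∀ P : AffineSubspace ℝ (EuclideanSpace ℝ (Fin d)), Module.finrank ℝ P.direction = k →
    ((P : Set (EuclideanSpace ℝ (Fin d))) ∩ cube d).Nonempty →
    ((P : Set (EuclideanSpace ℝ (Fin d))) ∩ K).Nonempty) ∧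
  IsNowhereDense (sumset ℓ K)

/-- `K` is self-similar: nonempty, compact and the union of its images under finitely many
contracting similarities. -/
def IsSelfSimilar (K : Set (EuclideanSpace ℝ (Fin d))) : Prop :=
  K.Nonempty ∧ IsCompact K ∧
  ∃ (m : ℕ) (f : Fin m → EuclideanSpace ℝ (Fin d) → EuclideanSpace ℝ (Fin d)) (r : Fin m → ℝ),
    (∀ i, 0 < r i ∧ r i < 1) ∧ (∀ i x y, dist (f i x) (f i y) = r i * dist x y) ∧
    K = ⋃ i, f i '' K

end Pool.Agent.H49.SS
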