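import Mathlib
import Pool.Agent.H49.SSDefs

namespace Pool.Agent.H49.SS

open Set Topology Pointwise

variable {d : ℕ}

/-- the integer lattice -/
def lattice (d : ℕ) : Set (EuclideanSpace ℝ (Fin d)) := {x | ∀ i, ∃ n : ℤ, x i = n}

theorem add_mem_lattice {x y : EuclideanSpace ℝ (Fin d)} (hx : x ∈ lattice d)
    (hy : y ∈ lattice d) : x + y ∈ lattice d := by
  intro i
  obtain ⟨m, hm⟩ := hx i
  obtain ⟨n, hn⟩ := hy i
  exact ⟨m + n, by rw [PiLp.add_apply, hm, hn]; push_cast; rfl⟩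

theorem neg_mem_lattice {x : EuclideanSpace ℝ (Fin d)} (hx : x ∈ lattice d) : -x ∈ lattice d := by
  intro i
  obtain ⟨m, hm⟩ := hx i
  exact ⟨-m, by rw [PiLp.neg_apply, hm]; push_cast; rfl⟩

theorem nsmul_mem_lattice {x : EuclideanSpace ℝ (Fin d)} (hx : x ∈ lattice d) (N : ℕ) :
    (N : ℝ) • x ∈ lattice d := by
  intro i
  obtain ⟨m, hm⟩ := hx i
  exact ⟨N * m, by rw [PiLp.smul_apply, hm, smul_eq_mul]; push_cast; rfl⟩

theorem sum_mem_lattice {ℓ : ℕ} {v : Fin ℓ → EuclideanSpace ℝ (Fin d)}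
    (hv : ∀ j, v j ∈ lattice d) : ∑ j, v j ∈ lattice d := by
  intro i
  choose n hn using fun j => hv j i
  refine ⟨∑ j, n j, ?_⟩
  rw [WithLp.ofLp_sum, Finset.sum_apply]
  push_cast
  exact Finset.sum_congr rfl fun j _ => hn j

theorem isClosed_lattice : IsClosed (lattice d) := by
  have : lattice d = ⋂ i, (fun x : EuclideanSpace ℝ (Fin d) => x i) ⁻¹' (range ((↑) : ℤ → ℝ)) := by
    ext x
    simp only [lattice, mem_ofPred_eq, mem_iInter, mem_preimage, mem_range]
    constructor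
    · intro h i
      obtain ⟨n, hn⟩ := h i
      exact ⟨n, hn.symm⟩
    · intro h i
      obtain ⟨n, hn⟩ := h i
      exact ⟨n, hn.symm⟩
  rw [this]
  refine isClosed_iInter fun i => ?_
  refine Int.isClosedEmbedding_coe_real.isClosed_range.preimage ?_
  fun_prop

theorem countable_lattice : (lattice d).Countable := by
  have : lattice d ⊆ range fun n : Fin d → ℤ => (WithLp.toLp 2 fun i => (n i : ℝ)) := by
    intro x hx
    choose n hn using hx
    refine ⟨n, ?_⟩
    ext i
    exact (hn i).symm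
  exact (countable_range _).mono this

theorem isCompact_cube : IsCompact (cube d) := by
  have h : cube d = (WithLp.toLp 2) '' (Icc (0 : Fin d → ℝ) 1) := by
    ext x
    constructor
    · intro hx
      exact ⟨fun i => x i, ⟨fun i => (hx i).1, fun i => (hx i).2⟩, rfl⟩
    · rintro ⟨y, hy, rfl⟩ i
      exact ⟨hy.1 i, hy.2 i⟩
  rw [h]
  exact isCompact_Icc.image (PiLp.continuous_toLp 2 _)

theorem isCompact_sumset {ℓ : ℕ} {K : Set (EuclideanSpace ℝ (Fin d))} (hK : IsCompact K) :
    IsCompact (sumset ℓ K) := by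
  have h : sumset ℓ K = (fun y : Fin ℓ → EuclideanSpace ℝ (Fin d) => ∑ j, y j) ''
      (univ.pi fun _ => K) := by
    ext x
    simp [sumset, mem_pi]
  rw [h]
  refine (isCompact_univ_pi fun _ => hK).image ?_
  fun_prop

/-- the contraction with digit `a`. -/
noncomputable def con (N : ℕ) (a : Fin d → Fin N) (x : EuclideanSpace ℝ (Fin d)) :
    EuclideanSpace ℝ (Fin d) :=
  (N : ℝ)⁻¹ • (x + WithLp.toLp 2 fun i => ((a i : ℕ) : ℝ))

theorem con_apply (N : ℕ) (a : Fin d → Fin N) (x : EuclideanSpace ℝ (Fin d)) (i : Fin d) :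
    con N a x i = (N : ℝ)⁻¹ * (x i + (a i : ℕ)) := by
  simp [con, mul_add]

theorem continuous_con (N : ℕ) (a : Fin d → Fin N) : Continuous (con N a) := by
  unfold con
  fun_prop

theorem dist_con (N : ℕ) (a : Fin d → Fin N) (x y : EuclideanSpace ℝ (Fin d)) :
    dist (con N a x) (con N a y) = (N : ℝ)⁻¹ * dist x y := by
  unfold con
  rw [dist_smul₀, dist_add_right, Real.norm_eq_abs, abs_of_nonneg (by positivity)]

theorem con_injective {N : ℕ} (hN : 0 < N) (a : Fin d → Fin N) : Function.Injective (con N a) := by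
  intro x y h
  have h1 := dist_con N a x y
  rw [h, dist_self] at h1
  have h2 : (0 : ℝ) < (N : ℝ)⁻¹ := by positivity
  have h3 : dist x y = 0 := by
    rcases mul_eq_zero.mp h1.symm with h | h
    · exact absurd h h2.ne'
    · exact h
  exact dist_eq_zero.mp h3

theorem con_mem_cube {N : ℕ} (a : Fin d → Fin N) {x : EuclideanSpace ℝ (Fin d)}
    (hx : x ∈ cube d) : con N a x ∈ cube d := by
  intro i
  rw [con_apply]
  have h1 := hx i
  have h3 : (a i : ℕ) + 1 ≤ N := (a i).2
  have h4 : ((a i : ℕ) : ℝ) + 1 ≤ N := by exact_mod_cast h3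
  have h5 : (0 : ℝ) < N := by
    have : (0 : ℝ) ≤ ((a i : ℕ) : ℝ) := by positivity
    linarith
  constructor
  · have := h1.1
    positivity
  · rw [inv_mul_le_iff₀ h5]
    linarith [h1.2]

/-- each point of the cube lies in some image of the cube. -/
theorem exists_digit {N : ℕ} (hN : 0 < N) {x : EuclideanSpace ℝ (Fin d)} (hx : x ∈ cube d) :
    ∃ a : Fin d → Fin N, ∃ y ∈ cube d, con N a y = x := by
  have hN' : (0 : ℝ) < N := by exact_mod_cast hN
  have key : ∀ i, ∃ m : Fin N, ((m : ℕ) : ℝ) ≤ N * x i ∧ N * x i ≤ (m : ℕ) + 1 := by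
    intro i
    have h0 : 0 ≤ N * x i := mul_nonneg hN'.le (hx i).1
    by_cases h : ⌊(N : ℝ) * x i⌋₊ < N
    · exact ⟨⟨⌊(N : ℝ) * x i⌋₊, h⟩, Nat.floor_le h0, (Nat.lt_floor_add_one _).le⟩
    · push Not at h
      refine ⟨⟨N - 1, by omega⟩, ?_, ?_⟩
      · have h1 : ((N - 1 : ℕ) : ℝ) ≤ (N : ℝ) := by exact_mod_cast Nat.sub_le N 1
        have h2 : (N : ℝ) ≤ N * x i := (Nat.le_floor_iff h0).mp h
        exact h1.trans h2
      · have h1 : (((N - 1 : ℕ) : ℕ) : ℝ) + 1 = N := by
          have : N - 1 + 1 = N := by omega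
          exact_mod_cast this
        have h2 : N * x i ≤ N * 1 := mul_le_mul_of_nonneg_left (hx i).2 hN'.le
        simp only
        rw [h1]
        linarith
  choose a ha using key
  refine ⟨a, WithLp.toLp 2 fun i => N * x i - (a i : ℕ), ?_, ?_⟩
  · intro i
    constructor
    · simp only
      linarith [(ha i).1]
    · simp only
      linarith [(ha i).2]
  · ext i
    rw [con_apply]
    simp only
    field_simp
    ring

section construction

variable (K : Set (EuclideanSpace ℝ (Fin d))) (N : ℕ)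

/-- the digits whose cube meets `K`. -/
def digits : Set (Fin d → Fin N) := {a | (K ∩ con N a '' cube d).Nonempty}

/-- the level sets of the construction. -/
noncomputable def lev : ℕ → Set (EuclideanSpace ℝ (Fin d))
  | 0 => cube d
  | m + 1 => ⋃ a ∈ digits K N, con N a '' lev m

/-- the limit set. -/
noncomputable def lim : Set (EuclideanSpace ℝ (Fin d)) := ⋂ m, lev K N m

theorem isCompact_lev (m : ℕ) : IsCompact (lev K N m) := by
  induction m with
  | zero => exact isCompact_cube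
  | succ m ih =>
    exact (Set.toFinite (digits K N)).isCompact_biUnion fun a _ => ih.image (continuous_con N a)

theorem lev_succ_subset (m : ℕ) : lev K N (m + 1) ⊆ lev K N m := by
  induction m with
  | zero =>
    intro x hx
    simp only [lev, mem_iUnion, mem_image] at hx
    obtain ⟨a, _, y, hy, rfl⟩ := hx
    exact con_mem_cube a hy
  | succ m ih =>
    intro x hx
    rw [lev] at hx ⊢
    simp only [mem_iUnion] at hx ⊢
    obtain ⟨a, ha, hx⟩ := hx
    exact ⟨a, ha, image_mono ih hx⟩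

theorem lev_antitone : Antitone (lev K N) := antitone_nat_of_succ_le (lev_succ_subset K N)

theorem isCompact_lim : IsCompact (lim K N) :=
  (isCompact_lev K N 0).of_isClosed_subset
    (isClosed_iInter fun m => (isCompact_lev K N m).isClosed) (iInter_subset _ 0)

theorem lim_subset_cube : lim K N ⊆ cube d := iInter_subset _ 0

theorem con_image_lim_subset {a : Fin d → Fin N} (ha : a ∈ digits K N) :
    con N a '' lim K N ⊆ lim K N := by
  rintro _ ⟨y, hy, rfl⟩
  rw [lim, mem_iInter] at hy ⊢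
  intro m
  refine lev_succ_subset K N m ?_
  rw [lev]
  simp only [mem_iUnion]
  exact ⟨a, ha, mem_image_of_mem _ (hy m)⟩

theorem lim_subset (hN : 0 < N) : lim K N ⊆ ⋃ a ∈ digits K N, con N a '' lim K N := by
  intro x hx
  rw [lim, mem_iInter] at hx
  have h1 : ∀ m, ∃ a : Fin d → Fin N, a ∈ digits K N ∧ x ∈ con N a '' lev K N m := by
    intro m
    have := hx (m + 1)
    rw [lev] at this
    simp only [mem_iUnion] at this
    obtain ⟨a, ha, h⟩ := this
    exact ⟨a, ha, h⟩
  choose A hA1 hA2 using h1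
  -- a digit occurring infinitely often
  obtain ⟨a, ha⟩ : ∃ a, (A ⁻¹' {a}).Infinite := by
    obtain ⟨a, ha⟩ := Finite.exists_infinite_fiber A
    exact ⟨a, Set.infinite_coe_iff.mp ha⟩
  have haD : a ∈ digits K N := by
    obtain ⟨m, hm⟩ := ha.nonempty
    have hm' : A m = a := hm
    exact hm' ▸ hA1 m
  obtain ⟨m0, hm0⟩ := ha.nonempty
  have hm0' : A m0 = a := hm0
  obtain ⟨y, -, hyx⟩ := hA2 m0
  rw [hm0'] at hyx
  simp only [mem_iUnion]
  refine ⟨a, haD, y, ?_, hyx⟩
  rw [lim, mem_iInter]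
  intro m
  obtain ⟨n, hn, hmn⟩ := ha.exists_gt m
  have hn' : A n = a := hn
  obtain ⟨y', hy', hyx'⟩ := hA2 n
  rw [hn'] at hyx'
  have : y' = y := con_injective hN a (hyx'.trans hyx.symm)
  rw [← this]
  exact lev_antitone K N hmn.le hy'

theorem lim_eq (hN : 0 < N) : lim K N = ⋃ a ∈ digits K N, con N a '' lim K N :=
  Subset.antisymm (lim_subset K N hN) (iUnion₂_subset fun _ ha => con_image_lim_subset K N ha)

/-- every `k`-plane meeting the cube meets each level set. -/
theorem meets_lev {k : ℕ} (hN : 0 < N) (hKc : K ⊆ cube d)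
    (hK : ∀ P : AffineSubspace ℝ (EuclideanSpace ℝ (Fin d)), Module.finrank ℝ P.direction = k →
      ((P : Set (EuclideanSpace ℝ (Fin d))) ∩ cube d).Nonempty →
      ((P : Set (EuclideanSpace ℝ (Fin d))) ∩ K).Nonempty) (m : ℕ) :
    ∀ P : AffineSubspace ℝ (EuclideanSpace ℝ (Fin d)), Module.finrank ℝ P.direction = k →
      ((P : Set (EuclideanSpace ℝ (Fin d))) ∩ cube d).Nonempty →
      ((P : Set (EuclideanSpace ℝ (Fin d))) ∩ lev K N m).Nonempty := by
  induction m with
  | zero => intro P _ h; exact h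
  | succ m ih =>
    intro P hP hPc
    obtain ⟨x, hxP, hxK⟩ := hK P hP hPc
    obtain ⟨a, y, hy, hyx⟩ := exists_digit hN (hKc hxK)
    -- the preimage plane
    let P' : AffineSubspace ℝ (EuclideanSpace ℝ (Fin d)) := AffineSubspace.mk' y P.direction
    have hN0 : (N : ℝ) ≠ 0 := by exact_mod_cast hN.ne'
    have hmem : ∀ z ∈ P', con N a z ∈ P := by
      intro z hz
      rw [AffineSubspace.mem_mk'] at hz
      have h1 : con N a z = ((N : ℝ)⁻¹ • (z -ᵥ y)) +ᵥ x := by
        rw [← hyx]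
        simp only [con, vsub_eq_sub, vadd_eq_add]
        module
      rw [h1]
      exact AffineSubspace.vadd_mem_of_mem_direction (P.direction.smul_mem _ hz) hxP
    have h2 : Module.finrank ℝ P'.direction = k := by
      rw [AffineSubspace.direction_mk']; exact hP
    obtain ⟨z, hz, hzl⟩ := ih P' h2 ⟨y, AffineSubspace.self_mem_mk' y P.direction, hy⟩
    refine ⟨con N a z, hmem z hz, ?_⟩
    rw [lev]
    simp only [mem_iUnion]
    exact ⟨a, ⟨x, hxK, y, hy, hyx⟩, mem_image_of_mem _ hzl⟩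

theorem meets_lim {k : ℕ} (hN : 0 < N) (hKc : K ⊆ cube d)
    (hK : ∀ P : AffineSubspace ℝ (EuclideanSpace ℝ (Fin d)), Module.finrank ℝ P.direction = k →
      ((P : Set (EuclideanSpace ℝ (Fin d))) ∩ cube d).Nonempty →
      ((P : Set (EuclideanSpace ℝ (Fin d))) ∩ K).Nonempty)
    (P : AffineSubspace ℝ (EuclideanSpace ℝ (Fin d))) (hP : Module.finrank ℝ P.direction = k)
    (hPc : ((P : Set (EuclideanSpace ℝ (Fin d))) ∩ cube d).Nonempty) :
    ((P : Set (EuclideanSpace ℝ (Fin d))) ∩ lim K N).Nonempty := by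
  have hcl : IsClosed (P : Set (EuclideanSpace ℝ (Fin d))) := by
    apply AffineSubspace.closed_of_finiteDimensional
  rw [lim, inter_iInter]
  refine IsCompact.nonempty_iInter_of_sequence_nonempty_isCompact_isClosed _ ?_ ?_ ?_ ?_
  · intro m
    exact inter_subset_inter_right _ (lev_succ_subset K N m)
  · intro m
    exact meets_lev K N hN hKc hK m P hP hPc
  · exact (isCompact_lev K N 0).inter_left hcl
  · intro m
    exact hcl.inter (isCompact_lev K N m).isClosed

/-- scaling the limit set by `N` stays inside its integer translates -/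
theorem nsmul_mem_lim (hN : 0 < N) {x : EuclideanSpace ℝ (Fin d)} (hx : x ∈ lim K N) :
    ∃ y ∈ lim K N, ∃ v ∈ lattice d, (N : ℝ) • x = y + v := by
  have h := lim_subset K N hN hx
  simp only [mem_iUnion] at h
  obtain ⟨a, -, y, hy, rfl⟩ := h
  refine ⟨y, hy, WithLp.toLp 2 fun i => ((a i : ℕ) : ℝ), fun i => ⟨((a i : ℕ) : ℤ), by simp⟩, ?_⟩
  have hN0 : (N : ℝ) ≠ 0 := by exact_mod_cast hN.ne'
  rw [con, smul_smul, mul_inv_cancel₀ hN0, one_smul]

theorem nsmul_mem_sumset (hN : 0 < N) {ℓ : ℕ} {x : EuclideanSpace ℝ (Fin d)}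
    (hx : x ∈ sumset ℓ (lim K N)) :
    ∃ y ∈ sumset ℓ (lim K N), ∃ v ∈ lattice d, (N : ℝ) • x = y + v := by
  obtain ⟨z, hz, rfl⟩ := hx
  choose y hy v hv h using fun j => nsmul_mem_lim K N hN (hz j)
  refine ⟨∑ j, y j, ⟨y, hy, rfl⟩, ∑ j, v j, sum_mem_lattice hv, ?_⟩
  rw [Finset.smul_sum, ← Finset.sum_add_distrib]
  exact Finset.sum_congr rfl fun j _ => h j

theorem pow_smul_mem_sumset (hN : 0 < N) {ℓ : ℕ} (m : ℕ) {x : EuclideanSpace ℝ (Fin d)}
    (hx : x ∈ sumset ℓ (lim K N)) :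
    ∃ y ∈ sumset ℓ (lim K N), ∃ v ∈ lattice d, ((N : ℝ) ^ m) • x = y + v := by
  induction m with
  | zero => exact ⟨x, hx, 0, fun i => ⟨0, by simp⟩, by simp⟩
  | succ m ih =>
    obtain ⟨y, hy, v, hv, h⟩ := ih
    obtain ⟨y', hy', v', hv', h'⟩ := nsmul_mem_sumset K N hN hy
    refine ⟨y', hy', v' + (N : ℝ) • v, add_mem_lattice hv' (nsmul_mem_lattice hv N), ?_⟩
    rw [pow_succ, mul_comm, mul_smul, h, smul_add, h']
    abel

/-- points of the limit set are close to `K` -/
theorem exists_close (hN : 0 < N) {x : EuclideanSpace ℝ (Fin d)} (hx : x ∈ lim K N) :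
    ∃ z ∈ K, dist x z ≤ (N : ℝ)⁻¹ * √d := by
  have h := lim_subset K N hN hx
  simp only [mem_iUnion] at h
  obtain ⟨a, ⟨z, hzK, w, hw, rfl⟩, y, hy, rfl⟩ := h
  refine ⟨_, hzK, ?_⟩
  rw [dist_con]
  have hy' := lim_subset_cube K N hy
  have h1 : dist y w ≤ √d := by
    rw [EuclideanSpace.dist_eq]
    apply Real.sqrt_le_sqrt
    have : ∀ i ∈ (Finset.univ : Finset (Fin d)), dist (y i) (w i) ^ 2 ≤ 1 := by
      intro i _
      have h2 := hy' i
      have h3 := hw i
      have h4 : |y i - w i| ≤ 1 := by rw [abs_le]; constructor <;> linarith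
      rw [Real.dist_eq]
      have := abs_nonneg (y i - w i)
      nlinarith
    refine (Finset.sum_le_card_nsmul _ _ 1 this).trans ?_
    simp
  gcongr

end construction

theorem dist_lattice (x x0 : EuclideanSpace ℝ (Fin d)) : ∃ v ∈ lattice d, dist x (x0 + v) ≤ √d := by
  refine ⟨WithLp.toLp 2 fun i => ((⌊x i - x0 i⌋ : ℤ) : ℝ), fun i => ⟨_, rfl⟩, ?_⟩
  rw [EuclideanSpace.dist_eq]
  apply Real.sqrt_le_sqrt
  have : ∀ i ∈ (Finset.univ : Finset (Fin d)),
      dist (x i) ((x0 + WithLp.toLp 2 fun i => ((⌊x i - x0 i⌋ : ℤ) : ℝ)) i) ^ 2 ≤ 1 := by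
    intro i _
    rw [PiLp.add_apply, Real.dist_eq]
    simp only
    have h1 := Int.floor_le (x i - x0 i)
    have h2 := Int.lt_floor_add_one (x i - x0 i)
    have h4 : |x i - (x0 i + (⌊x i - x0 i⌋ : ℤ))| ≤ 1 := by
      rw [abs_le]; constructor <;> linarith
    have := abs_nonneg (x i - (x0 i + (⌊x i - x0 i⌋ : ℤ)))
    nlinarith
  refine (Finset.sum_le_card_nsmul _ _ 1 this).trans ?_
  simp

/-- a point at positive distance from all integer translates of a compact nowhere dense set. -/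
theorem exists_far {C : Set (EuclideanSpace ℝ (Fin d))} (hC : IsCompact C)
    (hC' : IsNowhereDense C) :
    ∃ x0 : EuclideanSpace ℝ (Fin d), ∃ ε > 0, ∀ c ∈ C, ∀ v ∈ lattice d, ε ≤ dist x0 (c + v) := by
  have hclosed : IsClosed (C + lattice d) := isClosed_lattice.add_left_of_isCompact hC
  have hne : C + lattice d ≠ univ := by
    intro huniv
    have hcount : Countable (lattice d) := countable_lattice.to_subtype
    have h1 : (⋃ v : lattice d, (fun x => x + (v : EuclideanSpace ℝ (Fin d))) '' C) = univ := by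
      rw [← huniv]
      ext x
      simp only [mem_iUnion, mem_image, mem_add]
      constructor
      · rintro ⟨v, c, hc, rfl⟩
        exact ⟨c, hc, v, v.2, rfl⟩
      · rintro ⟨c, hc, v, hv, rfl⟩
        exact ⟨⟨v, hv⟩, c, hc, rfl⟩
    obtain ⟨v, hv⟩ := nonempty_interior_of_iUnion_of_closed
      (fun v : lattice d => (hC.image (continuous_add_const (v : EuclideanSpace ℝ (Fin d)))).isClosed)
      h1
    have h2 : interior ((fun x => x + (v : EuclideanSpace ℝ (Fin d))) '' C)
        = (fun x => x + (v : EuclideanSpace ℝ (Fin d))) '' interior C := by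
      exact ((Homeomorph.addRight (v : EuclideanSpace ℝ (Fin d))).image_interior C).symm
    rw [h2] at hv
    have h3 : interior C = ∅ := by
      have := hC'
      rwa [IsNowhereDense, hC.isClosed.closure_eq] at this
    rw [h3] at hv
    simp at hv
  obtain ⟨x0, hx0⟩ := (ne_univ_iff_exists_notMem _).mp hne
  have h4 : (C + lattice d)ᶜ ∈ 𝓝 x0 := hclosed.isOpen_compl.mem_nhds hx0
  obtain ⟨ε, hε, hball⟩ := Metric.mem_nhds_iff.mp h4
  refine ⟨x0, ε, hε, fun c hc v hv => ?_⟩
  by_contra hlt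
  push Not at hlt
  have : c + v ∈ Metric.ball x0 ε := by rw [Metric.mem_ball, dist_comm]; exact hlt
  exact hball this ⟨c, hc, v, hv, rfl⟩

/-- a `k`-plane through the origin -/
theorem exists_plane {k : ℕ} (hk : k ≤ d) :
    ∃ P : AffineSubspace ℝ (EuclideanSpace ℝ (Fin d)), Module.finrank ℝ P.direction = k ∧
      ((P : Set (EuclideanSpace ℝ (Fin d))) ∩ cube d).Nonempty := by
  obtain ⟨f, hf⟩ := exists_linearIndependent_of_le_finrank (R := ℝ)
    (M := EuclideanSpace ℝ (Fin d)) (n := k) (by simpa using hk)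
  refine ⟨AffineSubspace.mk' 0 (Submodule.span ℝ (range f)), ?_, 0,
    AffineSubspace.self_mem_mk' _ _, fun i => by simp⟩
  rw [AffineSubspace.direction_mk', finrank_span_eq_card hf]
  simp

/-- **If an `(ℓ,k,d)`-set exists then a self-similar `(ℓ,k,d)`-set exists.** -/
theorem main (ℓ k d : ℕ) (hkd : k ≤ d)
    (h : ∃ K : Set (EuclideanSpace ℝ (Fin d)), IsLKDSet ℓ k d K) :
    ∃ K : Set (EuclideanSpace ℝ (Fin d)), IsLKDSet ℓ k d K ∧ IsSelfSimilar K := by
  obtain ⟨K, hKcomp, hKc, hKmeets, hKnd⟩ := h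
  obtain ⟨x0, ε, hε, hfar⟩ := exists_far (isCompact_sumset hKcomp) hKnd
  -- choose `N`
  obtain ⟨N, hN⟩ : ∃ N : ℕ, ℓ * √d / ε < N := exists_nat_gt _
  set M : ℕ := N + 2 with hM
  have hM0 : 0 < M := by omega
  have hMR : (0 : ℝ) < M := by exact_mod_cast hM0
  have hsmall : ℓ * ((M : ℝ)⁻¹ * √d) < ε := by
    have h1 : ℓ * √d / ε < M := hN.trans (by rw [hM]; push_cast; linarith)
    rw [div_lt_iff₀ hε] at h1
    calc ℓ * ((M : ℝ)⁻¹ * √d) = (ℓ * √d) / M := by ring
      _ < ε := by rw [div_lt_iff₀ hMR]; linarith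
  refine ⟨lim K M, ⟨isCompact_lim K M, lim_subset_cube K M,
    fun P hP hPc => meets_lim K M hM0 hKc hKmeets P hP hPc, ?_⟩, ?_, isCompact_lim K M, ?_⟩
  · -- nowhere dense
    have hcl : IsClosed (sumset ℓ (lim K M)) := (isCompact_sumset (isCompact_lim K M)).isClosed
    rw [IsNowhereDense, hcl.closure_eq, interior_eq_empty_iff_dense_compl]
    -- `x0` is not in `L + lattice`
    have hx0 : ∀ y ∈ sumset ℓ (lim K M), ∀ v ∈ lattice d, y + v ≠ x0 := by
      rintro y ⟨z, hz, rfl⟩ v hv hyv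
      choose w hw hwz using fun j => exists_close K M hM0 (hz j)
      have h1 := hfar (∑ j, w j) ⟨w, hw, rfl⟩ v hv
      rw [← hyv, dist_add_right] at h1
      have h2 : dist (∑ j, z j) (∑ j, w j) ≤ ℓ * ((M : ℝ)⁻¹ * √d) := by
        refine (dist_sum_sum_le _ _ _).trans ?_
        refine (Finset.sum_le_card_nsmul _ _ _ fun j _ => hwz j).trans ?_
        simp
      linarith
    rw [Metric.dense_iff]
    intro x r hr
    obtain ⟨m, hm⟩ : ∃ m : ℕ, √d / r < (M : ℝ) ^ m := by
      have h1 : (1 : ℝ) < M := by rw [hM]; push_cast; linarith [(Nat.cast_nonneg N : (0 : ℝ) ≤ N)]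
      exact pow_unbounded_of_one_lt _ h1
    have hMm : (0 : ℝ) < (M : ℝ) ^ m := by positivity
    obtain ⟨v, hv, hdist⟩ := dist_lattice (((M : ℝ) ^ m) • x) x0
    refine ⟨((M : ℝ) ^ m)⁻¹ • (x0 + v), ?_, ?_⟩
    · rw [Metric.mem_ball, dist_comm]
      have h1 : x = ((M : ℝ) ^ m)⁻¹ • (((M : ℝ) ^ m) • x) := by
        rw [smul_smul, inv_mul_cancel₀ hMm.ne', one_smul]
      rw [h1, dist_smul₀, Real.norm_eq_abs, abs_of_pos (by positivity)]
      calc ((M : ℝ) ^ m)⁻¹ * dist (((M : ℝ) ^ m) • x) (x0 + v) ≤ ((M : ℝ) ^ m)⁻¹ * √d := by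
            gcongr
        _ < r := by
            rw [inv_mul_lt_iff₀ hMm]
            rw [div_lt_iff₀ hr] at hm
            exact hm
    · intro hmem
      obtain ⟨y, hy, v', hv', h2⟩ := pow_smul_mem_sumset K M hM0 m hmem
      rw [smul_smul, mul_inv_cancel₀ hMm.ne', one_smul] at h2
      refine hx0 y hy (v' + -v) (add_mem_lattice hv' (neg_mem_lattice hv)) ?_
      rw [← add_assoc, ← h2]
      abel
  · -- nonempty
    obtain ⟨P, hP, hPc⟩ := exists_plane (d := d) hkd
    obtain ⟨x, -, hx⟩ := meets_lim K M hM0 hKc hKmeets P hP hPc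
    exact ⟨x, hx⟩
  · -- self-similar
    classical
    let D := digits K M
    let e := Fintype.equivFin D
    refine ⟨Fintype.card D, fun i => con M (e.symm i).1, fun _ => (M : ℝ)⁻¹, fun _ => ⟨?_, ?_⟩,
      fun i x y => dist_con M _ x y, ?_⟩
    · positivity
    · apply inv_lt_one_of_one_lt₀
      rw [hM]; push_cast; linarith [(Nat.cast_nonneg N : (0 : ℝ) ≤ N)]
    · conv_lhs => rw [lim_eq K M hM0]
      ext x
      simp only [mem_iUnion]
      constructor
      · rintro ⟨a, ha, hx⟩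
        refine ⟨e ⟨a, ha⟩, ?_⟩
        rw [Equiv.symm_apply_apply]
        exact hx
      · rintro ⟨i, hx⟩
        exact ⟨_, (e.symm i).2, hx⟩

end Pool.Agent.H49.SS
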